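import Pool.Agent.P.MP_8f87b2_lc.PhaseD
import Pool.Agent.P.MP_8f87b2_lc.KS.Dig
import Pool.Agent.P.MP_8f87b2_lc.CV.Base

/-!
# Parameters, program text and ghost data
-/

namespace Pool.Agent.P.MP_8f87b2_lc.CV

open Finset

/-- one if the values are equal, else zero -/
abbrev eeq (a b : Expr) : Expr := eand (elt a (eadd b (.c 1))) (elt b (eadd a (.c 1)))
/-- twice a variable -/
abbrev edbl (x : ℕ) : Expr := eadd (.v x) (.v x)
/-- digit number `R[t]` of `R[p]` -/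
abbrev edig (t p : ℕ) : Expr := eand (eshr (.v p) (emul (.v 88) (.v t))) (.v 89)
/-- bit number `a` of `R[x]` -/
abbrev ebit (x : ℕ) (a : Expr) : Expr := eand (eshr (.v x) a) (.c 1)
/-- letter number `a` of `R[x]` -/
abbrev elet (x : ℕ) (a : Expr) : Expr :=
  eadd (.v 86) (eand (eshr (.v x) (emul (.v 87) a)) (.v 92))
/-- two to the power `e` -/
abbrev epw (e : Expr) : Expr := eshr (.v 10) (esub (.v 9) e)
/-- two to the power `R[k] * s` -/
abbrev eps (k : ℕ) : Expr := epw (emul (.v k) (.v 2))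
/-- the class of entry number `d` -/
abbrev ecls (d : Expr) : Expr :=
  eadd (.ld 7 (eadd (.v 25) d)) (emul (.v 5) (.ld 7 (eadd (edbl 25) d)))
/-- the outer part of a row or column number -/
abbrev elo (x : ℕ) : Expr := eand (.v x) (.v 16)
/-- the block part of a row or column number -/
abbrev ehi (x : ℕ) : Expr := eshr (.v x) (.v 76)
/-- the first group of a class -/
abbrev egr (x : ℕ) : Expr := emul (eshr (.v x) (.v 29)) (.v 13)

/-- the number of coordinate `R[t]` of point `R[i]` among the entries, counted from zero -/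
abbrev eix (i t : ℕ) : Expr := eadd (edbl 1) (eadd (emul (.v i) (.v 24)) (.v t))

/-! ### Expressions that depend on the polynomial -/

def epow (x : Expr) : ℕ → Expr
  | 0 => .c 1
  | e + 1 => rmul (epow x e) x

def emon : List ℕ → ℕ → Expr
  | [], _ => .c 1
  | e :: es, t => rmul (epow (.ld 6 (.c t)) e) (emon es (t + 1))

def ecoef (τ : Trm) : Expr := rmul (rsub (.c τ.h.toNat) (.c (-τ.h).toNat)) (emon τ.es 0)

def esum (f : Trm → Expr) : List Trm → Expr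
  | [] => .c 0
  | τ :: T => radd (rmul (ecoef τ) (f τ)) (esum f T)

def eH (T : List Trm) : Expr :=
  esum (fun τ => rmul (epow (.v 64) τ.i) (epow (.v 65) τ.j)) T

def eAcc (T : List Trm) : Expr :=
  esum (fun τ => .ld 9 (eadd (emul (.c τ.i) (.v 13)) (.c τ.j))) T

/-! ### The constants -/

structure Kc where
  e : ℕ
  v : ℕ
  s0 : ℕ
  a : ℕ
  T : List Trm

section
variable [Bs]

def ka : ℕ := 8 * uu
def kg : ℕ := 4 * Bs.d + 45
def kG : ℕ := (4 * bt + 2 + Bs.d) * ka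
def kP : ℕ := 4 * uu * (4 * bt + 2 + Bs.d + bt * (2 * bt + 1))
def kb : ℕ := 2 * kP + kg
def kr : ℕ := kP - 1
def kR : ℕ := 8 * Bs.d + 95
def kk : ℕ := 2 * kr + kR

theorem ka_eq : ka = kR + 1 := by unfold ka kR uu; omega
theorem kg_eq : kg + 3 = 4 * uu := by unfold kg uu; omega
theorem kP_two : 2 * kP = kG + bt * ((2 * bt + 1) * ka) := by unfold kP kG ka; ring
theorem ka_ge : 96 ≤ ka := by have := uu_ge; unfold ka; omega
theorem bt_ge : 12 ≤ bt := uu_ge.trans uu_le_bt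
theorem kG_eq : kG = (4 * bt + 2) * ka + Bs.d * ka := by unfold kG; ring
theorem ka_le_kG : 50 * ka ≤ kG := by
  rw [kG_eq]; have := bt_ge; nlinarith [Nat.zero_le (Bs.d * ka)]
theorem kG_le : kG ≤ 2 * kP := by rw [kP_two]; omega
theorem kP_eq : kP = kr + 1 := by
  have := ka_le_kG; have := kG_le; have := ka_ge; unfold kr; omega
theorem kA_le : (bt + 1) * ((4 * bt + 2) * ka) ≤ 4 * kP := by
  have h : (bt + 1) * ((4 * bt + 2) * ka) =
      2 * (bt * ((2 * bt + 1) * ka)) + (4 * bt + 2) * ka := by ring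
  have := kP_two; have := kG_eq; omega
theorem kP_le : 2 * kP ≤ kb := by unfold kb; omega
theorem kk_le : kk ≤ 2 * kb := by
  have := kP_eq; have := kP_le; have := ka_eq; have := ka_le_kG; have := kG_le
  unfold kk; omega
theorem bt_le : bt + 1 ≤ kb := by
  have h : bt + 1 ≤ (4 * bt + 2) * ka := by have := ka_ge; nlinarith
  have := kG_eq; have := kG_le; have := kP_le; omega
theorem d_le : Bs.d ≤ kb := by
  have h : Bs.d ≤ Bs.d * ka := Nat.le_mul_of_pos_right _ (by have := ka_ge; omega)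
  have := kG_eq; have := kG_le; have := kP_le; omega

/-- the constants fit the polynomial and the bound `n ^ cc` on the entries -/
structure Kc.OK (K : Kc) (cc : ℕ) : Prop where
  he : 1 ≤ K.e
  hT : ∀ τ ∈ K.T, τ.i + τ.j + τ.es.sum < K.e ∧ τ.es.length ≤ Bs.d
  hv : K.v = cc + 1
  pos : ∀ w x y, 0 ≤ Hv w K.T x y
  hs0 : 1 ≤ K.s0
  hs : ∀ s, K.s0 ≤ s → 8820 * (K.a * s) ^ 5 ≤ 2 ^ s
  ha : (K.T.map fun τ => τ.h.natAbs).sum + kb * (K.v * (K.e + 1) + 4) +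
    K.e * K.e + 4 * K.e + 100 ≤ K.a

/-! ### The program -/

def pConst (K : Kc) : Stmt := blk
  [.set 24 (.c Bs.d), .set 13 (.c K.e), .set 83 (.c K.v), .set 84 (.c K.a), .set 2 (.c K.s0),
    .set 87 (.c bt), .set 94 (.c kb), .set 95 (.c kP), .set 96 (.c kG), .set 97 (.c ka),
    .set 98 (.c kk)]

end

/-- the length of the lists and the scale -/
def pSize : Stmt := blk
  [.set 1 (.c 0), .wh (elt (emul (eadd (.v 24) (.c 2)) (.v 1)) (.inp (.c 0))) (.set 1 (einc 1)),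
    .wh (eshr (.v 1) (emul (.v 94) (.v 2))) (.set 2 (einc 2))]

def pSetup : Stmt := blk
  [pSize, .set 9 (emul (.v 84) (.v 2)), .set 10 (.c 1), forL 30 9 (.set 10 (edbl 10)),
    .set 88 (einc 87), .set 85 (epw (.v 88)), .set 86 (epw (.v 87)),
    .set 89 (esub (.v 85) (.c 1)), .set 92 (esub (.v 86) (.c 1)),
    .set 27 (emul (.v 97) (.v 2)), .set 93 (epw (.v 27)), .set 28 (esub (.v 93) (.c 1)),
    .set 3 (epw (emul (.v 27) (.v 24))), .set 8 (epw (emul (.v 83) (emul (.v 94) (.v 2)))),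
    .set 12 (emul (eadd (edbl 87) (.c 1)) (.v 27)), .set 14 (edbl 12),
    .set 4 (epw (emul (.v 88) (.v 14))), .set 5 (eps 95), .set 6 (edbl 2),
    .set 7 (emul (eps 96) (.v 13)), .set 11 (emul (emul (.c 2) (.v 13)) (.v 5)),
    .set 15 (eps 98), .set 76 (emul (.v 87) (emul (edbl 87) (.v 27))),
    .set 16 (esub (epw (.v 76)) (.c 1)), .set 29 (emul (.v 87) (.v 12)),
    .set 17 (esub (epw (.v 29)) (.c 1)), .set 18 (epw (emul (.v 87) (.v 27))),
    .set 22 (edbl 7), .set 23 (emul (.v 22) (.v 4)),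
    .set 25 (emul (eadd (.v 24) (.c 2)) (.v 1)), .set 26 (esub (epw (.v 12)) (.c 1)),
    .set 77 (emul (.v 5) (.v 5)), .set 78 (esub (emul (.v 95) (.v 2)) (.v 2)),
    .set 79 (esub (epw (.v 78)) (.c 1))]

/-- mark the composite numbers below `P` -/
def pSieve : Stmt := forL 33 5 (forL 34 5
  (.ite (eand (elt (.c 1) (.v 33))
      (eand (elt (.c 1) (.v 34)) (elt (emul (.v 33) (.v 34)) (.v 5))))
    (.st 0 (emul (.v 33) (.v 34)) (.c 1)) .skip))

/-- list the primes below `P` -/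
def pPrimes : Stmt := blk [.set 35 (.c 0), forL 33 5
  (.ite (eand (elt (.c 1) (.v 33)) (elt (.ld 0 (.v 33)) (.c 1)))
    (blk [.st 1 (.v 35) (.v 33), .set 35 (einc 35)]) .skip)]

def pPick : Stmt := blk
  [.set 80 (.ld 1 (eand (.v 19) (.v 79))), .set 81 (.ld 1 (eand (eshr (.v 19) (.v 78)) (.v 79))),
    .set 82 (.ld 1 (eshr (.v 19) (edbl 78)))]

/-- `R[62] := R[60] mod R[61]` -/
def pMod : Stmt := blk [.set 62 (.c 0), forL 63 9 (blk
  [.set 62 (eadd (edbl 62) (ebit 60 (esub (.v 9) (einc 63)))),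
    .ite (elt (.v 62) (.v 61)) .skip (.set 62 (esub (.v 62) (.v 61)))])]

/-- the residues of the entries modulo `R[61]`, stored from address `R[40]` on -/
def pRes1 : Stmt := forL 33 25 (blk
  [.set 60 (radd (.inp (einc 33)) (emul (.v 61) (.v 8))), pMod,
    .st 7 (eadd (.v 40) (.v 33)) (.v 62)])

def pRes : Stmt := blk
  [.set 40 (.c 0), .set 61 (.v 82), pRes1, .set 40 (.v 25), .set 61 (.v 80), pRes1,
    .set 40 (edbl 25), .set 61 (.v 81), pRes1]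

/-- the residues of the coordinates of each point, read as the digits of one number -/
def pCode : Stmt := forL 33 1 (blk
  [.set 34 (.c 0), .set 35 (.c 1), forL 36 24 (blk
    [.set 34 (eadd (.v 34) (emul (.ld 7 (eix 33 36)) (.v 35))), .set 35 (emul (.v 35) (.v 93))]),
    .st 8 (.v 33) (.v 34)])

def pTabIn : Stmt := blk
  [.set 38 (edig 37 33),
    .ite (.v 38) (blk [.ite (elt (.v 38) (.v 89)) (.set 36 (einc 36)) .skip,
      .ite (elt (.v 38) (.v 86)) (.set 34 (einc 34)) .skip]) (.set 35 (einc 35))]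

def pTab : Stmt := forL 33 4 (blk
  [.set 34 (.c 0), .set 35 (.c 0), .set 36 (.c 0), forL 37 14 pTabIn,
    .st 15 (.v 33) (.v 34), .st 2 (.v 33) (.v 35), .st 3 (.v 33) (.v 36)])

def pL1 : Stmt := pFilter 4 20
  (eand (elt (.ld 15 (.v 33)) (.c 1)) (elt (.v 6) (eadd (.ld 2 (.v 33)) (.c 1))))

def pL2 : Stmt := pFilter 5 21
  (eand (elt (.ld 3 (.v 33)) (.c 1)) (elt (.ld 2 (.v 33)) (einc 6)))

/-- load the digits of `R[91]` -/
def pLoadR : Stmt := forL 36 24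
  (.st 6 (.v 36) (eand (eshr (.v 91) (emul (.v 27) (.v 36))) (.v 28)))

/-- load the residues, stored from address `R[40]` on, of the coordinates of point `R[33]` -/
def pLoadQ : Stmt := forL 36 24 (.st 6 (.v 36) (.ld 7 (eadd (.v 40) (eix 33 36))))

/-- load the coordinates of point `R[33]` -/
def pLoadC : Stmt := forL 36 24 (.st 6 (.v 36) (.inp (eadd (eix 33 36) (.c 1))))

/-- `R[60] :=` the value of the polynomial at `R[64], R[65]` and the loaded point -/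
def pH (T : List Trm) : Stmt := .set 60 (eH T)

/-- `R[62] :=` that value modulo `R[61]` -/
def pDiv (T : List Trm) : Stmt := blk [pH T, pMod]

def pPre (T : List Trm) : Stmt := blk
  [.set 64 (.inp (.c 1)), .set 65 (.inp (einc 1)), forL 33 1 (blk
    [pLoadC, pH T, .ite (.v 60) .skip (.set 0 (.c 1))])]

/-- the root list modulo `R[61]`, stored under the number `R[58]` -/
def pRoots (T : List Trm) : Stmt := blk
  [.set 35 (.c 0), .set 41 (emul (.v 58) (.v 77)),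
    forL 64 61 (forL 65 61 (blk [pDiv T, .ite (.v 62) .skip (blk
      [.st 10 (eadd (.v 41) (.v 35)) (.v 64), .st 11 (eadd (.v 41) (.v 35)) (.v 65),
        .set 35 (einc 35)])])),
    .st 12 (.v 58) (.v 35)]

def pZero : Stmt := forL 33 23 (.st 13 (.v 33) (.c 0))

/-- `R[73] :=` the string with letters from `R[70]`, `R[71]` and pattern `R[72]` -/
def pW : Stmt := blk [.set 73 (.c 0), .set 44 (.c 1), forL 37 14 (blk
  [.ite (elt (.v 37) (.v 12))
      (.ite (ebit 72 (.v 37)) .skip (.set 73 (eadd (.v 73) (emul (elet 70 (.v 37)) (.v 44)))))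
      (.ite (ebit 72 (esub (.v 37) (.v 12)))
        (.set 73 (eadd (.v 73) (emul (elet 71 (esub (.v 37) (.v 12))) (.v 44)))) .skip),
    .set 44 (emul (.v 44) (.v 85))])]

/-- add the powers of `R[46]` to the tables of the groups from `R[45]` on -/
def pPut : Stmt := blk [pW, .set 47 (.c 1), forL 48 13 (blk
  [.set 49 (eadd (emul (eadd (.v 45) (.v 48)) (.v 4)) (.v 73)),
    .st 13 (.v 49) (radd (.ld 13 (.v 49)) (.v 47)), .set 47 (rmul (.v 47) (.v 46))])]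

def pFillX (T : List Trm) : Stmt := blk [.set 61 (.v 82), forL 33 1 (blk
  [.set 46 (.inp (einc 33)), .set 50 (ecls (.v 33)), .set 45 (egr 50),
    .set 70 (eand (.v 50) (.v 17)), .set 64 (.ld 7 (.v 33)),
    forL 65 82 (blk [pDiv T, .ite (.v 62) .skip (forL 51 18 (blk
      [.set 71 (eadd (elo 70) (emul (einc 16) (.v 51))),
        .set 72 (eadd (ehi 70) (emul (.v 18) (eadd (.v 51) (emul (.v 18) (.v 65))))),
        pPut]))])])]

def pFillY : Stmt := forL 33 1 (blk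
  [.set 46 (.inp (eadd (eadd (.v 1) (.v 33)) (.c 1))), .set 50 (ecls (eadd (.v 1) (.v 33))),
    .set 45 (eadd (.v 7) (egr 50)), .set 71 (eand (.v 50) (.v 17)),
    .set 65 (.ld 7 (eadd (.v 1) (.v 33))),
    forL 51 18 (blk
      [.set 70 (eadd (elo 71) (emul (einc 16) (.v 51))),
        .set 72 (esub (.v 26)
          (eadd (.v 51) (emul (.v 18) (eadd (ehi 71) (emul (.v 18) (.v 65)))))),
        pPut])])

def pPass : Stmt := forL 34 4 (blk
  [.set 38 (edig 35 34),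
    .ite (.v 38) (.st 13 (eadd (.v 41) (.v 34)) (radd (.ld 13 (eadd (.v 41) (.v 34)))
      (.ld 13 (eadd (.v 41) (esub (.v 34) (emul (.v 38) (.v 44))))))) .skip])

def pZeta : Stmt := blk
  [.set 44 (.c 1), forL 35 14 (blk [pPass, .set 44 (emul (.v 44) (.v 85))])]

def pEnc : Stmt := forL 33 22 (blk [.set 41 (emul (.v 33) (.v 4)), pZeta])

def pUIn : Stmt := blk
  [.set 36 (.ld 4 (.v 35)),
    .set 37 (rmul (.ld 13 (eadd (.v 41) (.v 36))) (.ld 13 (eadd (.v 42) (.v 36)))),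
    .set 45 (.c 0), .set 44 (.c 1),
    .wh (eand (elt (.v 45) (.v 14)) (elt (.c 0) (edig 45 36))) (blk
      [.set 37 (rsub (.v 37) (.ld 14 (eadd (.v 43) (esub (.v 36) (emul (edig 45 36) (.v 44)))))),
        .set 45 (einc 45), .set 44 (emul (.v 44) (.v 85))]),
    .st 14 (eadd (.v 43) (.v 36)) (.v 37)]

def pU : Stmt := forL 33 7 (forL 34 7 (blk
  [.set 41 (emul (.v 33) (.v 4)), .set 42 (emul (eadd (.v 7) (.v 34)) (.v 4)),
    .set 43 (emul (eadd (emul (.v 33) (.v 7)) (.v 34)) (.v 4)), forL 35 20 pUIn]))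

def pSumIn : Stmt := blk
  [.set 49 (.ld 5 (.v 48)), .set 50 (eand (.v 34) (.v 49)),
    .ite (elt (.ld 2 (.v 49)) (.v 6))
      (.set 51 (rmul (.ld 13 (eadd (.v 41) (.v 50))) (.ld 13 (eadd (.v 42) (.v 50)))))
      (.set 51 (.ld 14 (eadd (.v 43) (.v 50)))),
    .ite (eand (.ld 2 (.v 49)) (.c 1)) (.set 47 (rsub (.v 47) (.v 51)))
      (.set 47 (radd (.v 47) (.v 51)))]

/-- `R[47] :=` the value at the output `R[34]` for the groups `R[38]`, `R[39]` -/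
def pSum : Stmt := blk
  [.set 41 (emul (.v 38) (.v 4)), .set 42 (emul (eadd (.v 7) (.v 39)) (.v 4)),
    .set 43 (emul (eadd (emul (.v 38) (.v 7)) (.v 39)) (.v 4)), .set 47 (.c 0),
    forL 48 21 pSumIn]

/-- `R[34] :=` the output string of the classes `R[52]`, `R[53]` -/
def pOut : Stmt := blk
  [.set 54 (eand (.v 52) (.v 17)), .set 55 (eand (.v 53) (.v 17)),
    .set 70 (.v 54), .set 71 (eadd (elo 54) (emul (einc 16) (ehi 55))),
    .set 72 (eadd (ehi 54) (emul (.v 18) (ehi 55))), pW, .set 34 (.v 73),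
    .set 70 (eadd (elo 55) (emul (einc 16) (ehi 54))), .set 71 (.v 55),
    .set 72 (esub (.v 26) (.v 72)), pW, .set 34 (eadd (.v 34) (.v 73))]

/-- all moments of the classes `R[52]`, `R[53]` -/
def pMom : Stmt := blk [pOut, forL 56 13 (forL 57 13 (blk
  [.set 38 (eadd (egr 52) (.v 56)), .set 39 (eadd (egr 53) (.v 57)), pSum,
    .st 9 (eadd (emul (.v 56) (.v 13)) (.v 57)) (.v 47)]))]

def pOne (T : List Trm) : Stmt := blk
  [pMom, .set 60 (eAcc T),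
    .ite (.ld 9 (.c 0)) (.ite (.v 60) .skip (.set 0 (.c 1))) .skip]

/-- the two root lists of point number `R[33]` -/
def pLists (T : List Trm) : Stmt := blk
  [.set 40 (.v 25), pLoadQ, .set 61 (.v 80), .set 58 (.c 0), pRoots T,
    .set 40 (edbl 25), pLoadQ, .set 61 (.v 81), .set 58 (.c 1), pRoots T]

/-- the tests at all pairs of roots -/
def pPairs (T : List Trm) : Stmt := blk
  [.set 67 (.ld 12 (.c 0)), .set 68 (.ld 12 (.c 1)),
    .ite (eand (elt (.v 67) (einc 11)) (elt (.v 68) (einc 11))) (forL 69 67 (forL 74 68 (blk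
      [.set 52 (eadd (.ld 10 (.v 69)) (emul (.v 5) (.ld 10 (eadd (.v 77) (.v 74))))),
        .set 53 (eadd (.ld 11 (.v 69)) (emul (.v 5) (.ld 11 (eadd (.v 77) (.v 74))))),
        pOne T]))) .skip]

/-- all needed outputs of point number `R[33]` -/
def pItem (T : List Trm) : Stmt := blk [pLists T, pLoadC, pPairs T]

def pQuery (T : List Trm) : Stmt := forL 33 1
  (.ite (eeq (.ld 8 (.v 33)) (.v 91)) (pItem T) .skip)

def pInst (T : List Trm) : Stmt := blk [pLoadR, pZero, pFillX T, pFillY, pEnc, pU, pQuery T]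

def pLoop (T : List Trm) : Stmt := blk [pPre T, forL 91 3 (pInst T)]

/-- everything that does not depend on the residue vector -/
def pPrep : Stmt := blk [pSieve, pPrimes, pWord 19 15, pPick, pRes, pCode, pTab, pL1, pL2]

def pMain [Bs] (K : Kc) : Stmt := blk
  [pConst K, pSetup, .ite (.v 1) (blk [pPrep, pLoop K.T]) .skip]

/-! ### Parameters -/

structure Cx extends Kc where
  s : ℕ
  n : ℕ
  y : ℕ → ℤ

/-- the three moduli -/
structure Pr where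
  q1 : ℕ
  q2 : ℕ
  p : ℕ

variable [Bs]

namespace Cx

variable (c : Cx)

def μ : ℕ := ka * c.s
def m : ℕ := (2 * bt + 1) * c.μ
def l : ℕ := (4 * bt + 2) * c.μ
def t0 : ℕ := 2 * c.s
def A : ℕ := BB ^ c.l
def N1 : ℕ := LB ^ (2 * bt * c.μ)
def K1 : ℕ := LB ^ c.μ
def NG : ℕ := LB ^ ((2 * bt + 1) * c.μ)
def G : ℕ := 2 ^ (kG * c.s)
def GE : ℕ := c.G * c.e
def P : ℕ := 2 ^ (kP * c.s)
def D : ℕ := 2 ^ c.μ
def DD : ℕ := c.D ^ Bs.d
def lb : ℕ := kb * c.s
def b : ℕ := 2 ^ c.lb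
def V : ℕ := 2 ^ (c.v * c.lb)
def Ab : ℕ := c.a * c.s
def Z : ℕ := 2 * c.e * c.P
def ρ : ℕ := kr * c.s
def R1 : ℕ := 2 ^ c.ρ
def R2 : ℕ := 2 ^ (kR * c.s)
/-- the number of random bits -/
def k1 : ℕ := kk * c.s
/-- the number of entries -/
def nn : ℕ := (Bs.d + 2) * c.n
def sN : ℕ := bt * (2 * bt * c.μ)
def sG : ℕ := bt * c.m

theorem A_pos : 0 < c.A := BB_pow_pos _
theorem N1_pos : 0 < c.N1 := LB_pow_pos _
theorem K1_pos : 0 < c.K1 := LB_pow_pos _
theorem NG_pos : 0 < c.NG := LB_pow_pos _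
theorem G_pos : 0 < c.G := by unfold G; positivity
theorem P_pos : 0 < c.P := by unfold P; positivity
theorem D_pos : 0 < c.D := by unfold D; positivity
theorem b_pos : 0 < c.b := by unfold b; positivity
theorem DD_pos : 0 < c.DD := pow_pos c.D_pos _
theorem V_pos : 0 < c.V := by unfold V; positivity
theorem R1_pos : 0 < c.R1 := by unfold R1; positivity
theorem R2_pos : 0 < c.R2 := by unfold R2; positivity

theorem A_eq : c.A = 2 ^ ((bt + 1) * c.l) := BB_pow _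
theorem N1_eq : c.N1 = 2 ^ c.sN := LB_pow _
theorem NG_eq : c.NG = 2 ^ c.sG := LB_pow _
theorem K1_eq : c.K1 = 2 ^ (bt * c.μ) := LB_pow _
theorem DD_eq : c.DD = 2 ^ (c.μ * Bs.d) := by rw [DD, D, ← pow_mul]
theorem l_two : c.l = 2 * c.m := by rw [l, m]; ring
theorem PP : c.P * c.P = c.G * c.NG := by
  rw [P, G, NG_eq, ← pow_add, ← pow_add, sG, m, μ, ← two_mul, ← mul_assoc, kP_two]
  congr 1; ring
theorem NG_mul : c.NG = c.N1 * c.K1 := by rw [NG, N1, K1, ← pow_add]; congr 1; ring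
theorem RW : 2 ^ c.k1 = c.R1 * c.R1 * c.R2 := by
  rw [R1, R2, ρ, k1, kk, ← pow_add, ← pow_add]; congr 1; ring
theorem ρ_eq : kP * c.s = c.ρ + c.s := by rw [ρ, kP_eq]; ring
theorem μ_eq : c.μ = kR * c.s + c.s := by rw [μ, ka_eq]; ring
theorem nn_eq : c.nn = c.n + c.n + c.n * Bs.d := by rw [nn]; ring

/-- the exponents are at most twice `lb` -/
theorem x_A : (bt + 1) * c.l ≤ 2 * c.lb := by
  have := Nat.mul_le_mul_right c.s (kA_le.trans (show 4 * kP ≤ 2 * kb by have := kP_le; omega))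
  rw [l, μ, lb]; linarith
theorem x_G : kG * c.s ≤ c.lb := Nat.mul_le_mul_right _ (kG_le.trans kP_le)
theorem x_P : 2 * (kP * c.s) ≤ c.lb := by
  rw [← mul_assoc]; exact Nat.mul_le_mul_right _ kP_le
theorem x_l : c.l + c.μ * Bs.d = kG * c.s := by rw [l, μ, kG_eq]; ring
theorem x_k : c.k1 ≤ 2 * c.lb := by
  rw [k1, lb, ← mul_assoc]; exact Nat.mul_le_mul_right _ kk_le
theorem x_sG : kG * c.s + c.sG = 2 * (kP * c.s) := by
  rw [sG, m, μ, ← mul_assoc 2, kP_two]; ring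
theorem x_sN : c.sN + bt * c.μ = c.sG := by rw [sN, sG, m]; ring
theorem x_μ : 50 * c.μ ≤ c.l := by
  rw [l]; exact Nat.mul_le_mul_right _ (by have := bt_ge; omega)
theorem x_s : 96 * c.s ≤ c.μ := Nat.mul_le_mul_right _ ka_ge

theorem and_N1 (a : ℕ) : a &&& (c.N1 - 1) = a % c.N1 := by
  rw [N1_eq]; exact Nat.and_two_pow_sub_one_eq_mod _ _
theorem and_NG (a : ℕ) : a &&& (c.NG - 1) = a % c.NG := by
  rw [NG_eq]; exact Nat.and_two_pow_sub_one_eq_mod _ _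
theorem and_D (a : ℕ) : a &&& (c.D - 1) = a % c.D := Nat.and_two_pow_sub_one_eq_mod _ _
theorem and_R1 (a : ℕ) : a &&& (c.R1 - 1) = a % c.R1 := Nat.and_two_pow_sub_one_eq_mod _ _
theorem shr_N1 (a : ℕ) : a >>> c.sN = a / c.N1 := by
  rw [N1_eq]; exact Nat.shiftRight_eq_div_pow _ _
theorem shr_NG (a : ℕ) : a >>> c.sG = a / c.NG := by
  rw [NG_eq]; exact Nat.shiftRight_eq_div_pow _ _
theorem shr_D (a t : ℕ) : a >>> (c.μ * t) = a / c.D ^ t := by
  rw [Nat.shiftRight_eq_div_pow, pow_mul]; rfl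
theorem shr_R1 (a : ℕ) : a >>> c.ρ = a / c.R1 := Nat.shiftRight_eq_div_pow _ _
theorem shr_RR (a : ℕ) : a >>> (c.ρ + c.ρ) = a / (c.R1 * c.R1) := by
  rw [Nat.shiftRight_eq_div_pow, pow_add]; rfl
theorem N1_succ : c.N1 - 1 + 1 = c.N1 := Nat.sub_add_cancel c.N1_pos

omit [Bs] in
/-- the value of `epw` -/
theorem epw_eq {e : ℕ} (h : e ≤ c.Ab) : 2 ^ c.Ab >>> (c.Ab - e) = 2 ^ e := by
  rw [Nat.shiftRight_eq_div_pow, Nat.pow_div (Nat.sub_le _ _) (by norm_num), Nat.sub_sub_self h]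

theorem div_NG_lt {x : ℕ} (hx : x < c.P * c.P) : x / c.NG < c.G := by
  rw [Nat.div_lt_iff_lt_mul c.NG_pos, ← c.PP]; exact hx

theorem div_N1_lt {x : ℕ} (hx : x < c.NG) : x / c.N1 < c.K1 := by
  rw [Nat.div_lt_iff_lt_mul c.N1_pos, mul_comm, ← c.NG_mul]; exact hx

theorem grp_lt {x ε : ℕ} (hx : x < c.P * c.P) (hε : ε < c.e) : x / c.NG * c.e + ε < c.GE :=
  mul_add_lt (c.div_NG_lt hx) hε

/-! ### Ghost data -/

/-- entries of the first and of the second list -/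
def ya (i : ℕ) : ℤ := c.y (i + 1)
def yb (i : ℕ) : ℤ := c.y (c.n + i + 1)

/-- the coordinates of point number `i` -/
def wc (i t : ℕ) : ℤ := c.y (c.n + c.n + (i * Bs.d + t) + 1)

/-- their residues -/
def wq (q i t : ℕ) : ℤ := res q (c.wc i t)

/-- the digits of `r` -/
def wr (r t : ℕ) : ℤ := (r / c.D ^ t % c.D : ℕ)

def H (w : ℕ → ℤ) (x y : ℤ) : ℤ := Hv w c.T x y

def rt (q i : ℕ) : Finset (ℕ × ℕ) := roots (c.wq q i) c.T q

/-- the residues of the coordinates of point `i`, read as the digits of one number -/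
def rc (π : Pr) (i : ℕ) : ℕ := KS.enc c.D Bs.d fun t => res π.p (c.wc i t)

theorem ix_lt {i t : ℕ} (hi : i < c.n) (ht : t < Bs.d) : c.n + c.n + (i * Bs.d + t) < c.nn := by
  have := mul_add_lt hi ht
  rw [nn_eq]; omega

/-- the moduli chosen by the random word `r` -/
noncomputable def pr (r : ℕ) : Pr :=
  ⟨Nat.nth Nat.Prime (r % c.R1), Nat.nth Nat.Prime (r / c.R1 % c.R1),
    Nat.nth Nat.Prime (r / (c.R1 * c.R1))⟩

def cls (π : Pr) (x : ℤ) : ℕ := res π.q1 x + c.P * res π.q2 x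

def L1 : List ℕ := flt c.A fun p => decide (inv c.l p = 0 ∧ c.t0 ≤ cnt c.l p)
def L2 : List ℕ := flt c.A fun p => decide (odd c.l p = 0 ∧ cnt c.l p ≤ c.t0)

/-- what one call of `pPut` adds at the address `ad` -/
def put (g u : ℕ) (x : ℤ) (ad : ℕ) : ℤ :=
  ∑ ε ∈ range c.e, if ad = (g + ε) * c.A + u then x ^ ε else 0

/-- what entry `i` of the first list adds -/
def TX (π : Pr) (r i ad : ℕ) : ℤ :=
  ∑ β ∈ range π.p, if (π.p : ℤ) ∣ c.H (c.wr r) (res π.p (c.ya i)) β then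
    ∑ κ ∈ range c.K1, c.put (c.cls π (c.ya i) / c.NG * c.e)
      (uX c.μ (c.cls π (c.ya i) % c.NG) κ β) (c.ya i) ad else 0

/-- what entry `i` of the second list adds -/
def TY (π : Pr) (i ad : ℕ) : ℤ :=
  ∑ κ ∈ range c.K1, c.put (c.GE + c.cls π (c.yb i) / c.NG * c.e)
    (vY c.μ (c.cls π (c.yb i) % c.NG) κ (res π.p (c.yb i))) (c.yb i) ad

/-- the tables before the zeta transform -/
def TT (π : Pr) (r ad : ℕ) : ℤ :=
  ∑ i ∈ range c.n, c.TX π r i ad + ∑ i ∈ range c.n, c.TY π i ad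

def Fz (π : Pr) (r g u : ℕ) : ℤ := zeta (fun u => c.TT π r (g * c.A + u)) c.l u

def Pz (π : Pr) (r g g' u : ℕ) : ℤ := c.Fz π r g u * c.Fz π r (c.GE + g') u

/-- the pair of entries contributes to the output of the classes `x`, `y` -/
def Con (π : Pr) (r x y i i' : ℕ) : Prop :=
  c.cls π (c.ya i) = x ∧ c.cls π (c.yb i') = y ∧
    (π.p : ℤ) ∣ c.H (c.wr r) (res π.p (c.ya i)) (res π.p (c.yb i'))

instance (π : Pr) (r x y i i' : ℕ) : Decidable (c.Con π r x y i i') := by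
  unfold Con; infer_instance

def Mom (π : Pr) (r x y ε ε' : ℕ) : ℤ :=
  ∑ i ∈ range c.n, ∑ i' ∈ range c.n,
    if c.Con π r x y i i' then c.ya i ^ ε * c.yb i' ^ ε' else 0

def Acc (π : Pr) (r x y : ℕ) (w : ℕ → ℤ) : ℤ := tsum w c.T fun τ => c.Mom π r x y τ.i τ.j

theorem Acc_eq (π : Pr) (r x y : ℕ) (w : ℕ → ℤ) : c.Acc π r x y w =
    ∑ i ∈ range c.n, ∑ i' ∈ range c.n,
      if c.Con π r x y i i' then c.H w (c.ya i) (c.yb i') else 0 := by
  unfold Acc Mom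
  rw [tsum_sum]
  refine sum_congr rfl fun i _ => ?_
  rw [tsum_sum]
  refine sum_congr rfl fun i' _ => ?_
  split_ifs
  · rfl
  · simp [tsum]

/-- the test at the classes `x`, `y` for the point number `i` -/
def test (π : Pr) (r x y i : ℕ) : Prop :=
  c.Mom π r x y 0 0 ≠ 0 ∧ c.Acc π r x y (c.wc i) = 0

def Yes : Prop := ∃ i < c.n, ∃ i' < c.n, ∃ i'' < c.n, c.H (c.wc i'') (c.ya i) (c.yb i') = 0

/-- the output is unchanged, or set for a good reason -/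
def Out (a b : ℕ) : Prop := b = a ∨ (b = 1 ∧ c.Yes)

/-- a successful test among the needed outputs of point number `i` -/
def HitI (π : Pr) (i : ℕ) : Prop :=
  (c.rt π.q1 i).card ≤ c.Z ∧ (c.rt π.q2 i).card ≤ c.Z ∧
    ∃ p₁ ∈ c.rt π.q1 i, ∃ p₂ ∈ c.rt π.q2 i,
      c.test π (c.rc π i) (p₁.1 + c.P * p₂.1) (p₁.2 + c.P * p₂.2) i

def Hit (π : Pr) : Prop :=
  ∃ i < c.n, c.H (c.wc i) (c.ya 0) (c.yb 0) = 0 ∨ c.HitI π i

/-- the number of points with residue vector `r` -/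
def ncr (π : Pr) (r : ℕ) : ℕ := ((range c.n).filter fun i => c.rc π i = r).card

/-- the moduli are good for the solution `(i, i', i'')` -/
def Good (i i' i'' : ℕ) (π : Pr) : Prop :=
  ¬ (π.q1 : ℤ) ∣ c.H (c.wc i'') (c.ya 0) (c.yb 0) ∧
    ¬ (π.q2 : ℤ) ∣ c.H (c.wc i'') (c.ya 0) (c.yb 0) ∧
    ∀ j < c.n, ∀ j' < c.n, c.cls π (c.ya j) = c.cls π (c.ya i) →
      c.cls π (c.yb j') = c.cls π (c.yb i') → (π.p : ℤ) ∣ c.H (c.wc i'') (c.ya j) (c.yb j') →
      c.H (c.wc i'') (c.ya j) (c.yb j') = 0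

/-! ### Costs -/

def tMod : ℕ := c.Ab * 5 + 3
def tDiv : ℕ := c.tMod + 1
def tRes : ℕ := 3 * (c.nn * (c.tMod + 4) + 4)
def tCode : ℕ := c.n * (Bs.d * 4 + 7) + 2
def tLoad (_ : Cx) : ℕ := Bs.d * 3 + 2
def tPre : ℕ := c.n * (c.tLoad + 5) + 4
def tTab : ℕ := c.A * (c.l * 8 + 10) + 2
def tPrep : ℕ := (c.P * (c.P * 4 + 4) + 2) + (c.P * 5 + 3) + (4 * c.k1 + 3) + 3 + c.tRes +
  c.tCode + c.tTab + 2 * (c.A * 5 + 3)
def tRoots : ℕ := c.P * (c.P * (c.tDiv + 6) + 4) + 5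
def tW : ℕ := c.l * 6 + 4
def tPut : ℕ := c.tW + c.e * 5 + 3
def tFillX : ℕ := c.n * (c.D * (c.tDiv + c.K1 * (c.tPut + 4) + 5) + 9) + 4
def tFillY : ℕ := c.n * (c.K1 * (c.tPut + 4) + 9) + 2
def tEnc : ℕ := 2 * c.GE * (c.l * (c.A * 5 + 5) + 6) + 2
def tU : ℕ := c.GE * (c.GE * (c.L1.length * (c.l * 4 + 8) + 7) + 4) + 2
def tSum : ℕ := c.L2.length * 8 + 6
def tOut : ℕ := 2 * c.tW + 10
def tMom : ℕ := c.tOut + c.e * (c.e * (c.tSum + 5) + 4) + 2
def tOne : ℕ := c.tMom + 4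
def tLists : ℕ := 2 * (c.tLoad + c.tRoots) + 6
def tPairs : ℕ := c.Z * (c.Z * (c.tOne + 4) + 4) + 5
def tItem : ℕ := c.tLists + c.tLoad + c.tPairs
/-- the cost of one residue vector without the needed outputs -/
def tInst : ℕ := c.tLoad + (2 * c.GE * c.A * 3 + 2) + c.tFillX + c.tFillY + c.tEnc + c.tU +
  (c.n * 3 + 2)
def tLoop : ℕ := c.tPre + c.DD * (c.tInst + 2) + 2 + c.n * c.tItem
def tAll : ℕ := 2 * c.n + 10 * c.Ab + 1 + c.tPrep + c.tLoop

variable {c}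

theorem Out.refl (a : ℕ) : c.Out a a := Or.inl rfl

theorem Out.trans {a b d : ℕ} (h₁ : c.Out a b) (h₂ : c.Out b d) : c.Out a d := by
  rcases h₂ with rfl | h₂
  exacts [h₁, Or.inr h₂]

theorem Out.one {a b : ℕ} (h : c.Out a b) (ha : a = 1) : b = 1 := by
  rcases h with rfl | h
  exacts [ha, h.1]

end Cx

/-- the moduli are primes in the right ranges -/
structure Pr.OK (π : Pr) (c : Cx) : Prop where
  p1 : π.q1.Prime
  p2 : π.q2.Prime
  p3 : π.p.Prime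
  l1 : π.q1 < c.P
  l2 : π.q2 < c.P
  l3 : π.p < c.D

theorem Pr.OK.cls_lt {π : Pr} {c : Cx} (h : π.OK c) (x : ℤ) : c.cls π x < c.P * c.P := by
  have h1 := (res_lt h.p1.pos x).trans h.l1
  have h2 := (res_lt h.p2.pos x).trans h.l2
  unfold Cx.cls
  nlinarith

theorem Pr.OK.rc_lt {π : Pr} {c : Cx} (h : π.OK c) (i : ℕ) : c.rc π i < c.DD :=
  KS.enc_lt fun _ _ => (res_lt h.p3.pos _).trans h.l3

theorem Pr.OK.wr_rc {π : Pr} {c : Cx} (h : π.OK c) (i : ℕ) :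
    ∀ t < Bs.d, c.wr (c.rc π i) t = res π.p (c.wc i t) := fun t ht =>
  congrArg Nat.cast (KS.dg_enc (fun _ _ => (res_lt h.p3.pos _).trans h.l3) ht)

/-- the parameter variables hold their values -/
structure Par (c : Cx) (σ : St) : Prop where
  n : σ.var 1 = c.n
  DD : σ.var 3 = c.DD
  A : σ.var 4 = c.A
  P : σ.var 5 = c.P
  t0 : σ.var 6 = c.t0
  GE : σ.var 7 = c.GE
  V : σ.var 8 = c.V
  Ab : σ.var 9 = c.Ab
  Z : σ.var 11 = c.Z
  m : σ.var 12 = c.m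
  e : σ.var 13 = c.e
  l : σ.var 14 = c.l
  RW : σ.var 15 = 2 ^ c.k1
  N1 : σ.var 16 = c.N1 - 1
  NG : σ.var 17 = c.NG - 1
  K1 : σ.var 18 = c.K1
  G2 : σ.var 22 = 2 * c.GE
  GA : σ.var 23 = 2 * c.GE * c.A
  d : σ.var 24 = Bs.d
  nn : σ.var 25 = c.nn
  pm : σ.var 26 = 2 ^ c.m - 1
  μ : σ.var 27 = c.μ
  Dm : σ.var 28 = c.D - 1
  sG : σ.var 29 = c.sG
  sN : σ.var 76 = c.sN
  PP : σ.var 77 = c.P * c.P
  ρ : σ.var 78 = c.ρ
  R1 : σ.var 79 = c.R1 - 1
  rB : σ.var 85 = BB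
  rL : σ.var 86 = LB
  rt : σ.var 87 = bt
  rt1 : σ.var 88 = bt + 1
  rBm : σ.var 89 = BB - 1
  rLm : σ.var 92 = LB - 1
  D : σ.var 93 = c.D

def parVars : List ℕ :=
  [1, 3, 4, 5, 6, 7, 8, 9, 11, 12, 13, 14, 15, 16, 17, 18, 22, 23, 24, 25, 26, 27, 28, 29,
    76, 77, 78, 79, 85, 86, 87, 88, 89, 92, 93]

theorem Par.frame {c : Cx} {σ σ' : St} {vs bs : List ℕ} {r : Bool} (h : Par c σ)
    (hF : Frame vs bs r σ σ') (hv : ∀ x ∈ parVars, x ∉ vs) : Par c σ' := by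
  have e : ∀ x ∈ parVars, σ'.var x = σ.var x := fun x hx => hF.var x (hv x hx)
  exact ⟨(e 1 (by decide)).trans h.n, (e 3 (by decide)).trans h.DD,
    (e 4 (by decide)).trans h.A, (e 5 (by decide)).trans h.P,
    (e 6 (by decide)).trans h.t0, (e 7 (by decide)).trans h.GE,
    (e 8 (by decide)).trans h.V, (e 9 (by decide)).trans h.Ab,
    (e 11 (by decide)).trans h.Z, (e 12 (by decide)).trans h.m,
    (e 13 (by decide)).trans h.e, (e 14 (by decide)).trans h.l,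
    (e 15 (by decide)).trans h.RW, (e 16 (by decide)).trans h.N1,
    (e 17 (by decide)).trans h.NG, (e 18 (by decide)).trans h.K1,
    (e 22 (by decide)).trans h.G2, (e 23 (by decide)).trans h.GA,
    (e 24 (by decide)).trans h.d, (e 25 (by decide)).trans h.nn,
    (e 26 (by decide)).trans h.pm, (e 27 (by decide)).trans h.μ,
    (e 28 (by decide)).trans h.Dm, (e 29 (by decide)).trans h.sG,
    (e 76 (by decide)).trans h.sN, (e 77 (by decide)).trans h.PP,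
    (e 78 (by decide)).trans h.ρ, (e 79 (by decide)).trans h.R1,
    (e 85 (by decide)).trans h.rB, (e 86 (by decide)).trans h.rL,
    (e 87 (by decide)).trans h.rt, (e 88 (by decide)).trans h.rt1,
    (e 89 (by decide)).trans h.rBm, (e 92 (by decide)).trans h.rLm,
    (e 93 (by decide)).trans h.D⟩

omit [Bs] in
theorem frame_setv (σ : St) (x v : ℕ) : Frame [x] [] false σ (σ.setv x v) :=
  (Frame.refl _ _ _ _).of_setv (by simp)

/-- the size facts that do not mention the environment -/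
structure Nm (c : Cx) : Prop where
  s1 : 1 ≤ c.s
  e1 : 1 ≤ c.e
  nb : c.n < c.b
  hT : ∀ τ ∈ c.T, τ.i < c.e ∧ τ.j < c.e ∧ τ.es.length ≤ Bs.d ∧ τ.h.natAbs ≤ c.Ab
  yV : ∀ d, |c.y d| ≤ c.V
  PV : c.P ≤ c.V
  DP : c.D ≤ c.P
  lV : (c.P + 1) * c.V < 2 ^ c.Ab
  hH : ∀ w : ℕ → ℤ, (∀ t, |w t| ≤ c.V) → ∀ x y : ℤ, |x| ≤ c.V → |y| ≤ c.V →
    0 ≤ c.H w x y ∧ c.H w x y < 2 ^ c.Ab
  sA : 4 * c.lb + 100 * c.s ≤ c.Ab
  eA : c.e * c.e + 4 * c.e ≤ c.Ab
  vA : c.v * c.lb ≤ c.Ab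
  pi1 : ∀ r < c.R1, Nat.nth Nat.Prime r < c.P
  pi2 : ∀ r < c.R2, Nat.nth Nat.Prime r < c.D
  big : 8820 * c.Ab ^ 5 ≤ 2 ^ c.s

theorem Nm.kb_le {c : Cx} (h : Nm c) : kb ≤ c.lb := Nat.le_mul_of_pos_right _ h.s1

theorem Nm.dA {c : Cx} (h : Nm c) : Bs.d ≤ c.Ab := by
  have := h.kb_le; have := h.sA; have := d_le; omega

theorem Nm.len {c : Cx} (h : Nm c) : ∀ τ ∈ c.T, τ.es.length ≤ Bs.d :=
  fun τ hτ => (h.hT τ hτ).2.2.1

theorem Nm.wcV {c : Cx} (h : Nm c) (i t : ℕ) : |c.wc i t| ≤ c.V := h.yV _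

theorem Nm.wqV {c : Cx} (h : Nm c) {q : ℕ} (hq : 0 < q) (hP : q ≤ c.P) (i t : ℕ) :
    |c.wq q i t| ≤ c.V := by
  have h1 := ((res_lt hq (c.wc i t)).le.trans hP).trans h.PV
  rw [Cx.wq, Nat.abs_cast]
  exact_mod_cast h1

theorem Nm.wrV {c : Cx} (h : Nm c) (r t : ℕ) : |c.wr r t| ≤ c.V := by
  have h1 := ((Nat.mod_lt (r / c.D ^ t) c.D_pos).le.trans h.DP).trans h.PV
  rw [Cx.wr, Nat.abs_cast]
  exact_mod_cast h1

theorem Nm.pr_ok {c : Cx} (h : Nm c) {r : ℕ} (hr : r < 2 ^ c.k1) : (c.pr r).OK c := by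
  refine ⟨Nat.prime_nth_prime _, Nat.prime_nth_prime _, Nat.prime_nth_prime _,
    h.pi1 _ (Nat.mod_lt _ c.R1_pos), h.pi1 _ (Nat.mod_lt _ c.R1_pos), h.pi2 _ ?_⟩
  rw [Nat.div_lt_iff_lt_mul (Nat.mul_pos c.R1_pos c.R1_pos), mul_comm, ← c.RW]
  exact hr

/-- size facts relating the parameters and the environment -/
structure Bnd (c : Cx) (E : Env) : Prop where
  nm : Nm c
  n1 : E.n1 = c.nn + 1
  inp : ∀ d, 1 ≤ d → d ≤ c.nn → E.inp d = (c.y d % E.W).toNat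
  big : 200000 * E.Lim < E.W
  lA : BB * c.A ≤ E.Lim
  lGA : 2 * c.GE * c.A ≤ E.Lim
  lGGA : c.GE * c.GE * c.A ≤ E.Lim
  lP : 2 * c.P * (c.P * c.P) ≤ E.Lim
  lZ : c.Z ≤ E.Lim
  ln : 10 * c.nn + 1 ≤ E.Lim
  lAb : 100 * c.Ab ≤ E.Lim
  lT : 2 ^ c.Ab ≤ E.Lim
  lDD : c.DD ≤ E.Lim
  lNG : c.NG ≤ E.Lim
  lm : 2 ^ c.m ≤ E.Lim
  lRW : 2 ^ c.k1 ≤ E.Lim
  fin : c.n * c.n * 2 ^ c.Ab < E.W

/-- the data that do not depend on the residue vector are in place -/
structure Pre (c : Cx) (π : Pr) (σ : St) : Prop where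
  par : Par c σ
  ok : π.OK c
  n0 : 1 ≤ c.n
  n1 : σ.var 20 = c.L1.length
  n2 : σ.var 21 = c.L2.length
  q1 : σ.var 80 = π.q1
  q2 : σ.var 81 = π.q2
  p : σ.var 82 = π.p
  b2 : ∀ p < c.A, σ.bank 2 p = cnt c.l p
  b4 : ∀ i < c.L1.length, σ.bank 4 i = c.L1.getD i 0
  b5 : ∀ i < c.L2.length, σ.bank 5 i = c.L2.getD i 0
  b7 : ∀ d < c.nn, σ.bank 7 d = res π.p (c.y (d + 1)) ∧
    σ.bank 7 (c.nn + d) = res π.q1 (c.y (d + 1)) ∧
    σ.bank 7 (c.nn + c.nn + d) = res π.q2 (c.y (d + 1))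
  b8 : ∀ i < c.n, σ.bank 8 i = c.rc π i

def preVars : List ℕ := 20 :: 21 :: 80 :: 81 :: 82 :: parVars

theorem Pre.frame {c : Cx} {π : Pr} {σ σ' : St} {vs bs : List ℕ} {z : Bool}
    (h : Pre c π σ) (hF : Frame vs bs z σ σ') (hv : ∀ x ∈ preVars, x ∉ vs)
    (hb : ∀ k ∈ [2, 4, 5, 7, 8], k ∉ bs) : Pre c π σ' := by
  have e : ∀ k ∈ [2, 4, 5, 7, 8], σ'.bank k = σ.bank k := fun k hk => hF.bank k (hb k hk)
  exact ⟨h.par.frame hF fun x hx => hv x (by simp [preVars, hx]), h.ok, h.n0,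
    (hF.var 20 (hv 20 (by decide))).trans h.n1, (hF.var 21 (hv 21 (by decide))).trans h.n2,
    (hF.var 80 (hv 80 (by decide))).trans h.q1, (hF.var 81 (hv 81 (by decide))).trans h.q2,
    (hF.var 82 (hv 82 (by decide))).trans h.p, e 2 (by decide) ▸ h.b2, e 4 (by decide) ▸ h.b4,
    e 5 (by decide) ▸ h.b5, e 7 (by decide) ▸ h.b7, e 8 (by decide) ▸ h.b8⟩

/-- the point `w` is loaded -/
structure Tup (c : Cx) (E : Env) (π : Pr) (w : ℕ → ℤ) (σ : St) : Prop where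
  pre : Pre c π σ
  hw : ∀ t, |w t| ≤ c.V
  b6 : ∀ t < Bs.d, (σ.bank 6 t : ZMod E.W) = (w t : ℤ)

theorem Tup.frame {c : Cx} {E : Env} {π : Pr} {w : ℕ → ℤ} {σ σ' : St} {vs bs : List ℕ}
    {r : Bool} (h : Tup c E π w σ) (hF : Frame vs bs r σ σ') (hv : ∀ x ∈ preVars, x ∉ vs)
    (hb : ∀ k ∈ [6, 2, 4, 5, 7, 8], k ∉ bs) : Tup c E π w σ' :=
  ⟨h.pre.frame hF hv fun x hx => hb x (List.mem_cons_of_mem _ hx), h.hw,
    hF.bank 6 (hb 6 (by decide)) ▸ h.b6⟩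

/-- the list number `o` holds the elements of `S`, all with coordinates below `q` -/
def LstAt (c : Cx) (o q : ℕ) (S : Finset (ℕ × ℕ)) (σ : St) : Prop :=
  σ.bank 12 o = S.card ∧
    (∀ t < S.card, σ.bank 10 (o * (c.P * c.P) + t) < q ∧ σ.bank 11 (o * (c.P * c.P) + t) < q) ∧
    ∀ p ∈ S, ∃ t < S.card, σ.bank 10 (o * (c.P * c.P) + t) = p.1 ∧
      σ.bank 11 (o * (c.P * c.P) + t) = p.2

theorem LstAt.frame {c : Cx} {o q : ℕ} {S : Finset (ℕ × ℕ)} {σ σ' : St} {vs bs : List ℕ}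
    {x : Bool} (h : LstAt c o q S σ) (hF : Frame vs bs x σ σ')
    (hb : ∀ k ∈ [10, 11, 12], k ∉ bs) : LstAt c o q S σ' := by
  unfold LstAt
  rw [hF.bank 10 (hb 10 (by decide)), hF.bank 11 (hb 11 (by decide)),
    hF.bank 12 (hb 12 (by decide))]
  exact h

/-- the tables of the residue vector `r` are in place -/
structure Tab (c : Cx) (E : Env) (π : Pr) (r : ℕ) (σ : St) : Prop where
  pre : Pre c π σ
  hr : σ.var 91 = r
  hr' : r < c.DD
  F : ∀ g < 2 * c.GE, ∀ p < c.A, (σ.bank 13 (g * c.A + p) : ZMod E.W) = (c.Fz π r g p : ℤ)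
  U : ∀ m < c.GE * c.GE, ∀ p ∈ c.L1, (σ.bank 14 (m * c.A + p) : ZMod E.W) =
    (Uv (c.Pz π r (m / c.GE) (m % c.GE)) c.l p : ℤ)

theorem Tab.frame {c : Cx} {E : Env} {π : Pr} {r : ℕ} {σ σ' : St} {vs bs : List ℕ} {x : Bool}
    (h : Tab c E π r σ) (hF : Frame vs bs x σ σ') (hv : ∀ x ∈ 91 :: preVars, x ∉ vs)
    (hb : ∀ k ∈ [13, 14, 2, 4, 5, 7, 8], k ∉ bs) : Tab c E π r σ' :=
  ⟨h.pre.frame hF (fun x hx => hv x (List.mem_cons_of_mem _ hx))
      fun x hx => hb x (List.mem_cons_of_mem _ (List.mem_cons_of_mem _ hx)),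
    (hF.var 91 (hv 91 (by decide))).trans h.hr, h.hr',
    hF.bank 13 (hb 13 (by decide)) ▸ h.F, hF.bank 14 (hb 14 (by decide)) ▸ h.U⟩

/-- the scale is the one chosen for the input length -/
structure Sz (c : Cx) : Prop where
  s1 : c.s0 ≤ c.s
  nN : c.n < c.b
  smin : ∀ i, c.s0 ≤ i → i < c.s → 2 ^ (kb * i) ≤ c.n

end Pool.Agent.P.MP_8f87b2_lc.CV
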