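import Pool.Agent.P.MP_8f87b2_lc.CV.Defs
import Pool.Agent.P.MP_8f87b2_lc.CV.Complete

/-!
# From the specifications to the final statement
-/

namespace Pool.Agent.P.MP_8f87b2_lc.CV

open Finset MeasureTheory

open Classical in
theorem tape_one {k : ℕ} (G : ℕ → Prop) (h : 2 * 2 ^ k ≤ 3 * ((range (2 ^ k)).filter G).card) :
    2 / 3 ≤ tapeLaw {ω | G (bits ω 0 k)} := by
  refine tape_bound (M := 1) (k₁ := k) (k := 0) (nR := 0) rfl (fun r _ => G r) ?_
  rw [pow_zero, mul_one]
  refine h.trans (Nat.mul_le_mul_left _ (le_of_eq ?_))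
  rw [card_filter]
  refine sum_congr rfl fun r _ => ?_
  unfold num
  split_ifs with hr <;> simp [hr]

/-- the terms of the square of a polynomial -/
noncomputable def terms {d : ℕ} (F : MvPolynomial (Fin (d + 2)) ℤ) : List Trm :=
  (F ^ 2).support.toList.map fun m =>
    ⟨m 0, m 1, (F ^ 2).coeff m, List.ofFn fun t : Fin d => m t.succ.succ⟩

theorem mon_ofFn (w : ℕ → ℤ) : ∀ (d : ℕ) (f : Fin d → ℕ) (t : ℕ),
    mon w (List.ofFn f) t = ∏ i : Fin d, w (t + i) ^ f i
  | 0, _, _ => by simp [mon]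
  | d + 1, f, t => by
    rw [List.ofFn_succ, mon, mon_ofFn w d, Fin.prod_univ_succ]
    congr 1
    exact prod_congr rfl fun i _ => by rw [Fin.val_succ]; congr 2; omega

theorem Hv_terms {d : ℕ} (F : MvPolynomial (Fin (d + 2)) ℤ) (w : ℕ → ℤ) (x y : ℤ) :
    Hv w (terms F) x y =
      (MvPolynomial.eval (Matrix.vecCons x (Matrix.vecCons y fun t : Fin d => w t)) F) ^ 2 := by
  rw [← map_pow, MvPolynomial.eval_eq', Hv, tsum, terms, List.map_map, sum_map_toList]
  refine sum_congr rfl fun m _ => ?_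
  simp only [Function.comp, Trm.co, mon_ofFn, Fin.prod_univ_succ, Matrix.cons_val_zero,
    Matrix.cons_val_succ, zero_add, Fin.succ_zero_eq_one]
  ring

theorem terms_deg {d : ℕ} (F : MvPolynomial (Fin (d + 2)) ℤ) : ∀ τ ∈ terms F,
    τ.i + τ.j + τ.es.sum < (F ^ 2).totalDegree + 1 ∧ τ.es.length ≤ d := by
  intro τ hτ
  obtain ⟨m, hm, rfl⟩ := List.mem_map.mp hτ
  have h := MvPolynomial.le_totalDegree (mem_toList.mp hm)
  rw [Finsupp.sum_fintype _ _ (fun _ => rfl), Fin.sum_univ_succ, Fin.sum_univ_succ,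
    Fin.succ_zero_eq_one] at h
  simp only [List.sum_ofFn, List.length_ofFn]
  omega

/-- entry number `d`, counted from one -/
def ent (xs : List ℤ) (d : ℕ) : ℤ := if d = 0 then 0 else xs.getD (d - 1) 0

theorem flat_len {d : ℕ} (C : List (Fin d → ℤ)) :
    (C.map List.ofFn).flatten.length = C.length * d := by
  induction C with
  | nil => simp
  | cons z C ih => rw [List.map_cons, List.flatten_cons, List.length_append, ih]; simp; ring

theorem flat_getD {d : ℕ} (C : List (Fin d → ℤ)) : ∀ (i : ℕ) (hi : i < C.length) (t : Fin d),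
    (C.map List.ofFn).flatten.getD (i * d + t) 0 = C[i] t := by
  induction C with
  | nil => intro i hi; simp at hi
  | cons z C ih =>
    intro i hi t
    rw [List.map_cons, List.flatten_cons]
    cases i with
    | zero =>
      rw [List.getD_append _ _ _ _ (by simp), List.getD_eq_getElem _ _ (by simp)]
      simp
    | succ i =>
      rw [List.getD_append_right _ _ _ _ (by simp [Nat.succ_mul]; omega), List.length_ofFn,
        show (i + 1) * d + t - d = i * d + t by rw [Nat.succ_mul]; omega,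
        ih i (by simpa using hi) t]
      rfl

theorem exists_Sz [Bs] (K : Kc) (n : ℕ) (y : ℕ → ℤ) :
    ∃ c : Cx, c.toKc = K ∧ c.n = n ∧ c.y = y ∧ Sz c := by
  classical
  have ex : ∃ s, K.s0 ≤ s ∧ n < 2 ^ (kb * s) :=
    ⟨n + K.s0, by omega, lt_of_le_of_lt ((Nat.le_add_right _ _).trans
      (Nat.le_mul_of_pos_left _ (by have := bt_le; omega))) Nat.lt_two_pow_self⟩
  refine ⟨⟨K, Nat.find ex, n, y⟩, rfl, rfl, rfl, (Nat.find_spec ex).1, (Nat.find_spec ex).2,
    fun i h1 h2 => ?_⟩
  have := Nat.find_min ex h2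
  simp only [not_and, not_lt] at this
  exact this h1

theorem mem_iff_getD {l : List ℤ} {n : ℕ} (hl : l.length = n) {x : ℤ} :
    x ∈ l ↔ ∃ i < n, l.getD i 0 = x := by
  subst hl
  constructor
  · intro h
    obtain ⟨i, hi, rfl⟩ := List.getElem_of_mem h
    exact ⟨i, hi, List.getD_eq_getElem _ _ hi⟩
  · rintro ⟨i, hi, rfl⟩
    rw [List.getD_eq_getElem _ _ hi]
    exact List.getElem_mem hi

theorem decides_of [Bs] (hMain : SMain) (hwf : ∀ K, (pMain K).wf = true) (hK : SK) (hNm : SNm)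
    (hBnd : SBnd) (hTime : STime) (hGood : SGood) (hC : SComplete)
    (F : MvPolynomial (Fin (Bs.d + 2)) ℤ) (cc : ℕ) : DecidesC F cc (2 - 2 / (kb : ℚ)) := by
  obtain ⟨K, hT, hOK⟩ := hK _ cc (terms F) (Nat.succ_pos _) (terms_deg F)
    fun w x y => by rw [Hv_terms]; positivity
  obtain ⟨C, hCt⟩ := hTime K cc hOK
  refine ⟨program (pMain K), 20 * K.a * K.s0, ⌈(pMain K).K * C + 4⌉₊,
    fun n LA LB' LC hv w hw => ?_⟩
  set xs := inputC LA LB' LC with hxs
  obtain ⟨l0, l1, l2, v0, v1, v2⟩ := hv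
  obtain ⟨c, rfl, hn, hy, hS⟩ := exists_Sz K n (ent xs)
  have hlen : xs.length = c.nn := by
    rw [hxs, inputC, List.length_append, List.length_append, flat_len, c.nn_eq, hn, l0, l1, l2]
  have hT' : c.T = terms F := hT
  have hkb : 1 ≤ kb := by have := bt_le; omega
  have hs0 := hOK.hs0
  have hsw : 20 * c.Ab ≤ w := by
    refine le_trans ?_ hw
    rw [Cx.Ab, mul_assoc, mul_assoc]
    refine Nat.mul_le_mul_left _ (Nat.mul_le_mul_left _ ?_)
    rcases Nat.lt_or_ge c.s0 c.s with h | h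
    · have h1 := hS.smin (c.s - 1) (by omega) (by omega)
      have h3 := Nat.le_log_of_pow_le (b := 2) (by norm_num) h1
      rw [hn] at h3
      have h4 : c.s - 1 ≤ kb * (c.s - 1) := Nat.le_mul_of_pos_left _ hkb
      exact le_trans (by omega) (Nat.le_mul_of_pos_left _ (by omega))
    · exact h.trans (Nat.le_mul_of_pos_right _ (by omega))
  have ea : ∀ i < n, c.ya i = LA.getD i 0 := fun i hi => by
    rw [Cx.ya, hy, ent, if_neg (by omega), hxs, inputC, Nat.add_sub_cancel,
      List.getD_append _ _ _ _ (by rw [List.length_append]; omega),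
      List.getD_append _ _ _ _ (by omega)]
  have eb : ∀ i < n, c.yb i = LB'.getD i 0 := fun i hi => by
    rw [Cx.yb, hy, ent, if_neg (by omega), hxs, inputC, Nat.add_sub_cancel,
      List.getD_append _ _ _ _ (by rw [List.length_append]; omega),
      List.getD_append_right _ _ _ _ (by omega)]
    congr 1; omega
  have ec : ∀ (i : ℕ) (hi : i < LC.length), (fun t : Fin Bs.d => c.wc i t) = LC[i] :=
    fun i hi => funext fun t => by
      rw [Cx.wc, hy, ent, if_neg (by omega), hxs, inputC, Nat.add_sub_cancel,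
        List.getD_append_right _ _ _ _ (by rw [List.length_append]; omega), ← flat_getD LC i hi t]
      congr 1
      rw [List.length_append]; omega
  have eH : ∀ w x y, c.H w x y = (MvPolynomial.eval
      (Matrix.vecCons x (Matrix.vecCons y fun t : Fin Bs.d => w t)) F) ^ 2 := fun w x y => by
    rw [Cx.H, hT', Hv_terms]
  have hyes : c.Yes ↔ IsYesC F LA LB' LC := by
    constructor
    · rintro ⟨i, hi, i', hi', i'', hi'', h⟩
      rw [hn] at hi hi' hi''
      rw [eH, pow_eq_zero_iff (by norm_num), ec i'' (by omega)] at h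
      exact ⟨_, (mem_iff_getD l0).mpr ⟨i, hi, (ea i hi).symm⟩, _,
        (mem_iff_getD l1).mpr ⟨i', hi', (eb i' hi').symm⟩, _, List.getElem_mem _, h⟩
    · rintro ⟨x, hx, y, hy', z, hz, h⟩
      obtain ⟨i, hi, e1⟩ := (mem_iff_getD l0).mp hx
      obtain ⟨i', hi', e2⟩ := (mem_iff_getD l1).mp hy'
      obtain ⟨i'', hi'', e3⟩ := List.getElem_of_mem hz
      refine ⟨i, hn ▸ hi, i', hn ▸ hi', i'', by omega, ?_⟩
      rw [eH, ea i hi, eb i' hi', ec i'' hi'', e1, e2, e3, h]
      norm_num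
  have hN : Nm c := hNm hOK hS fun d => by
    rw [hy, hn, ent]
    split_ifs
    · rw [abs_zero]; positivity
    · by_cases h : d - 1 < xs.length
      · have hm := List.getElem_mem h
        rw [← List.getD_eq_getElem _ 0 h] at hm
        generalize xs.getD (d - 1) 0 = x at hm
        rw [hxs, inputC, List.mem_append, List.mem_append] at hm
        rcases hm with (hm | hm) | hm
        · exact v0 _ hm
        · exact v1 _ hm
        · obtain ⟨l, hl, hm⟩ := List.mem_flatten.mp hm
          obtain ⟨z, hz, rfl⟩ := List.mem_map.mp hl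
          obtain ⟨t, rfl⟩ := (List.mem_ofFn' _ _).mp hm
          exact v2 z hz t
      · rw [List.getD_eq_default _ _ (by omega), abs_zero]; positivity
  have hB : ∀ ω, Bnd c (envOf w (2 ^ (3 * c.Ab)) xs ω) := fun ω =>
    hBnd hN rfl hsw rfl (by rw [← hlen]; rfl)
      fun d h1 _ => by simp [envOf, start, hy, ent, show d ≠ 0 by omega]
  have hB0 := hB fun _ => false
  have hbig : 200000 * 2 ^ (3 * c.Ab) < 2 ^ w := hB0.big
  have hln : 10 * c.nn + 1 ≤ 2 ^ (3 * c.Ab) := hB0.ln
  have hp : 0 < 2 ^ (3 * c.Ab) := by positivity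
  set Q := pMain c.toKc with hQ
  have main : ∀ ω, (program Q).length ≤ (run w (program Q) ω xs (Q.K * c.tAll + 4)).pc ∧
      c.Out 0 ((run w (program Q) ω xs (Q.K * c.tAll + 4)).reg 0) ∧
      (c.Hit (c.pr (bits ω 0 c.k1)) →
        (run w (program Q) ω xs (Q.K * c.tAll + 4)).reg 0 = 1) := by
    intro ω
    obtain ⟨σ', t, hx', h1, h2, h3⟩ := hMain hS (hB ω) (by
      simp only [envOf, start, if_true]
      rw [hlen]
      exact Nat.mod_eq_of_lt (by omega))
    obtain ⟨p1, p2⟩ := program_ok (T := Q.K * c.tAll + 4) (hwf _)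
      (by omega) (by omega) hx' (Nat.add_le_add_right (Nat.mul_le_mul_left _ (by omega)) _)
    rw [p2]
    exact ⟨p1, h1, h2⟩
  refine ⟨Q.K * c.tAll + 4, ?_, fun ω => (main ω).1, ?_⟩
  · have h1 := hCt c rfl hS
    rw [hn] at h1
    have h2 : (0 : ℝ) ≤ (n : ℝ) ^ ((2 - 2 / (kb : ℚ) : ℚ) : ℝ) := by positivity
    have h3 := mul_le_mul_of_nonneg_left h1 (Nat.cast_nonneg (α := ℝ) Q.K)
    refine le_trans ?_ (mul_le_mul_of_nonneg_right (Nat.le_ceil _) (by linarith))
    rw [Nat.cast_add, Nat.cast_mul, Nat.cast_ofNat]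
    linarith
  have full : ∀ S : Set (ℕ → Bool), (∀ ω, ω ∈ S) → 2 / 3 ≤ tapeLaw S := fun S hS' => by
    rw [Set.eq_univ_of_forall hS', measure_univ]
    exact ENNReal.div_le_of_le_mul (by norm_num)
  by_cases hy' : IsYesC F LA LB' LC
  · obtain ⟨i, hi, i', hi', i'', hi'', h0⟩ := hyes.mpr hy'
    by_cases h1 : c.H (c.wc i'') (c.ya 0) (c.yb 0) = 0
    · refine full _ fun ω => ?_
      simp [(main ω).2.2 ⟨i'', hi'', Or.inl h1⟩, hy']
    · refine (tape_one (fun r => c.Good i i' i'' (c.pr r))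
        (by convert hGood hN i hi i' hi' i'' hi'' h1)).trans (measure_mono fun ω hω => ?_)
      have := hC hN (hN.pr_ok (bits_lt ω 0 c.k1)) i hi i' hi' i'' hi'' h0 hω
      simp [(main ω).2.2 ⟨i'', hi'', Or.inr this⟩, hy']
  · refine full _ fun ω => ?_
    rcases (main ω).2.1 with h2 | h2
    · simp [h2, hy']
    · exact absurd (hyes.mp h2.2) hy'

end Pool.Agent.P.MP_8f87b2_lc.CV
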