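import Pool.Agent.P.MP_8f87b2_lc.Defs

/-!
# Curves against a grid, on the randomized word-RAM

Only the definitions used by the final statement live in this file. The machine (`Instr`, `run`,
`tapeLaw`) is the one of `Pool.Agent.P.MP_8f87b2_lc.Defs`.
-/

namespace Pool.Agent.P.MP_8f87b2_lc.CV

/-- A valid instance: two lists `A`, `B` of `n` integers and a list `C` of `n` points of `ℤ ^ d`,
all numbers in `[-n ^ c, n ^ c]` (repetitions are allowed). -/
def ValidC {d : ℕ} (c n : ℕ) (A B : List ℤ) (C : List (Fin d → ℤ)) : Prop :=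
  A.length = n ∧ B.length = n ∧ C.length = n ∧ (∀ x ∈ A, |x| ≤ (n : ℤ) ^ c) ∧
    (∀ y ∈ B, |y| ≤ (n : ℤ) ^ c) ∧ ∀ z ∈ C, ∀ t, |z t| ≤ (n : ℤ) ^ c

/-- A yes-instance: `F (x, y, z₁, …, z_d) = 0` for some `x` in `A`, `y` in `B` and `z` in `C`. -/
def IsYesC {d : ℕ} (F : MvPolynomial (Fin (d + 2)) ℤ) (A B : List ℤ) (C : List (Fin d → ℤ)) :
    Prop :=
  ∃ x ∈ A, ∃ y ∈ B, ∃ z ∈ C, MvPolynomial.eval (Matrix.vecCons x (Matrix.vecCons y z)) F = 0

/-- The input: the entries of `A`, then those of `B`, then the coordinates of the points of `C`,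
point after point. -/
def inputC {d : ℕ} (A B : List ℤ) (C : List (Fin d → ℤ)) : List ℤ :=
  A ++ B ++ (C.map List.ofFn).flatten

/-- Some randomized word-RAM program decides in time `O(n ^ γ)` whether `F` vanishes at some point
of `A × B × C`: there are a program `P` and constants `K`, `M` such that for every valid instance
and every word size `w ≥ K (log₂ n + 1)` there is a step count `t ≤ M (n ^ γ + 1)` such that on
every tape the program has halted after `t` steps, and with probability at least `2 / 3` its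
answer (yes iff register `0` is nonzero) is correct. -/
def DecidesC {d : ℕ} (F : MvPolynomial (Fin (d + 2)) ℤ) (c : ℕ) (γ : ℚ) : Prop :=
  ∃ (P : List Instr) (K M : ℕ), ∀ (n : ℕ) (A B : List ℤ) (C : List (Fin d → ℤ)),
    ValidC c n A B C → ∀ w : ℕ, K * (Nat.log 2 n + 1) ≤ w →
      ∃ t : ℕ, (t : ℝ) ≤ M * ((n : ℝ) ^ (γ : ℝ) + 1) ∧
        (∀ ω, P.length ≤ (run w P ω (inputC A B C) t).pc) ∧
        2 / 3 ≤ tapeLaw {ω | (run w P ω (inputC A B C) t).reg 0 ≠ 0 ↔ IsYesC F A B C}

end Pool.Agent.P.MP_8f87b2_lc.CV
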