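import Mathlib

/-!
# Strings of digits in a base that depends on the dimension, coded as natural numbers

The digit `0` plays the role of a blank (a star).
-/

namespace Pool.Agent.P.MP_8f87b2_lc.CV

open Finset

/-- the dimension of the points of the third list -/
class Bs where
  d : ℕ

variable [Bs]

/-- the logarithm of the weight ratio -/
def uu : ℕ := Bs.d + 12

/-- the number of bits of a letter -/
def bt : ℕ := (4 * Bs.d + 1) * uu

/-- the number of letters -/
def LB : ℕ := 2 ^ bt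

/-- the base of the digits -/
def BB : ℕ := 2 ^ (bt + 1)

theorem LB_pos : 0 < LB := by unfold LB; positivity

theorem BB_eq : BB = 2 * LB := by rw [BB, LB, pow_succ, mul_comm]

theorem BB_pos : 0 < BB := by unfold BB; positivity

theorem BB_two : 2 ≤ BB := by have := LB_pos; have := BB_eq; omega

theorem BB_pow_pos (t : ℕ) : 0 < BB ^ t := pow_pos BB_pos t

theorem LB_pow_pos (t : ℕ) : 0 < LB ^ t := pow_pos LB_pos t

theorem BB_pow (t : ℕ) : BB ^ t = 2 ^ ((bt + 1) * t) := by rw [BB, ← pow_mul]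

theorem LB_pow (t : ℕ) : LB ^ t = 2 ^ (bt * t) := by rw [LB, ← pow_mul]

theorem uu_ge : 12 ≤ uu := by unfold uu; omega

theorem uu_le_bt : uu ≤ bt := Nat.le_mul_of_pos_left _ (by omega)

def dig (t p : ℕ) : ℕ := p / BB ^ t % BB

def clr (t p : ℕ) : ℕ := p - dig t p * BB ^ t

def enc (l : ℕ) (f : ℕ → ℕ) : ℕ := ∑ t ∈ range l, f t * BB ^ t

/-- blank out the digits at the positions in `T` -/
def msk (l : ℕ) (T : Finset ℕ) (p : ℕ) : ℕ := enc l fun t => if t ∈ T then 0 else dig t p

/-- number of blanks -/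
def cnt (l p : ℕ) : ℕ := ((range l).filter fun t => dig t p = 0).card

theorem dig_lt (t p : ℕ) : dig t p < BB := Nat.mod_lt _ BB_pos

theorem dig_add_mul {t l : ℕ} (h : t < l) (x y : ℕ) : dig t (x + y * BB ^ l) = dig t x := by
  obtain ⟨k, rfl⟩ : ∃ k, l = t + 1 + k := ⟨l - t - 1, by omega⟩
  unfold dig
  have : y * BB ^ (t + 1 + k) = (y * BB ^ k * BB) * BB ^ t := by ring
  rw [this, Nat.add_mul_div_right _ _ (BB_pow_pos _), Nat.add_mul_mod_self_right]

theorem dig_top {l x y : ℕ} (hx : x < BB ^ l) (hy : y < BB) :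
    dig l (x + y * BB ^ l) = y := by
  unfold dig
  rw [Nat.add_mul_div_right _ _ (BB_pow_pos _), Nat.div_eq_of_lt hx, Nat.zero_add,
    Nat.mod_eq_of_lt hy]

theorem enc_succ (l : ℕ) (f : ℕ → ℕ) : enc (l + 1) f = enc l f + f l * BB ^ l := by
  simp [enc, sum_range_succ]

theorem enc_lt {l : ℕ} {f : ℕ → ℕ} (hf : ∀ t < l, f t < BB) : enc l f < BB ^ l := by
  induction l with
  | zero => simp [enc]
  | succ l ih =>
    have h1 := ih fun t ht => hf t (by omega)
    have h2 := hf l (by omega)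
    rw [enc_succ, pow_succ]
    nlinarith

theorem dig_enc {l : ℕ} {f : ℕ → ℕ} (hf : ∀ t < l, f t < BB) {t : ℕ} (ht : t < l) :
    dig t (enc l f) = f t := by
  induction l with
  | zero => omega
  | succ l ih =>
    rw [enc_succ]
    rcases Nat.lt_succ_iff_lt_or_eq.mp ht with h | h
    · rw [dig_add_mul h, ih (fun t ht => hf t (by omega)) h]
    · subst h
      exact dig_top (enc_lt fun t ht => hf t (by omega)) (hf t (by omega))

theorem enc_dig_mod (l p : ℕ) : enc l (fun t => dig t p) = p % BB ^ l := by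
  induction l with
  | zero => simp [enc, Nat.mod_one]
  | succ l ih =>
    rw [enc_succ, ih, pow_succ, Nat.mod_mul, dig, mul_comm]

theorem enc_dig {l p : ℕ} (hp : p < BB ^ l) : enc l (fun t => dig t p) = p := by
  rw [enc_dig_mod, Nat.mod_eq_of_lt hp]

theorem enc_congr {l : ℕ} {f g : ℕ → ℕ} (h : ∀ t < l, f t = g t) : enc l f = enc l g :=
  sum_congr rfl fun t ht => by rw [h t (mem_range.mp ht)]

theorem dig_ext {l p p' : ℕ} (hp : p < BB ^ l) (hp' : p' < BB ^ l)
    (h : ∀ t < l, dig t p = dig t p') : p = p' := by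
  rw [← enc_dig hp, ← enc_dig hp', enc_congr h]

theorem msk_lt (l : ℕ) (T : Finset ℕ) (p : ℕ) : msk l T p < BB ^ l :=
  enc_lt fun t _ => by split_ifs; exacts [BB_pos, dig_lt _ _]

theorem dig_msk {l t : ℕ} (ht : t < l) (T : Finset ℕ) (p : ℕ) :
    dig t (msk l T p) = if t ∈ T then 0 else dig t p :=
  dig_enc (f := fun t => if t ∈ T then 0 else dig t p)
    (fun t _ => by split_ifs; exacts [BB_pos, dig_lt _ _]) ht

theorem msk_msk (l : ℕ) (T T' : Finset ℕ) (p : ℕ) :
    msk l T (msk l T' p) = msk l (T ∪ T') p :=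
  enc_congr fun t ht => by
    rw [dig_msk ht]; by_cases h1 : t ∈ T <;> by_cases h2 : t ∈ T' <;> simp [h1, h2]

theorem msk_empty {l p : ℕ} (hp : p < BB ^ l) : msk l ∅ p = p := by
  simpa [msk] using enc_dig hp

theorem dig_mul_le (t p : ℕ) : dig t p * BB ^ t ≤ p :=
  le_trans (Nat.mul_le_mul_right _ (Nat.mod_le _ _)) (Nat.div_mul_le_self _ _)

theorem clr_eq_msk {l t p : ℕ} (ht : t < l) (hp : p < BB ^ l) : clr t p = msk l {t} p := by
  have h : msk l {t} p + dig t p * BB ^ t = p := by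
    conv_rhs => rw [← enc_dig hp]
    unfold msk enc
    rw [← add_sum_erase _ _ (mem_range.mpr ht), ← add_sum_erase _ _ (mem_range.mpr ht)]
    simp only [mem_singleton, if_true, zero_mul, zero_add]
    rw [add_comm]
    congr 1
    exact sum_congr rfl fun x hx => by rw [if_neg (ne_of_mem_erase hx)]
  unfold clr; omega

theorem clr_lt {t p : ℕ} (h : dig t p ≠ 0) : clr t p < p := by
  have h1 := dig_mul_le t p
  have h2 : 0 < dig t p * BB ^ t := Nat.mul_pos (Nat.pos_of_ne_zero h) (BB_pow_pos t)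
  unfold clr; omega

theorem dig_clr {l t p : ℕ} (ht : t < l) (hp : p < BB ^ l) {u : ℕ} (hu : u < l) :
    dig u (clr t p) = if u = t then 0 else dig u p := by
  rw [clr_eq_msk ht hp, dig_msk hu]; simp

theorem and_BB (x : ℕ) : x &&& (BB - 1) = x % BB := Nat.and_two_pow_sub_one_eq_mod _ _

theorem and_LB (x : ℕ) : x &&& (LB - 1) = x % LB := Nat.and_two_pow_sub_one_eq_mod _ _

theorem dig_shift (t p : ℕ) : (p >>> ((bt + 1) * t)) &&& (BB - 1) = dig t p := by
  rw [Nat.shiftRight_eq_div_pow, and_BB, ← BB_pow]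
  rfl

theorem dig_and (t x y : ℕ) : dig t (x &&& y) = dig t x &&& dig t y := by
  unfold dig
  rw [BB_pow, Nat.and_div_two_pow, BB, Nat.and_mod_two_pow]

theorem dig_ones {l t : ℕ} (ht : t < l) : dig t (BB ^ l - 1) = BB - 1 := by
  have h0 := BB_pos
  have h : enc l (fun _ => BB - 1) = BB ^ l - 1 := by
    clear ht
    induction l with
    | zero => simp [enc]
    | succ l ih =>
      have := BB_pow_pos l
      have h1 : BB ^ l ≤ BB * BB ^ l := Nat.le_mul_of_pos_left _ h0
      rw [enc_succ, ih, pow_succ', Nat.sub_mul]; omega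
  rw [← h, dig_enc (fun _ _ => by omega) ht]

theorem and_msk {l p : ℕ} (hp : p < BB ^ l) (T : Finset ℕ) :
    p &&& msk l T (BB ^ l - 1) = msk l T p := by
  refine dig_ext (lt_of_le_of_lt Nat.and_le_left hp) (msk_lt _ _ _) fun t ht => ?_
  rw [dig_and, dig_msk ht, dig_msk ht, dig_ones ht]
  split_ifs
  · simp
  · rw [and_BB]
    exact Nat.mod_eq_of_lt (dig_lt _ _)

omit [Bs] in
theorem sum_range_mul' {R : Type*} [AddCommMonoid R] (g : ℕ → R) (m n : ℕ) :
    ∑ p ∈ range (m * n), g p = ∑ d ∈ range n, ∑ x ∈ range m, g (x + d * m) := by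
  induction n with
  | zero => simp
  | succ n ih =>
    rw [Nat.mul_succ, sum_range_add, ih, sum_range_succ]
    congr 1
    exact sum_congr rfl fun x _ => by rw [mul_comm, add_comm]

theorem sum_prod_dig {R : Type*} [CommSemiring R] (f : ℕ → ℕ → R) (l : ℕ) :
    ∑ p ∈ range (BB ^ l), ∏ t ∈ range l, f t (dig t p) =
      ∏ t ∈ range l, ∑ d ∈ range BB, f t d := by
  induction l with
  | zero => simp
  | succ l ih =>
    rw [pow_succ, sum_range_mul', prod_range_succ, ← ih, mul_sum]
    refine sum_congr rfl fun d hd => ?_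
    rw [sum_mul]
    refine sum_congr rfl fun x hx => ?_
    rw [prod_range_succ, dig_top (mem_range.mp hx) (mem_range.mp hd)]
    congr 1
    exact prod_congr rfl fun t ht => by rw [dig_add_mul (mem_range.mp ht)]

theorem cnt_le (l p : ℕ) : cnt l p ≤ l := by
  simpa [cnt] using card_filter_le (range l) fun t => dig t p = 0

theorem cnt_eq_zero {l p : ℕ} : cnt l p = 0 ↔ ∀ t < l, dig t p ≠ 0 := by
  simp [cnt, filter_eq_empty_iff]

theorem cnt_msk {l j : ℕ} (hj : cnt l j = 0) {T : Finset ℕ} (hT : T ⊆ range l) :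
    cnt l (msk l T j) = T.card := by
  rw [cnt_eq_zero] at hj
  unfold cnt
  congr 1
  ext t
  simp only [mem_filter, mem_range]
  constructor
  · rintro ⟨h1, h2⟩
    rw [dig_msk h1] at h2
    by_contra h
    exact hj t h1 (by simpa [h] using h2)
  · intro h
    have h1 := mem_range.mp (hT h)
    exact ⟨h1, by rw [dig_msk h1, if_pos h]⟩

theorem cnt_clr {l t p : ℕ} (ht : t < l) (hp : p < BB ^ l) : cnt l p ≤ cnt l (clr t p) := by
  unfold cnt
  refine card_le_card fun u hu => ?_
  simp only [mem_filter, mem_range] at hu ⊢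
  refine ⟨hu.1, ?_⟩
  rw [dig_clr ht hp hu.1]; simp [hu.2]

end Pool.Agent.P.MP_8f87b2_lc.CV
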