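import Pool.Agent.P.MP_8f87b2_lc.CV.Spec

/-!
# The zeta transforms and the tables of trimmed Moebius sums
-/

namespace Pool.Agent.P.MP_8f87b2_lc.CV

open Finset

variable [Bs]

namespace EncP

variable {E : Env} {c : Cx}

theorem l_le (hB : Bnd c E) : 100 * c.l ≤ E.Lim := by
  have h1 := hB.nm.sA
  have h2 := hB.lAb
  have h3 := c.x_A
  have h4 : c.l ≤ (bt + 1) * c.l := Nat.le_mul_of_pos_left _ (Nat.succ_pos _)
  omega

theorem sh_le (hB : Bnd c E) {u : ℕ} (hu : u ≤ c.l) : (bt + 1) * u ≤ E.Lim := by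
  have h1 := hB.nm.sA
  have h2 := hB.lAb
  have h3 := c.x_A
  have h4 : (bt + 1) * u ≤ (bt + 1) * c.l := Nat.mul_le_mul_left _ hu
  omega

theorem A_le (hB : Bnd c E) : 2 * c.A ≤ E.Lim :=
  (Nat.mul_le_mul_right _ BB_two).trans hB.lA

theorem pow_le (hB : Bnd c E) {u : ℕ} (hu : u ≤ c.l) : BB ^ u * BB ≤ E.Lim := by
  have h : BB ^ u ≤ c.A := Nat.pow_le_pow_right BB_pos hu
  exact (mul_comm _ _).trans_le ((Nat.mul_le_mul_left _ h).trans hB.lA)

theorem GE_pos (hB : Bnd c E) : 0 < c.GE := Nat.mul_pos c.G_pos hB.nm.e1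

theorem inv_clr {l t p : ℕ} (ht : t < l) (hp : p < BB ^ l) : inv l (clr t p) ≤ inv l p := by
  unfold inv
  refine card_le_card fun u hu => ?_
  simp only [mem_filter, mem_range] at hu ⊢
  refine ⟨hu.1, ?_⟩
  have h := hu.2
  rw [dig_clr ht hp hu.1] at h
  split_ifs at h with h1
  · exact absurd rfl h.1
  · exact h

theorem pPass_spec (hB : Bnd c E) {σ : St} {t : ℕ} (hP : Par c σ) {X : ℕ → ℤ} {b u : ℕ}
    (hu : u < c.l) (h41 : σ.var 41 = b) (hb : b + c.A ≤ E.Lim) (h35 : σ.var 35 = u)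
    (h44 : σ.var 44 = BB ^ u)
    (hX : ∀ p < c.A, (σ.bank 13 (b + p) : ZMod E.W) = (zeta X u p : ℤ)) :
    WP E pPass (fun σ' t' =>
      ((∀ p < c.A, (σ'.bank 13 (b + p) : ZMod E.W) = (zeta X (u + 1) p : ℤ)) ∧
        ∀ a, a < b ∨ b + c.A ≤ a → σ'.bank 13 a = σ.bank 13 a) ∧ t' ≤ t + c.A * 5 + 2) σ t := by
  have hbig := hB.big
  have hlA := A_le hB
  have hls := l_le hB
  have hA := c.A_pos
  refine wp_for c.A 3
    (fun m σ' => (∀ p < c.A, (σ'.bank 13 (b + p) : ZMod E.W) =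
      (if p < m then zeta X (u + 1) p else zeta X u p : ℤ)) ∧
      ∀ a, a < b ∨ b + c.A ≤ a → σ'.bank 13 a = σ.bank 13 a) [38] [13]
    false (by decide) (by decide) (by decide) (by decide) hP.A (by omega) (by omega)
    (by simpa using hX) ?_
    fun σ' t' _ hI ht => ⟨⟨fun p hp => by simpa [hp] using hI.1 p hp, hI.2⟩, ht⟩
  intro p σ' t' hp hF h34 hI
  have e41 : σ'.var 41 = b := (hF.var 41 (by decide)).trans h41
  have e35 := (hF.var 35 (by decide)).trans h35
  have e44 := (hF.var 44 (by decide)).trans h44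
  have e88 := (hF.var 88 (by decide)).trans hP.rt1
  have e89 := (hF.var 89 (by decide)).trans hP.rBm
  have hsh := sh_le hB hu.le
  have h1 := dig_mul_le u p
  simp only [wp_blk_cons, wp_set, wp_ite, wp_st, wp_skip, wp_blk_nil]
  simp only [Expr.safe, Expr.eval, BOp.safe, BOp.eval, St.setv_var, St.setv_bank, St.setm_bank,
    h34, e41, e35, e44, e88, e89, dig_shift, Nat.reduceEqDiff, if_true, if_false, true_and, and_true]
  refine ⟨by omega, fun h => ⟨by omega, by omega, by omega, ⟨fun q hq => ?_, fun a ha => ?_⟩,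
    by omega⟩, fun h => ⟨⟨fun q hq => ?_, hI.2⟩, by omega⟩⟩
  · rw [Function.update_apply]
    have hc := clr_lt h
    split_ifs with h2 h3 h3
    · have hz : zeta X (u + 1) (clr u p) = zeta X u (clr u p) := by
        rw [zeta, if_pos (by rw [dig_clr hu hp hu, if_pos rfl])]
      rw [show q = p by omega, cast_radd, hI.1 p hp, ← clr, hI.1 _ (by omega), if_pos hc,
        if_neg (lt_irrefl _), hz, zeta, if_neg h]
      push_cast; rfl
    · omega
    · rw [hI.1 q hq, if_pos (by omega)]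
    · rw [hI.1 q hq, if_neg (by omega)]
  · rw [Function.update_of_ne (by omega), hI.2 a ha]
  · rw [hI.1 q hq]
    by_cases h2 : q = p
    · rw [h2, if_neg (lt_irrefl _), if_pos (by omega), zeta, if_pos h]
    · simp only [show q < p + 1 ↔ q < p by omega]

theorem pZeta_spec (hB : Bnd c E) {σ : St} {t : ℕ} (hP : Par c σ) {X : ℕ → ℤ} {b : ℕ}
    (h41 : σ.var 41 = b) (hb : b + c.A ≤ E.Lim)
    (hX : ∀ p < c.A, (σ.bank 13 (b + p) : ZMod E.W) = (X p : ℤ)) :
    WP E pZeta (fun σ' t' =>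
      ((∀ p < c.A, (σ'.bank 13 (b + p) : ZMod E.W) = (zeta X c.l p : ℤ)) ∧
        ∀ a, a < b ∨ b + c.A ≤ a → σ'.bank 13 a = σ.bank 13 a) ∧
        t' ≤ t + c.l * (c.A * 5 + 5) + 3) σ t := by
  have hbig := hB.big
  have hlA := A_le hB
  have hls := l_le hB
  have hA := c.A_pos
  unfold pZeta
  simp only [wp_blk_cons, wp_set, wp_blk_nil, Expr.safe, Expr.eval]
  refine ⟨by omega, ?_⟩
  refine wp_for c.l (c.A * 5 + 3)
    (fun u σ' => σ'.var 44 = BB ^ u ∧
      (∀ p < c.A, (σ'.bank 13 (b + p) : ZMod E.W) = (zeta X u p : ℤ)) ∧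
      ∀ a, a < b ∨ b + c.A ≤ a → σ'.bank 13 a = σ.bank 13 a) [34, 38, 44] [13]
    false (by decide) (by decide) (by decide) (by decide) (by simp [hP.l]) (by omega) (by omega)
    (by simpa [zeta] using hX) ?_
    fun σ' t' _ hI ht => ⟨hI.2, by simp only [Nat.add_assoc, Nat.reduceAdd] at ht ⊢; omega⟩
  intro u σ' t' hu hF h35 ⟨h44, hI, hI2⟩
  have hF' := hF.of_setv (by decide)
  rw [wp_blk_cons]
  refine (pPass_spec hB (hP.frame hF' (by decide)) hu ((hF'.var 41 (by decide)).trans h41) hb h35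
    h44 hI).call [34, 38] [13] false (by decide) ?_
  rintro σ₂ t₂ hF₂ ⟨⟨h1, h2⟩, h3⟩
  have e44 := (hF₂.var 44 (by decide)).trans h44
  have e85 : σ₂.var 85 = BB :=
    (hF₂.var 85 (by decide)).trans ((hF'.var 85 (by decide)).trans hP.rB)
  have h4 := pow_le hB hu.le
  simp only [wp_blk_cons, wp_set, wp_blk_nil, Expr.safe, Expr.eval, BOp.safe, BOp.eval,
    St.setv_var, St.setv_bank, e44, e85, Nat.reduceEqDiff, if_true, if_false, true_and]
  exact ⟨by omega, ⟨by rw [pow_succ], h1, fun a ha => (h2 a ha).trans (hI2 a ha)⟩, by omega⟩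

theorem pUIn_spec (hB : Bnd c E) {σ : St} {t : ℕ} (hP : Par c σ) {F₁ F₂ : ℕ → ℤ}
    {b₁ b₂ b i : ℕ} (hi : i < c.L1.length) (h35 : σ.var 35 = i)
    (h4 : σ.bank 4 i = c.L1.getD i 0)
    (h41 : σ.var 41 = b₁) (h42 : σ.var 42 = b₂) (h43 : σ.var 43 = b)
    (hb₁ : b₁ + c.A ≤ E.Lim) (hb₂ : b₂ + c.A ≤ E.Lim) (hb : b + c.A ≤ E.Lim)
    (hF₁ : ∀ p < c.A, (σ.bank 13 (b₁ + p) : ZMod E.W) = (F₁ p : ℤ))
    (hF₂ : ∀ p < c.A, (σ.bank 13 (b₂ + p) : ZMod E.W) = (F₂ p : ℤ))
    (hU : ∀ p ∈ c.L1.take i,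
      (σ.bank 14 (b + p) : ZMod E.W) = (Uv (fun p => F₁ p * F₂ p) c.l p : ℤ)) :
    WP E pUIn (fun σ' t' =>
      ((∀ p ∈ c.L1.take (i + 1),
        (σ'.bank 14 (b + p) : ZMod E.W) = (Uv (fun p => F₁ p * F₂ p) c.l p : ℤ)) ∧
        ∀ a < b, σ'.bank 14 a = σ.bank 14 a) ∧ t' ≤ t + c.l * 4 + 6) σ t := by
  have hbig := hB.big
  have hlA := A_le hB
  have hls := l_le hB
  have hlen : c.L1.length ≤ c.A := flt_length_le _ _
  set p := c.L1.getD i 0 with hp
  have hmem : p < c.A ∧ inv c.l p = 0 ∧ c.t0 ≤ cnt c.l p :=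
    (mem_flt.mp (getD_mem hi)).imp id fun h => of_decide_eq_true h
  have hlow := low_le c.l p
  unfold pUIn
  simp only [wp_blk_cons, wp_set, Expr.safe, Expr.eval, BOp.safe, BOp.eval, St.setv_var,
    St.setv_bank, h35, h4, h41, h42, Nat.reduceEqDiff, if_true, if_false, true_and, and_true]
  refine ⟨by omega, by omega, by omega, by omega, ?_⟩
  refine wp_while (fun σ' t' => ∃ u ≤ low c.l p, σ'.var 45 = u ∧ σ'.var 44 = BB ^ u ∧
      (σ'.var 37 : ZMod E.W) = (F₁ p * F₂ p -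
        ∑ a ∈ range u, Uv (fun p => F₁ p * F₂ p) c.l (clr a p) : ℤ) ∧ t' = t + 4 + 4 * u)
    (fun σ' => c.l - σ'.var 45) [37, 45, 44] [] false (by decide)
    ⟨0, by simp [hF₁ p hmem.1, hF₂ p hmem.1]⟩ ?_
  rintro σ' t' hF ⟨u, hu, h45, h44, h37, ht⟩
  have e36 : σ'.var 36 = p := by rw [hF.var 36 (by decide)]; simp
  have e43 : σ'.var 43 = b := by rw [hF.var 43 (by decide)]; simp [h43]
  have e14 : σ'.var 14 = c.l := by rw [hF.var 14 (by decide)]; simp [hP.l]
  have eb : σ'.bank 14 = σ.bank 14 := by rw [hF.bank 14 (by decide)]; simp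
  have e85 : σ'.var 85 = BB := by rw [hF.var 85 (by decide)]; simp [hP.rB]
  have e88 : σ'.var 88 = bt + 1 := by rw [hF.var 88 (by decide)]; simp [hP.rt1]
  have e89 : σ'.var 89 = BB - 1 := by rw [hF.var 89 (by decide)]; simp [hP.rBm]
  have hsh := sh_le hB (hu.trans hlow)
  simp only [wp_blk_cons, wp_set, wp_st, wp_blk_nil, Expr.safe, Expr.eval, BOp.safe, BOp.eval,
    St.setv_var, St.setm_bank, e36, e43, e14, eb, e85, e88, e89, h45, h44, dig_shift,
    Nat.reduceEqDiff, if_true, if_false, true_and, and_true]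
  refine ⟨by omega, fun hc => ?_, fun hc => ?_⟩
  · have hc' : u < c.l ∧ dig u p ≠ 0 := by
      split_ifs at hc <;> simp at hc; omega
    have hlt : u < low c.l p := by
      refine lt_of_le_of_ne hu fun h => ?_
      have := Nat.find_spec (low_ex c.l p)
      change c.l ≤ low c.l p ∨ dig (low c.l p) p = 0 at this
      rw [← h] at this; omega
    have h1 := dig_mul_le u p
    have h2 := pow_le hB hc'.1.le
    have h3 := clr_lt hc'.2
    have h5 : clr u p ∈ c.L1.take i := by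
      refine mem_take_flt hi (mem_flt.mpr ⟨by omega, decide_eq_true ⟨?_, ?_⟩⟩) h3
      · have := inv_clr hc'.1 hmem.1
        omega
      · exact hmem.2.2.trans (cnt_clr hc'.1 hmem.1)
    refine ⟨by omega, by omega, by omega, ⟨u + 1, hlt, rfl, by rw [pow_succ], ?_, by omega⟩,
      by omega⟩
    rw [cast_rsub (by omega), h37, ← clr, hU _ h5, sum_range_succ]
    push_cast; ring
  · have hc' : u = low c.l p := by
      by_contra h
      have := (lt_low_iff.mp (lt_of_le_of_ne hu h)) u le_rfl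
      rw [if_pos this.1, if_pos (by omega)] at hc
      simp at hc
    refine ⟨by omega, by omega, ⟨fun q hq => ?_, fun a ha => ?_⟩, by omega⟩
    · rw [Function.update_apply]
      split_ifs with h
      · rw [show q = p by omega, h37, hc', Uv_rec (l := c.l) (p := p) _ hmem.1]
      · refine hU q ?_
        rw [List.take_add_one, List.mem_append] at hq
        refine hq.resolve_right fun h' => h ?_
        rw [List.getElem?_eq_getElem hi] at h'
        simp only [Option.toList_some, List.mem_singleton] at h'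
        rw [h', hp, List.getD_eq_getElem _ _ hi]
    · rw [Function.update_of_ne (by omega)]

end EncP

theorem sEnc : SEnc := by
  intro E c hB σ t hP B hX
  have hbig := hB.big
  have hlGA := hB.lGA
  have hlA := EncP.A_le hB
  have hA := c.A_pos
  have hGA : 2 * c.GE ≤ 2 * c.GE * c.A := Nat.le_mul_of_pos_right _ hA
  refine wp_for (2 * c.GE) (c.l * (c.A * 5 + 5) + 4)
    (fun m σ' => (∀ g < m, ∀ p < c.A, (σ'.bank 13 (g * c.A + p) : ZMod E.W) =
      (zeta (fun u => B (g * c.A + u)) c.l p : ℤ)) ∧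
      ∀ a, m * c.A ≤ a → σ'.bank 13 a = σ.bank 13 a)
    [34, 35, 38, 41, 44] [13]
    false (by decide) (by decide) (by decide) (by decide) hP.G2 (by omega) (by omega)
    (by simp) ?_ fun σ' t' _ hI ht =>
      ⟨hI.1, by unfold Cx.tEnc; simp only [Nat.add_assoc, Nat.reduceAdd] at ht ⊢; omega⟩
  intro g σ' t' hg hF h33 hI
  have hP' := hP.frame hF (by decide)
  have h1 : g * c.A + c.A ≤ 2 * c.GE * c.A := by nlinarith
  simp only [wp_blk_cons, wp_set, Expr.safe, Expr.eval, BOp.safe, BOp.eval, h33, hP'.A, true_and]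
  refine ⟨by omega, ?_⟩
  refine (EncP.pZeta_spec hB (hP'.frame (frame_setv σ' 41 (g * c.A)) (by decide)) (b := g * c.A)
    (X := fun u => B (g * c.A + u)) (by simp) (by omega) ?_).mono ?_
  · intro p hp
    rw [St.setv_bank, hI.2 _ (by omega)]
    exact hX _ (by omega)
  rintro σ₃ t₃ ⟨⟨b1, b2⟩, b3⟩
  rw [wp_blk_nil]
  refine ⟨⟨fun g' hg' p hp => ?_, fun a ha => ?_⟩, by omega⟩
  · by_cases h : g' = g
    · rw [h]; exact b1 p hp
    · have h4 := mul_add_lt (show g' < g by omega) hp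
      rw [St.setv_bank, b2 _ (Or.inl h4)]
      exact hI.1 g' (by omega) p hp
  · rw [Nat.succ_mul] at ha
    rw [St.setv_bank, b2 _ (Or.inr ha)]
    exact hI.2 a (by omega)

theorem sU : SU := by
  intro E c hB σ t π r hPre hFz
  have hP := hPre.par
  have h20 := hPre.n1
  have h4 := hPre.b4
  have hbig := hB.big
  have hlGA := hB.lGA
  have hlGGA := hB.lGGA
  have hlA := EncP.A_le hB
  have hG := EncP.GE_pos hB
  have hA := c.A_pos
  have hGA : 2 * c.GE ≤ 2 * c.GE * c.A := Nat.le_mul_of_pos_right _ hA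
  have hlen : c.L1.length ≤ c.A := flt_length_le _ _
  refine wp_for c.GE (c.GE * (c.L1.length * (c.l * 4 + 8) + 7) + 2)
    (fun g σ' => ∀ m < g * c.GE, ∀ p ∈ c.L1, (σ'.bank 14 (m * c.A + p) : ZMod E.W) =
        (Uv (c.Pz π r (m / c.GE) (m % c.GE)) c.l p : ℤ))
    [34, 35, 36, 37, 41, 42, 43, 44, 45] [14]
    false (by decide) (by decide) (by decide) (by decide) hP.GE (by omega) (by omega)
    (by simp) ?_ fun σ' t' _ hI ht => ⟨hI, ht⟩
  intro g σ₁ t₁ hg hF₁ h33 hI₁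
  have hP₁ := hP.frame hF₁ (by decide)
  refine wp_for c.GE (c.L1.length * (c.l * 4 + 8) + 5)
    (fun g' σ' => ∀ m < g * c.GE + g', ∀ p ∈ c.L1, (σ'.bank 14 (m * c.A + p) : ZMod E.W) =
        (Uv (c.Pz π r (m / c.GE) (m % c.GE)) c.l p : ℤ))
    [35, 36, 37, 41, 42, 43, 44, 45] [14]
    false (by decide) (by decide) (by decide) (by decide) hP₁.GE (by omega) (by omega)
    (by simpa using hI₁) ?_ fun σ' t' _ hI ht => ⟨by simpa [Nat.succ_mul] using hI, ht⟩
  intro g' σ₂ t₂ hg' hF₂ h34 hI₂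
  have hP₂ := hP₁.frame hF₂ (by decide)
  have e33 : σ₂.var 33 = g := (hF₂.var 33 (by decide)).trans h33
  have h1 : g * c.A + c.A ≤ 2 * c.GE * c.A := by nlinarith
  have h2 : (c.GE + g') * c.A + c.A ≤ 2 * c.GE * c.A := by nlinarith
  have h3 := mul_add_lt hg hg'
  have h5 : (g * c.GE + g') * c.A + c.A ≤ c.GE * c.GE * c.A := by nlinarith
  have h6 : c.GE * c.GE ≤ c.GE * c.GE * c.A := Nat.le_mul_of_pos_right _ hA
  simp only [wp_blk_cons, wp_set, wp_blk_nil, Expr.safe, Expr.eval, BOp.safe, BOp.eval,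
    St.setv_var, St.setv_bank, e33, h34, hP₂.A, hP₂.GE, Nat.reduceEqDiff, if_false,
    true_and]
  refine ⟨by omega, by omega, by omega, ?_⟩
  set σ₃ := ((σ₂.setv 41 (g * c.A)).setv 42 ((c.GE + g') * c.A)).setv 43
    ((g * c.GE + g') * c.A) with hσ₃
  have hF₃ : Frame [41, 42, 43] [] false σ₂ σ₃ :=
    (((Frame.refl _ _ _ σ₃).of_setv (by decide)).of_setv (by decide)).of_setv (by decide)
  have hP₃ := hP₂.frame hF₃ (by decide)
  refine wp_for c.L1.length (c.l * 4 + 6)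
    (fun i σ' => (∀ p ∈ c.L1.take i, (σ'.bank 14 ((g * c.GE + g') * c.A + p) : ZMod E.W) =
        (Uv (c.Pz π r g g') c.l p : ℤ)) ∧
        ∀ a < (g * c.GE + g') * c.A, σ'.bank 14 a = σ₂.bank 14 a)
    [36, 37, 44, 45] [14] false (by decide) (by decide) (by decide) (by decide)
    (by rw [hF₃.var 20 (by decide), hF₂.var 20 (by decide), hF₁.var 20 (by decide), h20])
    (by omega) (by omega) (by simp [hσ₃]) ?_ ?_
  · intro i σ₄ t₄ hi hF₄ h35 hI₄
    have e13 : σ₄.bank 13 = σ.bank 13 := by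
      rw [hF₄.bank 13 (by decide), hF₃.bank 13 (by decide), hF₂.bank 13 (by decide),
        hF₁.bank 13 (by decide)]
    have e4 : σ₄.bank 4 = σ.bank 4 := by
      rw [hF₄.bank 4 (by decide), hF₃.bank 4 (by decide), hF₂.bank 4 (by decide),
        hF₁.bank 4 (by decide)]
    refine (EncP.pUIn_spec hB (hP₃.frame hF₄ (by decide)) (F₁ := c.Fz π r g)
      (F₂ := c.Fz π r (c.GE + g')) (b₁ := g * c.A) (b₂ := (c.GE + g') * c.A)
      (b := (g * c.GE + g') * c.A) hi h35 (e4 ▸ h4 i hi)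
      ((hF₄.var 41 (by decide)).trans (by simp [hσ₃]))
      ((hF₄.var 42 (by decide)).trans (by simp [hσ₃]))
      ((hF₄.var 43 (by decide)).trans (by simp [hσ₃])) (by omega) (by omega) (by omega)
      (e13 ▸ hFz g (by omega)) (e13 ▸ hFz _ (by omega)) hI₄.1).mono ?_
    rintro σ₅ t₅ ⟨⟨a1, a2⟩, a3⟩
    exact ⟨⟨a1, fun a ha => (a2 a ha).trans (hI₄.2 a ha)⟩, by omega⟩
  · rintro σ₄ t₄ - ⟨a1, a2⟩ ht
    refine ⟨fun m hm p hp => ?_, by simp only [Nat.add_assoc, Nat.reduceAdd] at ht ⊢; omega⟩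
    by_cases h : m = g * c.GE + g'
    · rw [h, a1 p (by simpa using hp), add_comm (g * c.GE), Nat.add_mul_div_right _ _ (by omega),
        Nat.div_eq_of_lt hg', zero_add, Nat.add_mul_mod_self_right, Nat.mod_eq_of_lt hg']
    · rw [a2 _ (mul_add_lt (by omega) (mem_flt.mp hp).1)]
      exact hI₂ m (by omega) p hp

end Pool.Agent.P.MP_8f87b2_lc.CV
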