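import Pool.Agent.P.MP_8f87b2_lc.CV.Spec

/-!
# The lengths of the two lists of strings
-/

namespace Pool.Agent.P.MP_8f87b2_lc.CV

open Finset

variable [Bs]

namespace LenP

omit [Bs] in
theorem len_flt (A : ℕ) (P : ℕ → Bool) :
    (flt A P).length = ((range A).filter fun p => P p = true).card := by
  have h := sum_flt A P fun _ => 1
  simp only [sum_const, card_range, nsmul_eq_mul, mul_one] at h
  exact_mod_cast h

omit [Bs] in
theorem sumw1 (a b N M : ℕ) : ∑ d ∈ range (N + 1 + M),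
    (if d = 0 then a else if N + 1 ≤ d then b else 0) = a + M * b := by
  rw [sum_range_add, sum_range_succ', sum_eq_zero fun d hd => by
    have := mem_range.mp hd
    rw [if_neg (by omega), if_neg (by omega)],
    sum_congr rfl (g := fun _ => b) fun d _ => by rw [if_neg (by omega), if_pos (by omega)]]
  simp

omit [Bs] in
theorem sumw2 (b N : ℕ) : ∑ d ∈ range (N + 1 + 1),
    (if d = 0 then 1 else if d = N + 1 then b else 0) = b + 1 := by
  rw [sum_range_succ', sum_range_succ, sum_eq_zero fun d hd => by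
    have := mem_range.mp hd
    rw [if_neg (by omega), if_neg (by omega)]]
  simp

omit [Bs] in
theorem quad (d : ℕ) : 16 * (d * d) + 196 * d + 256 ≤ 256 * 2 ^ d := by
  induction d with
  | zero => simp
  | succ d ih => rw [pow_succ]; nlinarith [Nat.zero_le (d * d)]

theorem lam_ge : 16 * (4 * bt + 2) ≤ 2 ^ uu := by
  have h := quad Bs.d
  unfold bt uu
  rw [pow_add]
  nlinarith

omit [Bs] in
theorem pow_succ_le {a l k : ℕ} (ha : 0 < a) (h : 2 * l ≤ a * k) :
    (a + 1) ^ l ≤ a ^ l * 2 ^ k := by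
  have ha' : (0 : ℝ) < a := by exact_mod_cast ha
  have h' : (2 : ℝ) * l ≤ a * k := by exact_mod_cast h
  have e1 : ((a : ℝ) + 1) ≤ a * Real.exp (1 / a) := by
    have := Real.add_one_le_exp (1 / (a : ℝ))
    calc (a : ℝ) + 1 = a * (1 / a + 1) := by field_simp; ring
      _ ≤ _ := by gcongr
  have e2 : Real.exp (1 / 2) ≤ 2 := by
    have h1 : Real.exp (1 / 2) * Real.exp (1 / 2) = Real.exp 1 := by
      rw [← Real.exp_add]; norm_num
    have h2 := Real.exp_one_lt_d9
    have h3 := Real.exp_pos (1 / 2)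
    nlinarith
  have e3 : Real.exp (1 / a) ^ l ≤ 2 ^ k := by
    calc Real.exp (1 / a) ^ l = Real.exp (l * (1 / a)) := (Real.exp_nat_mul _ _).symm
      _ ≤ Real.exp (k * (1 / 2)) := by
        refine Real.exp_le_exp.2 ?_
        rw [mul_one_div, mul_one_div, div_le_div_iff₀ ha' two_pos]
        linarith
      _ = Real.exp (1 / 2) ^ k := Real.exp_nat_mul _ _
      _ ≤ 2 ^ k := by gcongr
  have : ((a : ℝ) + 1) ^ l ≤ a ^ l * 2 ^ k :=
    calc ((a : ℝ) + 1) ^ l ≤ (a * Real.exp (1 / a)) ^ l := by gcongr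
      _ = a ^ l * Real.exp (1 / a) ^ l := mul_pow _ _ _
      _ ≤ _ := by gcongr
  exact_mod_cast this

theorem key (c : Cx) : (2 ^ uu + 1) ^ c.l ≤ (2 ^ uu) ^ c.l * 2 ^ (uu * c.s) := by
  refine pow_succ_le (by positivity) ?_
  calc 2 * c.l = 16 * (4 * bt + 2) * (uu * c.s) := by rw [Cx.l, Cx.μ, ka]; ring
    _ ≤ _ := Nat.mul_le_mul_right _ lam_ge

theorem L1_bd (c : Cx) {a : ℕ} (ha : a ≤ LB) :
    c.L1.length * (LB ^ c.t0 * a ^ c.l) ≤ (LB + LB * a) ^ c.l * a ^ c.t0 := by
  have h := sum_prod_dig (R := ℕ)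
    (fun _ d => if d = 0 then LB else if LB ≤ d then a else 0) c.l
  have h2 : ∑ d ∈ range BB, (if d = 0 then LB else if LB ≤ d then a else 0) = LB + LB * a := by
    have := sumw1 LB a (LB - 1) LB
    rwa [Nat.sub_add_cancel LB_pos, ← two_mul, ← BB_eq] at this
  rw [h2, prod_const, card_range] at h
  rw [← h, Cx.L1, len_flt, card_filter, sum_mul, sum_mul]
  refine sum_le_sum fun p _ => ?_
  split_ifs with hp
  · obtain ⟨h1, h3⟩ := of_decide_eq_true hp
    simp only [inv, card_eq_zero, filter_eq_empty_iff] at h1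
    rw [one_mul, prod_congr rfl (g := fun t => if dig t p = 0 then LB else a) fun t ht => by
      have := h1 ht
      split_ifs <;> omega, prod_ite, prod_const, prod_const]
    have h4 := card_filter_add_card_filter_not (s := range c.l) fun t => dig t p = 0
    rw [card_range] at h4
    unfold cnt at h3
    obtain ⟨j, hj⟩ := Nat.exists_eq_add_of_le h3
    rw [hj] at h4 ⊢
    generalize ((range c.l).filter fun t => ¬ dig t p = 0).card = j' at h4 ⊢
    rw [← h4]
    calc LB ^ c.t0 * a ^ (c.t0 + j + j') = LB ^ c.t0 * a ^ j * a ^ j' * a ^ c.t0 := by ring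
      _ ≤ LB ^ c.t0 * LB ^ j * a ^ j' * a ^ c.t0 := by gcongr
      _ = _ := by ring
  · simp

theorem L2_bd (c : Cx) {a : ℕ} (ha : 0 < a) :
    c.L2.length * a ^ c.l ≤ (a + 1) ^ c.l * a ^ c.t0 := by
  have h := sum_prod_dig (R := ℕ)
    (fun _ d => if d = 0 then 1 else if d = BB - 1 then a else 0) c.l
  have h2 : ∑ d ∈ range BB, (if d = 0 then 1 else if d = BB - 1 then a else 0) = a + 1 := by
    have := sumw2 a (BB - 2)
    have hB := BB_two
    rwa [show BB - 2 + 1 + 1 = BB by omega, show BB - 2 + 1 = BB - 1 by omega] at this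
  rw [h2, prod_const, card_range] at h
  rw [← h, Cx.L2, len_flt, card_filter, sum_mul, sum_mul]
  refine sum_le_sum fun p _ => ?_
  split_ifs with hp
  · obtain ⟨h1, h3⟩ := of_decide_eq_true hp
    simp only [odd, card_eq_zero, filter_eq_empty_iff] at h1
    rw [one_mul, prod_congr rfl (g := fun t => if dig t p = 0 then 1 else a) fun t ht => by
      have := h1 ht
      split_ifs <;> omega, prod_ite, prod_const_one, prod_const, one_mul, ← pow_add]
    refine Nat.pow_le_pow_right ha ?_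
    have h4 := card_filter_add_card_filter_not (s := range c.l) fun t => dig t p = 0
    rw [card_range] at h4
    unfold cnt at h3
    omega
  · simp

end LenP

open LenP in
theorem sLen : SLen := by
  intro c
  have ha : 0 < 2 ^ uu := by positivity
  have hp : 0 < (2 ^ uu) ^ c.l := pow_pos ha _
  have hk := key c
  have ht : (2 ^ uu) ^ c.t0 * 2 ^ (uu * c.s) = 2 ^ (3 * uu * c.s) := by
    rw [← pow_mul, ← pow_add, Cx.t0]; congr 1; ring
  constructor
  · have h := L1_bd c (a := 2 ^ uu) (Nat.pow_le_pow_right two_pos uu_le_bt)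
    refine Nat.le_of_mul_le_mul_right ?_ hp
    calc c.L1.length * 2 ^ (2 * bt * c.s) * (2 ^ uu) ^ c.l
        = c.L1.length * (LB ^ c.t0 * (2 ^ uu) ^ c.l) := by
          rw [LB_pow, Cx.t0, mul_assoc]; congr 3; ring
      _ ≤ (LB + LB * 2 ^ uu) ^ c.l * (2 ^ uu) ^ c.t0 := h
      _ = LB ^ c.l * (2 ^ uu + 1) ^ c.l * (2 ^ uu) ^ c.t0 := by
          rw [← mul_pow]; congr 2; ring
      _ ≤ LB ^ c.l * ((2 ^ uu) ^ c.l * 2 ^ (uu * c.s)) * (2 ^ uu) ^ c.t0 := by gcongr
      _ = _ := by rw [pow_add, ← ht, ← LB_pow]; ring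
  · refine Nat.le_of_mul_le_mul_right ?_ hp
    calc c.L2.length * (2 ^ uu) ^ c.l ≤ (2 ^ uu + 1) ^ c.l * (2 ^ uu) ^ c.t0 := L2_bd c ha
      _ ≤ (2 ^ uu) ^ c.l * 2 ^ (uu * c.s) * (2 ^ uu) ^ c.t0 := by gcongr
      _ = _ := by rw [← ht]; ring

end Pool.Agent.P.MP_8f87b2_lc.CV
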