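import Pool.Agent.P.MP_8f87b2_lc.CV.Spec

/-!
# Loading a point and coding the residues of the points
-/

namespace Pool.Agent.P.MP_8f87b2_lc.CV

open Finset

variable [Bs]

omit [Bs] in
theorem LoadP.upd {W u v : ℕ} {f : ℕ → ℕ} {w : ℕ → ℤ}
    (hI : ∀ q < u, (f q : ZMod W) = (w q : ℤ)) (hv : (v : ZMod W) = (w u : ℤ)) :
    ∀ q < u + 1, ((Function.update f u v q : ℕ) : ZMod W) = (w q : ℤ) := by
  intro q hq
  rw [Function.update_apply]
  split_ifs with h
  · rw [h, hv]
  · exact hI q (by omega)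

theorem sLoadR : SLoadR := by
  intro E c hB σ t hP r hr
  have hbig := hB.big
  have hAb := hB.lAb
  have hsA := hB.nm.sA
  have hs := hB.nm.s1
  have hdA := hB.nm.dA
  have hxl := c.x_l
  have hxG := c.x_G
  unfold Cx.tLoad
  refine wp_for Bs.d 1 (fun m σ' => ∀ u < m, (σ'.bank 6 u : ZMod E.W) = (c.wr r u : ℤ))
    [] [6] false
    (by decide) (by decide) (by decide) (by decide) hP.d (by omega) (by omega) (by simp) ?_
    fun σ' t' _ hI ht => ⟨hI, by omega⟩
  intro u σ' t' hu hF hi hI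
  have hP' := hP.frame hF (by decide)
  have h91 : σ'.var 91 = r := (hF.var 91 (by decide)).trans hr
  have e1 : r >>> (c.μ * u) &&& (c.D - 1) = r / c.D ^ u % c.D := by
    rw [c.and_D, Nat.shiftRight_eq_div_pow, pow_mul]; rfl
  have h1 : c.μ * u ≤ c.μ * Bs.d := Nat.mul_le_mul_left _ hu.le
  have key := LoadP.upd (v := r / c.D ^ u % c.D) hI (by rw [Cx.wr, Int.cast_natCast])
  simp only [wp_st]
  simp only [Expr.safe, Expr.eval, BOp.safe, BOp.eval, St.setv_bank,
    St.setm_bank, hi, h91, hP'.μ, hP'.Dm, e1, if_true, true_and, and_true]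
  exact ⟨by omega, by omega, key, by omega⟩

theorem sLoadQ : SLoadQ := by
  intro E c hB σ t hP o q i ho hon hi0 hin h7
  have hbig := hB.big
  have hAb := hB.lAb
  have hln := hB.ln
  have hdA := hB.nm.dA
  unfold Cx.tLoad
  refine wp_for Bs.d 1 (fun m σ' => ∀ u < m, (σ'.bank 6 u : ZMod E.W) = (c.wq q i u : ℤ))
    [] [6] false
    (by decide) (by decide) (by decide) (by decide) hP.d (by omega) (by omega) (by simp) ?_
    fun σ' t' _ hI ht => ⟨hI, by omega⟩
  intro u σ' t' hu hF hi hI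
  have hP' := hP.frame hF (by decide)
  have h40 : σ'.var 40 = o := (hF.var 40 (by decide)).trans ho
  have h33 : σ'.var 33 = i := (hF.var 33 (by decide)).trans hi0
  have hb7 : σ'.bank 7 = σ.bank 7 := hF.bank 7 (by decide)
  have hix := c.ix_lt hin hu
  have key := LoadP.upd (v := σ.bank 7 (o + (c.n + c.n + (i * Bs.d + u)))) hI
    (by rw [h7 _ hix, Cx.wq, Int.cast_natCast, Cx.wc])
  simp only [wp_st]
  simp only [Expr.safe, Expr.eval, BOp.safe, BOp.eval, St.setv_bank,
    St.setm_bank, hi, h40, h33, hb7, hP'.n, hP'.d, if_true, true_and]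
  exact ⟨by omega, by omega, key, by omega⟩

theorem sLoadC : SLoadC := by
  intro E c hB σ t hP i hi0 hin
  have hbig := hB.big
  have hAb := hB.lAb
  have hln := hB.ln
  have hn1 := hB.n1
  have hdA := hB.nm.dA
  unfold Cx.tLoad
  refine wp_for Bs.d 1 (fun m σ' => ∀ u < m, (σ'.bank 6 u : ZMod E.W) = (c.wc i u : ℤ))
    [] [6] false
    (by decide) (by decide) (by decide) (by decide) hP.d (by omega) (by omega) (by simp) ?_
    fun σ' t' _ hI ht => ⟨hI, by omega⟩
  intro u σ' t' hu hF hi hI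
  have hP' := hP.frame hF (by decide)
  have h33 : σ'.var 33 = i := (hF.var 33 (by decide)).trans hi0
  have hix := c.ix_lt hin hu
  have key := LoadP.upd (v := E.inp (c.n + c.n + (i * Bs.d + u) + 1)) hI
    (by rw [hB.inp _ (by omega) (by omega), cast_inp (by omega), Cx.wc])
  simp only [wp_st]
  simp only [Expr.safe, Expr.eval, BOp.safe, BOp.eval, St.setv_bank,
    St.setm_bank, hi, h33, hP'.n, hP'.d, if_true, true_and]
  exact ⟨by omega, by omega, key, by omega⟩

theorem sCode : SCode := by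
  intro E c hB σ t hP π hπ h7
  have hbig := hB.big
  have hAb := hB.lAb
  have hln := hB.ln
  have hDD := hB.lDD
  have hdA := hB.nm.dA
  have hnn := c.nn_eq
  unfold Cx.tCode
  refine wp_for c.n (Bs.d * 4 + 5) (fun m σ' => ∀ i < m, σ'.bank 8 i = c.rc π i)
    [34, 35, 36] [8] false
    (by decide) (by decide) (by decide) (by decide) hP.n (by omega) (by omega) (by simp) ?_
    fun σ' t' _ hI ht => ⟨hI, by omega⟩
  intro i σ' t' hin hF hi hI
  have hP' := hP.frame hF (by decide)
  have hb7 : σ'.bank 7 = σ.bank 7 := hF.bank 7 (by decide)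
  have hlt : ∀ a, res π.p (c.wc i a) < c.D := fun a => (res_lt hπ.p3.pos _).trans hπ.l3
  simp only [wp_blk_cons, wp_set, Expr.safe, Expr.eval]
  refine ⟨by omega, by omega, ?_⟩
  refine wp_for Bs.d 2
    (fun u σ₂ => σ₂.var 34 = KS.enc c.D u (fun a => res π.p (c.wc i a)) ∧ σ₂.var 35 = c.D ^ u)
    [34, 35] [] false (by decide) (by decide) (by decide) (by decide)
    (by simpa using hP'.d) (by omega) (by omega) (by simp [KS.enc]) ?_ ?_
  · intro u σ₂ t₂ hu hF₂ hu₂ ⟨h34, h35⟩
    have hix := c.ix_lt hin hu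
    have h33 : σ₂.var 33 = i := (hF₂.var 33 (by decide)).trans (by simpa using hi)
    have h1 : σ₂.var 1 = c.n := (hF₂.var 1 (by decide)).trans (by simpa using hP'.n)
    have h24 : σ₂.var 24 = Bs.d := (hF₂.var 24 (by decide)).trans (by simpa using hP'.d)
    have h93 : σ₂.var 93 = c.D := (hF₂.var 93 (by decide)).trans (by simpa using hP'.D)
    have hb : σ₂.bank 7 (c.n + c.n + (i * Bs.d + u)) = res π.p (c.wc i u) := by
      rw [hF₂.bank 7 (by decide), St.setv_bank, St.setv_bank, hb7, h7 _ hix, Cx.wc]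
    have e1 := KS.enc_succ c.D u fun a => res π.p (c.wc i a)
    have e2 : KS.enc c.D (u + 1) (fun a => res π.p (c.wc i a)) < c.D ^ (u + 1) :=
      KS.enc_lt fun a _ => hlt a
    have e3 : c.D ^ (u + 1) ≤ c.DD := Nat.pow_le_pow_right c.D_pos hu
    have e4 := pow_succ c.D u
    simp only [wp_blk_cons, wp_set, wp_blk_nil]
    simp only [Expr.safe, Expr.eval, BOp.safe, BOp.eval, St.setv_var, hu₂, h33, h1, h24, h93,
      h34, h35, hb, Nat.reduceEqDiff, if_true, if_false, true_and]
    omega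
  · intro σ₂ t₂ hF₂ ⟨h34, _⟩ ht₂
    have h33 : σ₂.var 33 = i := (hF₂.var 33 (by decide)).trans (by simpa using hi)
    have hb8 : σ₂.bank 8 = σ'.bank 8 := hF₂.bank 8 (by decide)
    simp only [wp_st, wp_blk_nil]
    simp only [Expr.safe, Expr.eval, St.setv_bank, St.setm_bank, h33, h34, hb8, if_true, true_and]
    refine ⟨by omega, fun j hj => ?_, by omega⟩
    rw [Function.update_apply]
    split_ifs with h
    · rw [h, Cx.rc]
    · exact hI j (by omega)

end Pool.Agent.P.MP_8f87b2_lc.CV
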