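import Pool.Agent.P.MP_8f87b2_lc.CV.Spec

/-!
# Reduction modulo a small number, and the residues of the entries
-/

namespace Pool.Agent.P.MP_8f87b2_lc.CV

open Finset

variable [Bs]

namespace ModQ

omit [Bs] in
theorem mstep {y q : ℕ} (hq : 0 < q) :
    (y / 2 % q + y / 2 % q + y % 2 < q → y / 2 % q + y / 2 % q + y % 2 = y % q) ∧
      (q ≤ y / 2 % q + y / 2 % q + y % 2 → y / 2 % q + y / 2 % q + y % 2 - q = y % q) := by
  have h1 := Nat.mod_lt (y / 2) hq
  have h2 : y = q * (2 * (y / 2 / q)) + (y / 2 % q + y / 2 % q + y % 2) := by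
    have h3 := Nat.div_add_mod (y / 2) q
    have h4 := Nat.div_add_mod y 2
    rw [mul_left_comm]
    omega
  have h3 : y % q = (y / 2 % q + y / 2 % q + y % 2) % q := by
    conv_lhs => rw [h2]
    exact Nat.mul_add_mod _ _ _
  have h4 := Nat.mod_lt y two_pos
  generalize y / 2 % q = a at h1 h3 ⊢
  generalize y % 2 = b at h3 h4 ⊢
  refine ⟨fun h => by rw [h3, Nat.mod_eq_of_lt h], fun h => ?_⟩
  rw [h3, Nat.mod_eq_sub_mod h, Nat.mod_eq_of_lt (by omega)]

theorem two_P {E : Env} {c : Cx} (hB : Bnd c E) : 2 * c.P ≤ E.Lim :=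
  (Nat.le_mul_of_pos_right _ (Nat.mul_pos c.P_pos c.P_pos)).trans hB.lP

omit [Bs] in
theorem word {W V q T : ℕ} {y : ℤ} (hy : |y| ≤ V) (hq : 0 < q) (hT : (q + 1) * V < T)
    (hW : T < W) : ((y % W).toNat + q * V) % W < T ∧
      ((y % W).toNat + q * V) % W % q = res q y := by
  have h1 := abs_le.1 hy
  have h2 : V ≤ q * V := Nat.le_mul_of_pos_left V hq
  have h3 : (q + 1) * V = q * V + V := by ring
  have h4 : ((((y % W).toNat + q * V) % W : ℕ) : ℤ) = y + (q * V : ℕ) := by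
    rw [Int.natCast_mod, Nat.cast_add,
      Int.toNat_of_nonneg (Int.emod_nonneg _ (by omega)), Int.emod_add_emod]
    exact Int.emod_eq_of_lt (by omega) (by omega)
  refine ⟨by omega, ?_⟩
  have h5 : ((((y % W).toNat + q * V) % W % q : ℕ) : ℤ) = res q y := by
    rw [Int.natCast_mod, h4, res_cast hq, Nat.cast_mul, Int.add_mul_emod_self_left]
  exact_mod_cast h5

theorem res1 (h : SMod) {E : Env} {c : Cx} (hB : Bnd c E) {σ : St} {t : ℕ} (hP : Par c σ)
    {o q : ℕ} (h40 : σ.var 40 = o) (h61 : σ.var 61 = q) (hq : 0 < q) (hqP : q ≤ c.P)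
    (ho : o ≤ c.nn + c.nn) :
    WP E pRes1 (fun σ' t' => ((∀ d < c.nn, σ'.bank 7 (o + d) = res q (c.y (d + 1))) ∧
      ∀ a < o, σ'.bank 7 a = σ.bank 7 a) ∧ t' ≤ t + c.nn * (c.tMod + 4) + 2) σ t := by
  have hbig := hB.big
  have hln := hB.ln
  have hlT := hB.lT
  have hn1 := hB.n1
  have hV : (q + 1) * c.V < 2 ^ c.Ab :=
    (Nat.mul_le_mul_right _ (Nat.succ_le_succ hqP)).trans_lt hB.nm.lV
  have e3 : (q + 1) * c.V = q * c.V + c.V := by ring
  refine wp_for c.nn (c.tMod + 2)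
    (fun m σ' => (∀ d < m, σ'.bank 7 (o + d) = res q (c.y (d + 1))) ∧
      ∀ a < o, σ'.bank 7 a = σ.bank 7 a) [60, 62, 63] [7] false (by decide) (by decide)
    (by decide) (by decide) hP.nn (by omega) (by omega) (by simp) ?_
    fun σ' t' _ hI ht => ⟨hI, ht⟩
  intro m σ' t' hm hF hi ⟨hI, hI'⟩
  have hP' := hP.frame hF (by decide)
  have a40 : σ'.var 40 = o := (hF.var 40 (by decide)).trans h40
  have a61 : σ'.var 61 = q := (hF.var 61 (by decide)).trans h61
  obtain ⟨w1, w2⟩ := word (W := E.W) (hB.nm.yV (m + 1)) hq hV (by omega)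
  rw [wp_blk_cons, wp_set]
  refine ⟨by simp [hi, a61, hP'.V]; omega, ?_⟩
  have e4 : (radd (.inp (einc 33)) (emul (.v 61) (.v 8))).eval E σ' =
      ((c.y (m + 1) % E.W).toNat + q * c.V) % E.W := by
    simp only [Expr.eval, BOp.eval, hi, a61, hP'.V]
    rw [hB.inp (m + 1) (by omega) (by omega)]
  rw [e4, wp_blk_cons]
  refine (h hB (hP'.frame (frame_setv σ' 60 _) (by decide)) (q := q) (by simp)
    (by simp [a61]) w1 hq hqP).call [62, 63] [] false (by decide) ?_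
  rintro σ₂ t₂ hF₂ ⟨h1, h2⟩
  have b40 : σ₂.var 40 = o := by rw [hF₂.var 40 (by decide)]; simp [a40]
  have b33 : σ₂.var 33 = m := by rw [hF₂.var 33 (by decide)]; simp [hi]
  have hb : σ₂.bank 7 = σ'.bank 7 := hF₂.bank 7 (by decide)
  rw [w2] at h1
  simp only [wp_blk_cons, wp_st, wp_blk_nil]
  simp [b40, b33, hb, h1]
  refine ⟨by omega, by omega, ⟨fun d hd => ?_, fun a ha => ?_⟩, by omega⟩
  · rw [Function.update_apply]
    split_ifs with hh
    · rw [show d = m by omega]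
    · exact hI d (by omega)
  · rw [Function.update_of_ne (by omega)]
    exact hI' a ha

end ModQ

open ModQ

theorem sMod : SMod := by
  intro E c hB σ t hP x q h60 h61 hx hq hqP
  have hbig := hB.big
  have hA := hB.lAb
  have hP2 := two_P hB
  unfold pMod
  simp only [wp_blk_cons, wp_set, wp_blk_nil, Expr.safe, Expr.eval]
  refine ⟨by omega, ?_⟩
  refine wp_for c.Ab 3 (fun u σ' => σ'.var 62 = x >>> (c.Ab - u) % q) [62] [] false (by decide)
    (by decide) (by decide) (by decide) (by simp [hP.Ab]) (by omega) (by omega)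
    (by simp [Nat.shiftRight_eq_div_pow, Nat.div_eq_of_lt hx]) ?_ ?_
  · intro u σ' t' hu hF hi hI
    have a60 : σ'.var 60 = x := by rw [hF.var 60 (by decide)]; simp [h60]
    have a61 : σ'.var 61 = q := by rw [hF.var 61 (by decide)]; simp [h61]
    have a9 : σ'.var 9 = c.Ab := by rw [hF.var 9 (by decide)]; simp [hP.Ab]
    have e1 : x >>> (c.Ab - u) = x >>> (c.Ab - (u + 1)) / 2 := by
      rw [show c.Ab - u = c.Ab - (u + 1) + 1 by omega, Nat.shiftRight_succ]
    rw [e1] at hI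
    generalize hy : x >>> (c.Ab - (u + 1)) = y at hI
    obtain ⟨s1, s2⟩ := mstep (y := y) hq
    have s3 := Nat.mod_lt (y / 2) hq
    simp only [wp_blk_cons, wp_set, wp_ite, wp_skip, wp_blk_nil]
    simp [a60, a61, a9, hi, hI, hy]
    omega
  · intro σ' t' _ hI ht
    refine ⟨by simpa using hI, ?_⟩
    unfold Cx.tMod
    omega

theorem sRes (h : SMod) : SRes := by
  intro E c hB σ t hP π hπ h80 h81 h82
  have hbig := hB.big
  have hln := hB.ln
  unfold pRes
  simp only [wp_blk_cons, wp_set, Expr.safe, Expr.eval]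
  refine ⟨by omega, trivial, ?_⟩
  have f1 : ∀ (σ : St) (a b : ℕ), Frame [40, 61] [] false σ ((σ.setv 40 a).setv 61 b) :=
    fun σ a b => ((Frame.refl _ _ _ _).of_setv (by decide)).of_setv (by decide)
  refine (res1 h hB (hP.frame (f1 σ _ _) (by decide)) (o := 0) (q := π.p) (by simp)
    (by simp [h82]) hπ.p3.pos (hπ.l3.le.trans hB.nm.DP) (by omega)).call [33, 60, 62, 63] [7] false
    (by decide) ?_
  rintro σ₁ t₁ hF₁ ⟨⟨a1, -⟩, a3⟩
  have hP₁ : Par c σ₁ := (hP.frame (f1 σ _ _) (by decide)).frame hF₁ (by decide)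
  have a80 : σ₁.var 80 = π.q1 := by rw [hF₁.var 80 (by decide)]; simp [h80]
  have a81 : σ₁.var 81 = π.q2 := by rw [hF₁.var 81 (by decide)]; simp [h81]
  refine ⟨trivial, trivial, ?_⟩
  refine (res1 h hB (hP₁.frame (f1 σ₁ _ _) (by decide)) (o := c.nn) (q := π.q1)
    (by simp [hP₁.nn]) (by simp [a80]) hπ.p1.pos hπ.l1.le (by omega)).call [33, 60, 62, 63] [7]
    false (by decide) ?_
  rintro σ₂ t₂ hF₂ ⟨⟨b1, b2⟩, b3⟩
  have hP₂ : Par c σ₂ := (hP₁.frame (f1 σ₁ _ _) (by decide)).frame hF₂ (by decide)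
  have b81 : σ₂.var 81 = π.q2 := by rw [hF₂.var 81 (by decide)]; simp [a81]
  refine ⟨⟨trivial, trivial, by simp [hP₂.nn]; omega⟩, trivial, ?_⟩
  refine (res1 h hB (hP₂.frame (f1 σ₂ _ _) (by decide)) (o := c.nn + c.nn) (q := π.q2)
    (by simp [hP₂.nn]) (by simp [b81]) hπ.p2.pos hπ.l2.le (by omega)).mono ?_
  rintro σ₃ t₃ ⟨⟨c1, c2⟩, c3⟩
  rw [wp_blk_nil]
  refine ⟨fun d hd => ⟨?_, ?_, c1 d hd⟩, ?_⟩
  · rw [c2 d (by omega), St.setv_bank, St.setv_bank, b2 d hd, St.setv_bank, St.setv_bank,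
      ← a1 d hd, zero_add]
  · rw [c2 _ (by omega), St.setv_bank, St.setv_bank, b1 d hd]
  · unfold Cx.tRes
    omega

end Pool.Agent.P.MP_8f87b2_lc.CV
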