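import Pool.Agent.P.MP_8f87b2_lc.CV.Spec

/-!
# The size facts
-/

namespace Pool.Agent.P.MP_8f87b2_lc.CV

open Finset

namespace NumP

theorem pw {a b : ℕ} (h : a ≤ b) : 2 ^ a ≤ 2 ^ b := Nat.pow_le_pow_right (by norm_num) h

theorem exists_s0 (a : ℕ) : ∃ s0, 1 ≤ s0 ∧ ∀ s, s0 ≤ s → 8820 * (a * s) ^ 5 ≤ 2 ^ s := by
  have h := (tendsto_pow_const_div_const_pow_of_one_lt 5 (r := 2) (by norm_num)).const_mul
    (8820 * (a : ℝ) ^ 5)
  rw [mul_zero] at h
  obtain ⟨s0, hs0⟩ := Filter.eventually_atTop.1 (h.eventually (ge_mem_nhds one_pos))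
  refine ⟨s0 + 1, by omega, fun s hs => ?_⟩
  have h1 := hs0 s (by omega)
  rw [← mul_div_assoc, div_le_one (by positivity)] at h1
  rw [mul_pow, ← mul_assoc]
  exact_mod_cast h1

theorem cnt_ge {k : ℕ} (hk : 3 ≤ k) : 2 ^ k ≤ k * Nat.count Nat.Prime (2 ^ k) + k + 1 := by
  obtain ⟨n, hn⟩ : ∃ n, 2 ^ k = n + 1 := ⟨2 ^ k - 1, (Nat.sub_add_cancel Nat.one_le_two_pow).symm⟩
  have h8 : 8 ≤ n + 1 := hn ▸ pw hk
  have hn1 : (1 : ℝ) < n := by exact_mod_cast (by omega : 1 < n)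
  have hl : Real.log (n + 1) = k * Real.log 2 := by
    rw [← Real.log_pow]
    congr 1
    exact_mod_cast hn.symm
  have h1 := Chebyshev.pi_ge n
  rw [div_le_iff₀ (Real.log_pos hn1), hl] at h1
  have h2 : Real.log n ≤ k * Real.log 2 := hl ▸ Real.log_le_log (by linarith) (by linarith)
  have h3 := h1.trans (mul_le_mul_of_nonneg_left h2 (Nat.cast_nonneg _))
  have h4 : ((n : ℝ) - k) * Real.log 2 ≤ (k * Nat.primeCounting n) * Real.log 2 := by linarith
  have h5 := le_of_mul_le_mul_right h4 (Real.log_pos (by norm_num))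
  have h6 : n ≤ k * Nat.primeCounting n + k := by
    have : (n : ℝ) ≤ k * Nat.primeCounting n + k := by linarith
    exact_mod_cast this
  rw [hn]
  exact Nat.succ_le_succ h6

theorem nth_lt {j s r : ℕ} (hj : 3 ≤ j) (h : 2 * (j + s) ≤ 2 ^ s) (hr : r < 2 ^ j) :
    Nat.nth Nat.Prime r < 2 ^ (j + s) := by
  refine Nat.nth_lt_of_lt_count (lt_of_not_ge fun hc => ?_)
  have h1 := cnt_ge (k := j + s) (by omega)
  have h2 : Nat.count Nat.Prime (2 ^ (j + s)) + 1 ≤ 2 ^ j := by omega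
  have h3 := Nat.mul_le_mul_left (j + s) h2
  have h4 := Nat.mul_le_mul_right (2 ^ j) h
  have h5 : 8 ≤ 2 ^ j := pw hj
  rw [pow_add] at h1
  rw [← pow_add 2 j s] at h1
  have h6 : 2 ^ (j + s) = 2 ^ s * 2 ^ j := by rw [pow_add, mul_comm]
  have h7 : 3 * 8 ≤ (j + s) * 2 ^ j := Nat.mul_le_mul (by omega) h5
  nlinarith

theorem mon_le {w : ℕ → ℤ} {V : ℤ} (hw : ∀ t, |w t| ≤ V) (es : List ℕ) (t : ℕ) :
    |mon w es t| ≤ V ^ es.sum := by
  induction es generalizing t with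
  | nil => simp [mon]
  | cons e es ih =>
    rw [mon, abs_mul, abs_pow, List.sum_cons, pow_add]
    exact mul_le_mul (pow_le_pow_left₀ (abs_nonneg _) (hw t) e) (ih _) (abs_nonneg _)
      (pow_nonneg ((abs_nonneg _).trans (hw t)) e)

theorem Hv_le {w : ℕ → ℤ} {V x y : ℤ} {e : ℕ} (hV : 1 ≤ V) (hw : ∀ t, |w t| ≤ V) (hx : |x| ≤ V)
    (hy : |y| ≤ V) (T : List Trm) (hT : ∀ τ ∈ T, τ.i + τ.j + τ.es.sum < e) :
    Hv w T x y ≤ ((T.map fun τ => τ.h.natAbs).sum : ℕ) * V ^ e := by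
  unfold Hv
  induction T with
  | nil => simp [tsum_nil]
  | cons τ T ih =>
    rw [tsum_cons, List.map_cons, List.sum_cons, Nat.cast_add, add_mul]
    refine add_le_add ((le_abs_self _).trans ?_) (ih fun τ h => hT τ (List.mem_cons_of_mem _ h))
    have h0 : 0 ≤ V := by omega
    have p := fun {z : ℤ} (h : |z| ≤ V) (n : ℕ) => pow_le_pow_left₀ (abs_nonneg _) h n
    rw [Trm.co, mul_assoc, abs_mul, Int.natCast_natAbs]
    refine mul_le_mul_of_nonneg_left ?_ (abs_nonneg _)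
    rw [abs_mul, abs_mul, abs_pow, abs_pow]
    calc _ ≤ V ^ τ.es.sum * (V ^ τ.i * V ^ τ.j) := by
          gcongr
          exact mon_le hw _ _
      _ = V ^ (τ.i + τ.j + τ.es.sum) := by ring
      _ ≤ V ^ e := pow_le_pow_right₀ hV (hT τ List.mem_cons_self).le

end NumP

open NumP

variable [Bs]

theorem sK : SK := by
  intro e cc T he hT hpos
  obtain ⟨s0, h1, h2⟩ := exists_s0 ((T.map fun τ => τ.h.natAbs).sum +
    kb * ((cc + 1) * (e + 1) + 4) + e * e + 4 * e + 100)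
  exact ⟨⟨e, cc + 1, s0, _, T⟩, rfl, he, hT, rfl, hpos, h1, h2, le_rfl⟩

theorem sNm : SNm := by
  intro c cc hK hS hy
  have s1 : 1 ≤ c.s := hK.hs0.trans hS.s1
  have ha := hK.ha
  have hv := hK.hv
  have he := hK.he
  have big : 8820 * c.Ab ^ 5 ≤ 2 ^ c.s := hK.hs _ hS.s1
  have aA : c.a ≤ c.Ab := Nat.le_mul_of_pos_right _ s1
  generalize hSm : (c.T.map fun τ => τ.h.natAbs).sum = S at ha
  have kA : S * c.s + c.v * c.lb * c.e + c.v * c.lb + 4 * c.lb + 100 * c.s ≤ c.Ab := by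
    have h1 : (S + kb * (c.v * (c.e + 1) + 4) + 100) * c.s ≤ c.Ab :=
      Nat.mul_le_mul_right _ (by omega)
    refine le_of_eq_of_le ?_ h1
    rw [Cx.lb]; ring
  have A2 : c.Ab ≤ 2 ^ c.s := by
    have : c.Ab ≤ c.Ab ^ 5 := Nat.le_self_pow (by norm_num) _
    omega
  have yV : ∀ d, |c.y d| ≤ c.V := fun d => by
    have h1 : c.n ^ cc ≤ c.V := by
      calc c.n ^ cc ≤ c.b ^ cc := Nat.pow_le_pow_left hS.nN.le _
        _ ≤ c.b ^ c.v := Nat.pow_le_pow_right c.b_pos (by omega)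
        _ = c.V := by rw [Cx.b, Cx.V, ← pow_mul, mul_comm]
    exact (hy d).trans (by exact_mod_cast h1)
  have lv : c.lb ≤ c.v * c.lb := Nat.le_mul_of_pos_left _ (by omega)
  have xP := c.x_P
  have xG := c.x_G
  have xl := c.x_l
  have xμ := c.x_μ
  have xs := c.x_s
  have xsG := c.x_sG
  have eρ := c.ρ_eq
  have eμ := c.μ_eq
  refine ⟨s1, he, hS.nN, fun τ hτ => ?_, yV, pw (by omega), pw (by omega), ?_,
    fun w hw x y hx hy => ⟨?_, ?_⟩, by omega, by omega, by omega, fun r hr => ?_, fun r hr => ?_,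
    big⟩
  · have h1 := hK.hT τ hτ
    have h2 : τ.h.natAbs ≤ (c.T.map fun τ => τ.h.natAbs).sum :=
      List.single_le_sum (fun _ _ => Nat.zero_le _) _ (List.mem_map_of_mem hτ)
    omega
  · have h2 := c.P_pos
    calc (c.P + 1) * c.V ≤ 2 * c.P * c.V := Nat.mul_le_mul_right _ (by omega)
      _ = 2 ^ (1 + kP * c.s + c.v * c.lb) := by rw [pow_add, pow_add]; rfl
      _ < 2 ^ c.Ab := Nat.pow_lt_pow_right (by norm_num) (by omega)
  · exact hK.pos _ _ _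
  · have hV : (1 : ℤ) ≤ c.V := by exact_mod_cast c.V_pos
    refine (Hv_le hV hw hx hy c.T fun τ hτ => (hK.hT τ hτ).1).trans_lt ?_
    rw [hSm]
    have h2 : S ≤ S * c.s := Nat.le_mul_of_pos_right _ s1
    have h3 : S * c.V ^ c.e < 2 ^ c.Ab := by
      calc S * c.V ^ c.e < 2 ^ S * c.V ^ c.e :=
            Nat.mul_lt_mul_of_pos_right Nat.lt_two_pow_self (pow_pos c.V_pos _)
        _ = 2 ^ (S + c.v * c.lb * c.e) := by rw [Cx.V, ← pow_mul, ← pow_add]
        _ ≤ 2 ^ c.Ab := pw (by omega)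
    exact_mod_cast h3
  · have := nth_lt (j := c.ρ) (s := c.s) (by omega) (by omega) hr
    rwa [← eρ] at this
  · have := nth_lt (j := kR * c.s) (s := c.s) (by omega) (by omega) hr
    rwa [← eμ] at this

theorem sBnd : SBnd := by
  intro E c w h hW hw hL hn hi
  have s1 := h.s1
  have sA := h.sA
  have eA := h.eA
  have dA := h.dA
  have xA := c.x_A
  have xP := c.x_P
  have xG := c.x_G
  have xl := c.x_l
  have xk := c.x_k
  have xsG := c.x_sG
  have l2 := c.l_two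
  have A2 : c.Ab ≤ 2 ^ c.Ab := Nat.lt_two_pow_self.le
  have nA : c.n < 2 ^ c.Ab := h.nb.trans_le (pw (by omega))
  have p0 : 0 < 2 ^ c.Ab := by positivity
  have L3 : E.Lim = 2 ^ c.Ab * 2 ^ c.Ab * 2 ^ c.Ab := by
    rw [hL, ← pow_add, ← pow_add]; congr 1; ring
  have one : ∀ {x}, x ≤ 2 ^ c.Ab → x ≤ E.Lim := fun hx => hx.trans (hL ▸ pw (by omega))
  have two : ∀ {x y}, x ≤ 2 ^ c.Ab → y ≤ 2 ^ c.Ab → x * y ≤ E.Lim := fun hx hy =>
    (Nat.mul_le_mul hx hy).trans (L3 ▸ Nat.le_mul_of_pos_right _ p0)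
  refine ⟨h, hn, hi, ?_, ?_, ?_, ?_, ?_, ?_, ?_, two (by omega) A2, one le_rfl, ?_, ?_, ?_, ?_, ?_⟩
  · rw [hL, hW]
    calc 200000 * 2 ^ (3 * c.Ab) < 2 ^ 18 * 2 ^ (3 * c.Ab) :=
          Nat.mul_lt_mul_of_pos_right (by norm_num) (by positivity)
      _ ≤ 2 ^ w := by rw [← pow_add]; exact pw (by omega)
  · exact two (pw (by have := h.kb_le; have := bt_le; omega)) (c.A_eq ▸ pw (by omega))
  · have : 2 * c.GE * c.A = 2 * c.e * 2 ^ (kG * c.s + (bt + 1) * c.l) := by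
      rw [Cx.GE, Cx.G, c.A_eq, pow_add]
      ring
    exact this ▸ two (by omega) (pw (by omega))
  · have : c.GE * c.GE * c.A = c.e * c.e * 2 ^ (kG * c.s + kG * c.s + (bt + 1) * c.l) := by
      rw [Cx.GE, Cx.G, c.A_eq, pow_add, pow_add]
      ring
    exact this ▸ two (by omega) (pw (by omega))
  · have : 2 * c.P * (c.P * c.P) = 2 * 2 ^ (kP * c.s + kP * c.s + kP * c.s) := by
      rw [Cx.P, pow_add, pow_add]
      ring
    exact this ▸ two (by omega) (pw (by omega))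
  · exact two (by omega) (pw (by omega))
  · calc 10 * c.nn + 1 = 10 * (Bs.d + 2) * c.n + 1 := by rw [Cx.nn, mul_assoc]
      _ ≤ 10 * (Bs.d + 2) * (c.n + 1) := by rw [mul_add_one]; omega
      _ ≤ 100 * c.Ab * (c.n + 1) := Nat.mul_le_mul_right _ (by omega)
      _ ≤ E.Lim := L3 ▸ Nat.mul_le_mul (Nat.mul_le_mul (by omega) A2) nA
  · exact one (c.DD_eq ▸ pw (by omega))
  · exact one (c.NG_eq ▸ pw (by omega))
  · exact one (pw (by omega))
  · exact one (pw (by omega))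
  · calc c.n * c.n * 2 ^ c.Ab < 2 ^ c.Ab * 2 ^ c.Ab * 2 ^ c.Ab :=
          Nat.mul_lt_mul_of_pos_right (Nat.mul_lt_mul'' nA nA) p0
      _ ≤ E.W := by rw [← L3, hL, hW]; exact pw (by omega)

end Pool.Agent.P.MP_8f87b2_lc.CV
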