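import Pool.Agent.P.MP_8f87b2_lc.CV.Spec

/-!
# The root lists
-/

namespace Pool.Agent.P.MP_8f87b2_lc.CV

open Finset

namespace RootsP

/-- the elements of `R` that come before `(x, y)` -/
def bef (R : Finset (ℕ × ℕ)) (x y : ℕ) : Finset (ℕ × ℕ) :=
  R.filter fun p => p.1 < x ∨ (p.1 = x ∧ p.2 < y)

/-- the elements of `S` are stored from address `b` on -/
def Sto (b q : ℕ) (S : Finset (ℕ × ℕ)) (B0 B1 : ℕ → ℕ) (σ : St) : Prop :=
  σ.var 35 = S.card ∧ (∀ t < S.card, σ.bank 10 (b + t) < q ∧ σ.bank 11 (b + t) < q) ∧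
    (∀ p ∈ S, ∃ t < S.card, σ.bank 10 (b + t) = p.1 ∧ σ.bank 11 (b + t) = p.2) ∧
    ∀ a < b, σ.bank 10 a = B0 a ∧ σ.bank 11 a = B1 a

variable {E : Env} {c : Cx} {π : Pr} {w : ℕ → ℤ} {b q x y : ℕ} {R S : Finset (ℕ × ℕ)} {B0 B1 : ℕ → ℕ}

theorem Sto.frame {σ σ' : St} {vs bs : List ℕ} {r : Bool} (h : Sto b q S B0 B1 σ)
    (hF : Frame vs bs r σ σ') (hv : 35 ∉ vs) (h0 : 10 ∉ bs) (h1 : 11 ∉ bs) :
    Sto b q S B0 B1 σ' := by
  unfold Sto
  rw [hF.var 35 hv, hF.bank 10 h0, hF.bank 11 h1]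
  exact h

theorem bef_no (h : (x, y) ∉ R) : bef R x (y + 1) = bef R x y := by
  refine filter_congr fun p hp => ?_
  have : ¬ (p.1 = x ∧ p.2 = y) := fun e => h (by rw [← e.1, ← e.2]; exact hp)
  omega

theorem bef_not (R : Finset (ℕ × ℕ)) (x y : ℕ) : (x, y) ∉ bef R x y := by simp [bef]

theorem bef_yes (h : (x, y) ∈ R) : bef R x (y + 1) = insert (x, y) (bef R x y) := by
  ext p
  simp only [bef, mem_filter, mem_insert, Prod.ext_iff]
  constructor
  · rintro ⟨h1, h2⟩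
    by_cases e : p.1 = x ∧ p.2 = y
    · exact Or.inl e
    · exact Or.inr ⟨h1, by omega⟩
  · rintro (⟨h1, h2⟩ | ⟨h1, h2⟩)
    · exact ⟨by rw [← h1, ← h2] at h; exact h, by omega⟩
    · exact ⟨h1, by omega⟩

theorem mem_rt {p : ℕ × ℕ} : p ∈ roots w c.T q ↔
    (p.1 < q ∧ p.2 < q) ∧ (q : ℤ) ∣ c.H w p.1 p.2 := by
  simp [roots, Cx.H]

theorem bef_row : bef (roots w c.T q) x q = bef (roots w c.T q) (x + 1) 0 := by
  refine filter_congr fun p hp => ?_
  have := (mem_rt.1 hp).1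
  omega

theorem bef_zero (R : Finset (ℕ × ℕ)) : bef R 0 0 = ∅ := by simp [bef]

theorem bef_all : bef (roots w c.T q) q 0 = roots w c.T q :=
  filter_true_of_mem fun _ hp => Or.inl (mem_rt.1 hp).1.1

theorem card_rt [Bs] (hq : q ≤ c.P) : (roots w c.T q).card ≤ c.P * c.P := by
  refine (card_filter_le _ _).trans ?_
  rw [card_product, card_range]
  exact Nat.mul_le_mul hq hq

/-- the body of the innermost loop -/
def pCell (T : List Trm) : Stmt := blk [pDiv T, .ite (.v 62) .skip (blk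
  [.st 10 (eadd (.v 41) (.v 35)) (.v 64), .st 11 (eadd (.v 41) (.v 35)) (.v 65),
    .set 35 (einc 35)])]

variable [Bs]

theorem cell (h : SDiv) (hB : Bnd c E) {σ : St} {t : ℕ} (hT : Tup c E π w σ)
    (h64 : σ.var 64 = x) (h65 : σ.var 65 = y) (h61 : σ.var 61 = q)
    (h41 : σ.var 41 = b) (hx : x < q) (hy : y < q) (hq : q ≤ c.P)
    (hb : b + c.P * c.P ≤ E.Lim) (hS : Sto b q (bef (roots w c.T q) x y) B0 B1 σ) :
    WP E (pCell c.T) (fun σ' t' => Sto b q (bef (roots w c.T q) x (y + 1)) B0 B1 σ' ∧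
      t' ≤ t + (c.tDiv + 4)) σ t := by
  have hbig := hB.big
  unfold pCell
  rw [wp_blk_cons]
  refine (h hB hT h64 h65 h61 (by omega) (by omega) (by omega) hq).call
    [60, 62, 63] [] false (by decide : (pDiv []).Within [60, 62, 63] [] false) ?_
  rintro σ₁ t₁ hF ⟨h1, h2⟩
  have hS₁ := hS.frame hF (by decide) (by decide) (by decide)
  rw [wp_blk_cons]
  by_cases h0 : σ₁.var 62 = 0
  · have hm : (x, y) ∈ roots w c.T q := mem_rt.2 ⟨⟨hx, hy⟩, h1.1 h0⟩
    have hc : (bef (roots w c.T q) x y).card < c.P * c.P :=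
      (card_lt_card ⟨filter_subset _ _, fun hh => bef_not _ x y (hh hm)⟩).trans_le (card_rt hq)
    have g64 : σ₁.var 64 = x := (hF.var 64 (by decide)).trans h64
    have g65 : σ₁.var 65 = y := (hF.var 65 (by decide)).trans h65
    have g41 : σ₁.var 41 = b := (hF.var 41 (by decide)).trans h41
    obtain ⟨s1, s2, s3, s4⟩ := hS₁
    refine wp_iteF (by simp) h0 ?_
    rw [bef_yes hm]
    unfold Sto
    rw [card_insert_of_notMem (bef_not _ x y)]
    generalize (bef (roots w c.T q) x y) = S at *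
    simp only [wp_blk_cons, wp_st, wp_set, wp_blk_nil]
    simp only [Expr.eval, BOp.eval, Expr.safe, BOp.safe, St.setm_var, St.setm_bank, St.setv_var,
      St.setv_bank, g64, g65, g41, s1, if_true, true_and, Nat.reduceEqDiff, if_false]
    refine ⟨by omega, by omega, by omega, by omega, ⟨by omega, by omega⟩,
      ⟨fun j hj => ?_, fun p hp => ?_, fun a ha => ?_⟩, by omega⟩
    · simp only [Function.update_apply]
      split_ifs with e
      · exact ⟨hx, hy⟩
      · exact s2 j (by omega)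
    · rcases mem_insert.1 hp with rfl | hp
      · exact ⟨S.card, by omega, by simp, by simp⟩
      · obtain ⟨j, hj, e⟩ := s3 p hp
        refine ⟨j, by omega, ?_⟩
        rw [Function.update_of_ne (by omega), Function.update_of_ne (by omega)]
        exact e
    · rw [Function.update_of_ne (by omega), Function.update_of_ne (by omega)]
      exact s4 a ha
  · refine wp_iteT (by simp) h0 ?_
    rw [wp_skip, wp_blk_nil, bef_no fun hm => h0 (h1.2 (mem_rt.1 hm).2)]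
    exact ⟨hS₁, by omega⟩

theorem P_lt (hB : Bnd c E) : c.P < E.W ∧ 1 < E.W := by
  have h1 := hB.big
  have h2 := hB.lP
  have h3 := c.P_pos
  have h4 : c.P ≤ 2 * c.P * (c.P * c.P) := by
    have : 1 ≤ c.P * c.P := Nat.mul_pos h3 h3
    nlinarith
  omega

theorem row (h : SDiv) (hB : Bnd c E) {σ : St} {t : ℕ} (hT : Tup c E π w σ)
    (h64 : σ.var 64 = x) (h61 : σ.var 61 = q)
    (h41 : σ.var 41 = b) (hx : x < q) (hq : q ≤ c.P)
    (hb : b + c.P * c.P ≤ E.Lim) (hS : Sto b q (bef (roots w c.T q) x 0) B0 B1 σ) :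
    WP E (forL 65 61 (pCell c.T)) (fun σ' t' => Sto b q (bef (roots w c.T q) (x + 1) 0) B0 B1 σ' ∧
      t' ≤ t + (c.P * (c.tDiv + 6) + 2)) σ t := by
  have hP := P_lt hB
  refine wp_for (i := 65) (body := pCell c.T) q (c.tDiv + 4) (fun y σ' => Sto b q (bef (roots w c.T q) x y) B0 B1 σ')
    [60, 62, 63, 35] [10, 11] false (by decide : (pCell []).Within [60, 62, 63, 35] [10, 11] false)
    (by decide) (by decide) (by decide) h61 (by omega) hP.2
    (hS.frame (frame_setv _ _ _) (by decide) (by decide) (by decide)) ?_ ?_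
  · intro y σ' t' hy hF hi hI
    refine (cell h hB (hT.frame hF (by decide) (by decide)) ((hF.var 64 (by decide)).trans h64) hi
      ((hF.var 61 (by decide)).trans h61)
      ((hF.var 41 (by decide)).trans h41) hx hy hq hb hI).mono fun σ₂ t₂ h2 => ?_
    exact ⟨h2.1.frame (frame_setv _ _ _) (by decide) (by decide) (by decide), h2.2⟩
  · intro σ' t' _ hI ht
    rw [← bef_row]
    have := Nat.mul_le_mul_right (c.tDiv + 4 + 2) hq
    exact ⟨hI, by simp only [Nat.add_assoc, Nat.reduceAdd] at *; omega⟩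

theorem sq (h : SDiv) (hB : Bnd c E) {σ : St} {t : ℕ} (hT : Tup c E π w σ)
    (h61 : σ.var 61 = q) (h41 : σ.var 41 = b) (h35 : σ.var 35 = 0)
    (hq : q ≤ c.P) (hb : b + c.P * c.P ≤ E.Lim) :
    WP E (forL 64 61 (forL 65 61 (pCell c.T))) (fun σ' t' =>
      Sto b q (roots w c.T q) (σ.bank 10) (σ.bank 11) σ' ∧
      t' ≤ t + (c.P * (c.P * (c.tDiv + 6) + 4) + 2)) σ t := by
  have hP := P_lt hB
  refine wp_for (i := 64) (body := forL 65 61 (pCell c.T)) q (c.P * (c.tDiv + 6) + 2)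
    (fun x σ' => Sto b q (bef (roots w c.T q) x 0) (σ.bank 10) (σ.bank 11) σ')
    [65, 60, 62, 63, 35] [10, 11] false
    (by decide : (forL 65 61 (pCell [])).Within [65, 60, 62, 63, 35] [10, 11] false)
    (by decide) (by decide) (by decide) h61 (by omega) hP.2 (by simp [bef_zero, Sto, h35]) ?_ ?_
  · intro x σ' t' hx hF hi hI
    refine (row h hB (hT.frame hF (by decide) (by decide)) hi
      ((hF.var 61 (by decide)).trans h61)
      ((hF.var 41 (by decide)).trans h41) hx hq hb hI).mono fun σ₂ t₂ h2 => ?_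
    exact ⟨h2.1.frame (frame_setv _ _ _) (by decide) (by decide) (by decide), h2.2⟩
  · intro σ' t' _ hI ht
    rw [bef_all] at hI
    have := Nat.mul_le_mul_right (c.P * (c.tDiv + 6) + 2 + 2) hq
    exact ⟨hI, by simp only [Nat.add_assoc, Nat.reduceAdd] at *; omega⟩

omit [Bs] in
theorem two_le {P : ℕ} (hP : 0 < P) {o : ℕ} (ho : o ≤ 1) :
    o * (P * P) + P * P ≤ 2 * P * (P * P) := by
  rw [← Nat.succ_mul]
  exact Nat.mul_le_mul_right _ (by omega)

end RootsP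

variable [Bs]

open RootsP in
theorem sRoots (h : SDiv) : SRoots := by
  intro E c hB σ t π w hT o q h58 h61 ho hq0 hq
  have hP := P_lt hB
  have hbig := hB.big
  have hPP : 1 ≤ c.P * c.P := Nat.mul_pos c.P_pos c.P_pos
  have g77 := hT.pre.par.PP
  have hb : o * (c.P * c.P) + c.P * c.P ≤ E.Lim := (two_le c.P_pos ho).trans hB.lP
  have hb2 : o ≤ o * (c.P * c.P) := Nat.le_mul_of_pos_right _ hPP
  change WP E (blk [.set 35 (.c 0), .set 41 (emul (.v 58) (.v 77)),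
    forL 64 61 (forL 65 61 (pCell c.T)), .st 12 (.v 58) (.v 35)]) _ σ t
  rw [wp_blk_cons, wp_set]
  refine ⟨by simp; omega, ?_⟩
  rw [wp_blk_cons, wp_set]
  refine ⟨by simp [h58, g77]; omega, ?_⟩
  rw [wp_blk_cons]
  have hF₁ : Frame [41, 35] [] false σ ((σ.setv 35 ((Expr.c 0).eval E σ)).setv 41
      ((emul (.v 58) (.v 77)).eval E (σ.setv 35 ((Expr.c 0).eval E σ)))) :=
    ((Frame.refl _ _ _ _).of_setv (by simp)).of_setv (by simp)
  refine (sq (b := o * (c.P * c.P)) h hB (hT.frame hF₁ (by decide) (by decide))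
    ((hF₁.var 61 (by decide)).trans h61)
    (by simp [h58, g77]) (by simp) hq hb).call [64, 65, 60, 62, 63, 35] [10, 11] false
    (by decide : (forL 64 61 (forL 65 61 (pCell []))).Within [64, 65, 60, 62, 63, 35] [10, 11]
      false) ?_
  rintro σ₂ t₂ hF₂ ⟨⟨s1, s2, s3, s4⟩, ht₂⟩
  have k58 : σ₂.var 58 = o := ((hF₂.var 58 (by decide)).trans (hF₁.var 58 (by decide))).trans h58
  have k12 : σ₂.bank 12 = σ.bank 12 := hF₂.bank 12 (by decide)
  simp only [St.setv_bank] at s4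
  simp only [wp_blk_cons, wp_st, wp_blk_nil, LstAt]
  simp only [Expr.eval, Expr.safe, St.setm_bank, k58, s1,
    k12, if_true, true_and, Nat.reduceEqDiff, if_false]
  refine ⟨by omega, ⟨by simp, s2, s3⟩, fun a ha => ?_, s4, ?_⟩
  · rw [Function.update_of_ne (by omega)]
  · unfold Cx.tRoots
    omega

set_option maxRecDepth 8000 in
theorem sLists (h1 : SLoadQ) (h2 : SRoots) : SLists := by
  intro E c hB σ t π hP i h33 hi
  have hbig := hB.big
  have hln := hB.ln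
  have ok := hP.ok
  unfold pLists
  rw [wp_blk_cons, wp_set]
  refine ⟨by simp only [Expr.safe], ?_⟩
  simp only [Expr.eval, hP.par.nn]
  set σ₁ := σ.setv 40 c.nn with hσ₁
  have hF₁ : Frame [40] [] false σ σ₁ := frame_setv _ _ _
  have hP₁ := hP.frame hF₁ (by decide) (by decide)
  have g₁ : σ₁.var 33 = i := (hF₁.var 33 (by decide)).trans h33
  rw [wp_blk_cons]
  refine (h1 hB hP₁.par (o := c.nn) (q := π.q1) (by simp [hσ₁]) (by omega) g₁ hi
    fun d hd => (hP₁.b7 d hd).2.1).call [36] [6] false (by decide) ?_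
  rintro σ₂ t₂ hF₂ ⟨a1, a2⟩
  have hP₂ := hP₁.frame hF₂ (by decide) (by decide)
  have g₂ : σ₂.var 33 = i := (hF₂.var 33 (by decide)).trans g₁
  rw [wp_blk_cons, wp_set]
  refine ⟨by simp only [Expr.safe], ?_⟩
  rw [wp_blk_cons, wp_set]
  refine ⟨by simp; omega, ?_⟩
  simp only [Expr.eval, hP₂.q1]
  set σ₃ := (σ₂.setv 61 π.q1).setv 58 0 with hσ₃
  have hF₃ : Frame [61, 58] [] false σ₂ σ₃ :=
    ((Frame.refl _ _ _ _).of_setv (by decide)).of_setv (by decide)
  have hT₂ : Tup c E π (c.wq π.q1 i) σ₂ := ⟨hP₂, hB.nm.wqV ok.p1.pos ok.l1.le i, a1⟩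
  have hT₃ := hT₂.frame hF₃ (by decide) (by decide)
  rw [wp_blk_cons]
  refine (h2 hB hT₃ (o := 0) (q := π.q1) (by simp [hσ₃]) (by simp [hσ₃]) (Nat.zero_le _)
    ok.p1.pos ok.l1.le).call [35, 41, 60, 62, 63, 64, 65] [10, 11, 12] false
    (by decide : (pRoots []).Within [35, 41, 60, 62, 63, 64, 65] [10, 11, 12] false) ?_
  rintro σ₄ t₄ hF₄ ⟨d1, -, -, d4⟩
  have hP₄ := hT₃.pre.frame hF₄ (by decide) (by decide)
  have g₄ : σ₄.var 33 = i := (hF₄.var 33 (by decide)).trans ((hF₃.var 33 (by decide)).trans g₂)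
  rw [wp_blk_cons, wp_set]
  refine ⟨by simp [hP₄.par.nn]; omega, ?_⟩
  simp only [Expr.eval, BOp.eval, hP₄.par.nn]
  set σ₅ := σ₄.setv 40 (c.nn + c.nn) with hσ₅
  have hF₅ : Frame [40] [] false σ₄ σ₅ := frame_setv _ _ _
  have hP₅ := hP₄.frame hF₅ (by decide) (by decide)
  have g₅ : σ₅.var 33 = i := (hF₅.var 33 (by decide)).trans g₄
  rw [wp_blk_cons]
  refine (h1 hB hP₅.par (o := c.nn + c.nn) (q := π.q2) (by simp [hσ₅]) le_rfl g₅ hi
    fun d hd => (hP₅.b7 d hd).2.2).call [36] [6] false (by decide) ?_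
  rintro σ₆ t₆ hF₆ ⟨b1, b2⟩
  have hP₆ := hP₅.frame hF₆ (by decide) (by decide)
  rw [wp_blk_cons, wp_set]
  refine ⟨by simp only [Expr.safe], ?_⟩
  rw [wp_blk_cons, wp_set]
  refine ⟨by simp; omega, ?_⟩
  simp only [Expr.eval, hP₆.q2]
  set σ₇ := (σ₆.setv 61 π.q2).setv 58 1 with hσ₇
  have hF₇ : Frame [61, 58] [] false σ₆ σ₇ :=
    ((Frame.refl _ _ _ _).of_setv (by decide)).of_setv (by decide)
  have hT₆ : Tup c E π (c.wq π.q2 i) σ₆ := ⟨hP₆, hB.nm.wqV ok.p2.pos ok.l2.le i, b1⟩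
  have hT₇ := hT₆.frame hF₇ (by decide) (by decide)
  have d7 : LstAt c 0 π.q1 (c.rt π.q1 i) σ₇ :=
    ((LstAt.frame d1 hF₅ (by decide)).frame hF₆ (by decide)).frame hF₇ (by decide)
  rw [wp_blk_cons]
  refine (h2 hB hT₇ (o := 1) (q := π.q2) (by simp [hσ₇]) (by simp [hσ₇]) le_rfl
    ok.p2.pos ok.l2.le).mono ?_
  rintro σ₈ t₈ ⟨e1, e2, e3, e4⟩
  rw [wp_blk_nil]
  have hc : (c.rt π.q1 i).card ≤ c.P * c.P := RootsP.card_rt ok.l1.le
  obtain ⟨j1, j2, j3⟩ := d7
  refine ⟨⟨(e2 0 one_pos).trans j1, fun j hj => ?_, fun p hp => ?_⟩, e1, ?_⟩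
  · rw [(e3 _ (by omega)).1, (e3 _ (by omega)).2]
    exact j2 j hj
  · obtain ⟨j, hj, e⟩ := j3 p hp
    exact ⟨j, hj, by rw [(e3 _ (by omega)).1, (e3 _ (by omega)).2]; exact e⟩
  · unfold Cx.tLists
    omega

end Pool.Agent.P.MP_8f87b2_lc.CV
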