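import Pool.Agent.P.MP_8f87b2_lc.CV.Spec

/-!
# Computing the parameters, the preparation, and the specification of the whole program
-/

namespace Pool.Agent.P.MP_8f87b2_lc.CV

open Finset

variable [Bs]

namespace SetupP

variable {E : Env} {c : Cx}

theorem pConst_spec (K : Kc) (h1 : 2 * kb < E.W) (h2 : K.e < E.W) (h3 : K.v < E.W)
    (h4 : K.a < E.W) (h5 : K.s0 < E.W) {σ : St} {t : ℕ} :
    WP E (pConst K) (fun σ' t' => σ'.var 24 = Bs.d ∧ σ'.var 13 = K.e ∧ σ'.var 83 = K.v ∧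
      σ'.var 84 = K.a ∧ σ'.var 2 = K.s0 ∧ σ'.var 87 = bt ∧ σ'.var 94 = kb ∧ σ'.var 95 = kP ∧
      σ'.var 96 = kG ∧ σ'.var 97 = ka ∧ σ'.var 98 = kk ∧ t' ≤ t + 11) σ t := by
  have := d_le
  have := bt_le
  have := kP_le
  have := kG_le
  have := ka_le_kG
  have := kk_le
  unfold pConst
  simp only [wp_blk_cons, wp_set, wp_blk_nil, Expr.safe, Expr.eval, St.setv_var,
    Nat.reduceEqDiff, if_true, if_false, true_and, h2, h3, h4, h5]
  omega

/-- the first loop finds the length of the lists -/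
theorem pLen_spec (hn1 : 0 < E.n1) (hin : E.inp 0 = (Bs.d + 2) * c.n)
    (hl : (Bs.d + 2) * c.n < E.W) (hd : Bs.d + 2 < E.W) {σ : St} {t : ℕ} (h24 : σ.var 24 = Bs.d)
    (h1 : σ.var 1 = 0) :
    WP E (.wh (elt (emul (eadd (.v 24) (.c 2)) (.v 1)) (.inp (.c 0))) (.set 1 (einc 1)))
      (fun σ' t' => σ'.var 1 = c.n ∧ t' ≤ t + 2 * c.n + 1) σ t := by
  refine wp_while (fun σ' t' => ∃ i, i ≤ c.n ∧ σ'.var 1 = i ∧ σ'.var 24 = Bs.d ∧
      t' ≤ t + 2 * i) (fun σ' => c.n - σ'.var 1) [1] [] false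
    (by simp [Stmt.Within, Stmt.wv, Stmt.wb, Stmt.rd]) ⟨0, by simp [h1, h24]⟩ ?_
  rintro σ' t' - ⟨i, i1, v1, v24, ht⟩
  have hm : (Bs.d + 2) * i ≤ (Bs.d + 2) * c.n := Nat.mul_le_mul_left _ i1
  have hn : 2 * c.n ≤ (Bs.d + 2) * c.n := Nat.mul_le_mul_right _ (by omega)
  have he : (elt (emul (eadd (.v 24) (.c 2)) (.v 1)) (.inp (.c 0))).eval E σ' =
      if (Bs.d + 2) * i < (Bs.d + 2) * c.n then 1 else 0 := by
    simp only [Expr.eval, BOp.eval, v1, v24, hin]
  rw [he]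
  refine ⟨?_, fun hc => ?_, fun hc => ?_⟩
  · simp only [Expr.safe, Expr.eval, BOp.safe, BOp.eval, v1, v24, true_and, and_true]
    omega
  · have hlt : i < c.n := by
      by_contra h
      obtain rfl : i = c.n := by omega
      simp at hc
    simp only [wp_set, Expr.safe, Expr.eval, BOp.safe, BOp.eval, St.setv_var, Nat.reduceEqDiff,
      if_true, if_false, true_and, v1, v24]
    exact ⟨by omega, ⟨i + 1, hlt, rfl, by omega⟩, by omega⟩
  · have : i = c.n := by
      by_contra h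
      have h' : (Bs.d + 2) * i < (Bs.d + 2) * c.n :=
        Nat.mul_lt_mul_of_pos_left (by omega) (by omega)
      simp [h'] at hc
    exact ⟨v1.trans this, by omega⟩

/-- the second loop finds the scale -/
theorem pScale_spec (hS : Sz c) (hl : kb * c.s + c.s + 1 < E.W) {σ : St} {t : ℕ}
    (h1 : σ.var 1 = c.n) (h2 : σ.var 2 = c.s0) (h94 : σ.var 94 = kb) :
    WP E (.wh (eshr (.v 1) (emul (.v 94) (.v 2))) (.set 2 (einc 2)))
      (fun σ' t' => σ'.var 2 = c.s ∧ t' ≤ t + 2 * c.s + 1) σ t := by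
  have hs1 := hS.s1
  refine wp_while (fun σ' t' => ∃ i, c.s0 ≤ i ∧ i ≤ c.s ∧ σ'.var 1 = c.n ∧ σ'.var 2 = i ∧
      σ'.var 94 = kb ∧ t' ≤ t + 2 * i) (fun σ' => c.s - σ'.var 2) [2] [] false
    (by simp [Stmt.Within, Stmt.wv, Stmt.wb, Stmt.rd]) ⟨c.s0, by simp [hs1, h1, h2, h94]⟩ ?_
  rintro σ' t' - ⟨i, i1, i2, v1, v2, v94, ht⟩
  have he : (eshr (.v 1) (emul (.v 94) (.v 2))).eval E σ' = c.n / 2 ^ (kb * i) := by
    simp only [Expr.eval, BOp.eval, v1, v2, v94, Nat.shiftRight_eq_div_pow]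
  have hm : kb * i ≤ kb * c.s := Nat.mul_le_mul_left _ i2
  rw [he]
  refine ⟨?_, fun hc => ?_, fun hc => ?_⟩
  · simp only [Expr.safe, Expr.eval, BOp.safe, v2, v94, true_and, and_true]
    omega
  · have hlt : i < c.s := by
      by_contra h
      obtain rfl : i = c.s := by omega
      exact hc (Nat.div_eq_of_lt hS.nN)
    simp only [wp_set, Expr.safe, Expr.eval, BOp.safe, BOp.eval, St.setv_var, Nat.reduceEqDiff,
      if_true, if_false, true_and, v1, v2, v94]
    exact ⟨by omega, ⟨i + 1, by omega, hlt, rfl, by omega⟩, by omega⟩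
  · have : i = c.s := by
      by_contra h
      exact (Nat.div_pos (hS.smin i i1 (by omega)) (by positivity)).ne' hc
    exact ⟨v2.trans this, by omega⟩

theorem pSize_spec (hS : Sz c) (hn1 : 0 < E.n1) (hin : E.inp 0 = (Bs.d + 2) * c.n)
    (hl : (Bs.d + 2) * c.n < E.W) (hd : Bs.d + 2 < E.W) (hs : kb * c.s + c.s + 1 < E.W)
    {σ : St} {t : ℕ} (h24 : σ.var 24 = Bs.d) (h2 : σ.var 2 = c.s0) (h94 : σ.var 94 = kb) :
    WP E pSize (fun σ' t' => σ'.var 1 = c.n ∧ σ'.var 2 = c.s ∧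
      t' ≤ t + 2 * c.n + 2 * c.s + 3) σ t := by
  unfold pSize
  rw [wp_blk_cons, wp_set]
  refine ⟨by simp only [Expr.safe]; omega, ?_⟩
  rw [wp_blk_cons]
  refine (pLen_spec hn1 hin hl hd (by simp [h24]) (by simp)).call [1] [] false (by decide) ?_
  rintro σ₁ t₁ F₁ ⟨a1, ht₁⟩
  rw [wp_blk_cons]
  refine (pScale_spec hS hs a1 (by rw [F₁.var 2 (by decide)]; simp [h2])
    (by rw [F₁.var 94 (by decide)]; simp [h94])).call [2] [] false (by decide) ?_
  rintro σ₂ t₂ F₂ ⟨a2, ht₂⟩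
  rw [wp_blk_nil]
  exact ⟨(F₂.var 1 (by decide)).trans a1, a2, by omega⟩

omit [Bs] in
theorem pDbl_spec {e : ℕ} {σ : St} {t : ℕ} (h9 : σ.var 9 = e) (h10 : σ.var 10 = 1)
    (hW : 2 * 2 ^ e < E.W) :
    WP E (forL 30 9 (.set 10 (edbl 10))) (fun σ' t' => σ'.var 10 = 2 ^ e ∧
      t' ≤ t + 3 * e + 2) σ t := by
  have h1 : e < 2 ^ e := Nat.lt_two_pow_self
  refine wp_for e 1 (fun k σ' => σ'.var 10 = 2 ^ k) [10] [] false (by decide) (by decide)
    (by decide) (by decide) h9 (by omega) (by omega) (by simp [h10])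
    (fun k σ' t' hk _ _ hI => ?_) fun σ' t' _ hI ht => ⟨hI, by omega⟩
  have h4 : 2 ^ k ≤ 2 ^ e := Nat.pow_le_pow_right (by norm_num) hk.le
  simp only [wp_set, Expr.safe, Expr.eval, BOp.safe, BOp.eval, St.setv_var, Nat.reduceEqDiff,
    if_false, if_true, true_and, hI, pow_succ]
  exact ⟨by omega, by omega, le_rfl⟩

theorem setup (hS : Sz c) (hB : Bnd c E) (hin : E.inp 0 = c.nn) {σ : St} {t : ℕ} :
    WP E (.seq (pConst c.toKc) pSetup)
      (fun σ' t' => Par c σ' ∧ t' ≤ t + (2 * c.n + 10 * c.Ab)) σ t := by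
  have s1 := hB.nm.s1
  have s0 := hS.s1
  have sA := hB.nm.sA
  have eA : 4 * c.e ≤ c.Ab := le_trans (Nat.le_add_left _ _) hB.nm.eA
  have vA := hB.nm.vA
  have kbl := hB.nm.kb_le
  have btl := bt_le
  have dl := d_le
  have eAb : c.a * c.s = c.Ab := rfl
  have elb : kb * c.s = c.lb := rfl
  have enn : (Bs.d + 2) * c.n = c.nn := rfl
  have aA : c.a ≤ c.Ab := Nat.le_mul_of_pos_right _ s1
  have vA' : c.v ≤ c.Ab := le_trans (Nat.le_mul_of_pos_right _ (by omega)) vA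
  have big := hB.big
  have lAb := hB.lAb
  have lT := hB.lT
  have lZ := hB.lZ
  have lGA := hB.lGA
  have ln := hB.ln
  have lGE : 2 * c.GE ≤ 2 * c.GE * c.A := Nat.le_mul_of_pos_right _ c.A_pos
  have lPP : c.P * c.P ≤ E.Lim :=
    le_trans (Nat.le_mul_of_pos_left _ (by have := c.P_pos; omega)) hB.lP
  have xA := c.x_A
  have xG := c.x_G
  have xP := c.x_P
  have xl := c.x_l
  have xk := c.x_k
  have xsG := c.x_sG
  have xsN := c.x_sN
  have xμ := c.x_μ
  have l2 := c.l_two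
  have xρ := c.ρ_eq
  have xm : (bt + bt) * c.μ ≤ c.m := Nat.mul_le_mul_right _ (by omega)
  have w1 : 2 ^ c.Ab >>> (c.Ab - (bt + 1)) = BB := c.epw_eq (by omega)
  have w2 : 2 ^ c.Ab >>> (c.Ab - bt) = LB := c.epw_eq (by omega)
  have w3 : 2 ^ c.Ab >>> (c.Ab - c.μ) = c.D := c.epw_eq (by omega)
  have w4 : 2 ^ c.Ab >>> (c.Ab - c.μ * Bs.d) = c.DD := by rw [c.epw_eq (by omega), c.DD_eq]
  have w5 : 2 ^ c.Ab >>> (c.Ab - c.v * c.lb) = c.V := c.epw_eq vA
  have w6 : 2 ^ c.Ab >>> (c.Ab - (bt + 1) * c.l) = c.A := by rw [c.epw_eq (by omega), c.A_eq]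
  have w7 : 2 ^ c.Ab >>> (c.Ab - kP * c.s) = c.P := c.epw_eq (by omega)
  have w8 : 2 ^ c.Ab >>> (c.Ab - kG * c.s) = c.G := c.epw_eq (by omega)
  have w9 : 2 ^ c.Ab >>> (c.Ab - c.k1) = 2 ^ c.k1 := c.epw_eq (by omega)
  have w10 : 2 ^ c.Ab >>> (c.Ab - c.sN) = c.N1 := by rw [c.epw_eq (by omega), c.N1_eq]
  have w11 : 2 ^ c.Ab >>> (c.Ab - c.sG) = c.NG := by rw [c.epw_eq (by omega), c.NG_eq]
  have w12 : 2 ^ c.Ab >>> (c.Ab - bt * c.μ) = c.K1 := by rw [c.epw_eq (by omega), c.K1_eq]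
  have w13 : 2 ^ c.Ab >>> (c.Ab - c.m) = 2 ^ c.m := c.epw_eq (by omega)
  have w14 : 2 ^ c.Ab >>> (c.Ab - c.ρ) = c.R1 := c.epw_eq (by omega)
  have eμ : ka * c.s = c.μ := rfl
  have em : (bt + bt + 1) * c.μ = c.m := by rw [Cx.m, two_mul]
  have el : c.m + c.m = c.l := by omega
  have ek : kk * c.s = c.k1 := rfl
  have eN : bt * ((bt + bt) * c.μ) = c.sN := by rw [Cx.sN, two_mul]
  have eS : bt * c.m = c.sG := rfl
  have eρ : kP * c.s - c.s = c.ρ := by omega
  have eG : c.G * c.e = c.GE := rfl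
  have eZ : 2 * c.e * c.P = c.Z := rfl
  have e2 : c.GE + c.GE = 2 * c.GE := by omega
  have e3 : c.s + c.s = 2 * c.s := by omega
  have Bp := BB_pos
  have Lp := LB_pos
  have Dp := c.D_pos
  have N1p := c.N1_pos
  have NGp := c.NG_pos
  have R1p := c.R1_pos
  have mp : 0 < 2 ^ c.m := by positivity
  rw [wp_seq]
  refine (pConst_spec c.toKc (by omega) (by omega) (by omega) (by omega) (by omega)).mono ?_
  rintro σ₀ t₀ ⟨a24, a13, a83, a84, a2, a87, a94, a95, a96, a97, a98, ht₀⟩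
  unfold pSetup
  rw [wp_blk_cons]
  refine (pSize_spec hS (by rw [hB.n1]; omega) hin (by omega) (by omega) (by omega) a24
    a2 a94).call [1, 2] [] false (by decide) ?_
  rintro σ₁ t₁ F₁ ⟨a1, b2, ht₁⟩
  replace a84 := (F₁.var 84 (by decide)).trans a84
  clear a2
  rw [wp_blk_cons, wp_set]
  refine ⟨by simp only [Expr.safe, Expr.eval, BOp.safe, a84, b2, true_and]; omega, ?_⟩
  rw [wp_blk_cons, wp_set]
  refine ⟨by simp only [Expr.safe]; omega, ?_⟩
  simp only [Expr.eval, BOp.eval, a84, b2, eAb]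
  rw [wp_blk_cons]
  refine (pDbl_spec (e := c.Ab) (by simp) (by simp) (by omega)).call [30, 10] [] false
    (by decide) ?_
  rintro σ₂ t₂ F₂ ⟨a10, ht₂⟩
  have a9 : σ₂.var 9 = c.Ab := by rw [F₂.var 9 (by decide)]; simp
  have fr : ∀ x, x ∉ [30, 10, 9] → σ₂.var x = σ₁.var x := fun x hx => by
    simp only [List.mem_cons, List.not_mem_nil, or_false, not_or] at hx
    rw [F₂.var x (by simp [hx.1, hx.2.1])]
    simp [hx.2.1, hx.2.2]
  replace a1 := (fr 1 (by decide)).trans a1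
  replace b2 := (fr 2 (by decide)).trans b2
  replace a24 := ((fr 24 (by decide)).trans (F₁.var 24 (by decide))).trans a24
  replace a13 := ((fr 13 (by decide)).trans (F₁.var 13 (by decide))).trans a13
  replace a83 := ((fr 83 (by decide)).trans (F₁.var 83 (by decide))).trans a83
  replace a87 := ((fr 87 (by decide)).trans (F₁.var 87 (by decide))).trans a87
  replace a94 := ((fr 94 (by decide)).trans (F₁.var 94 (by decide))).trans a94
  replace a95 := ((fr 95 (by decide)).trans (F₁.var 95 (by decide))).trans a95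
  replace a96 := ((fr 96 (by decide)).trans (F₁.var 96 (by decide))).trans a96
  replace a97 := ((fr 97 (by decide)).trans (F₁.var 97 (by decide))).trans a97
  replace a98 := ((fr 98 (by decide)).trans (F₁.var 98 (by decide))).trans a98
  clear fr F₂ F₁ a84
  simp only [wp_blk_cons, wp_blk_nil, wp_set, Expr.safe, Expr.eval, BOp.safe, BOp.eval,
    St.setv_var, Nat.reduceEqDiff, if_true, if_false, true_and, and_true, b2, a1, a9, a10, a13,
    a24, a83, a87, a94, a95, a96, a97, a98, elb, enn, w1, w2, w3, w4, w5, w6, w7, w8, w9, w10,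
    w11, w12, w13, w14, eμ, em, el, ek, eN, eS, eρ, eG, eZ, e2, e3]
  clear w1 w2 w3 w4 w5 w6 w7 w8 w9 w10 w11 w12 w13 w14 eAb eG eZ e2 e3 eμ em el ek eN eS eρ
  and_intros
  any_goals omega
  constructor <;>
    simp only [St.setv_var, Nat.reduceEqDiff, if_true, if_false, a1, a9, a13, a24, a87, Cx.t0]

theorem within (K : Kc) {vs : List ℕ}
    (h1 : ∀ x ∈ [24, 13, 83, 84, 2, 87, 94, 95, 96, 97, 98], x ∈ vs)
    (h2 : pSetup.Within vs [] false) : (Stmt.seq (pConst K) pSetup).Within vs [] false := by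
  have e1 : (pConst K).wv = [24, 13, 83, 84, 2, 87, 94, 95, 96, 97, 98] := by
    simp [pConst, blk, Stmt.wv]
  have e2 : (pConst K).wb = [] := by simp [pConst, blk, Stmt.wb]
  have e3 : (pConst K).rd = false := by simp [pConst, blk, Stmt.rd]
  refine ⟨fun x hx => ?_, fun k hk => ?_, fun _ => ?_⟩
  · rw [Stmt.wv, e1, List.mem_append] at hx
    exact hx.elim (h1 x) (h2.1 x)
  · rw [Stmt.wb, e2, List.nil_append] at hk
    exact h2.2.1 k hk
  · rw [Stmt.rd, e3, h2.2.2 rfl]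
    rfl

end SetupP

theorem sSetup : SSetup := by
  intro E c hS hB hin σ t
  refine (SetupP.setup hS hB hin).call
    [1, 2, 3, 4, 5, 6, 7, 8, 9, 10, 11, 12, 13, 14, 15, 16, 17, 18, 22, 23, 24, 25, 26, 27, 28,
      29, 30, 76, 77, 78, 79, 83, 84, 85, 86, 87, 88, 89, 92, 93, 94, 95, 96, 97, 98] [] false
    (SetupP.within _ (by decide) (by decide)) ?_
  rintro σ' t' hF ⟨hP, ht⟩
  exact ⟨hP, hF.var 0 (by decide), funext fun k => hF.bank k (by simp), hF.pos rfl, ht⟩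

theorem sPrep (h1 : SSieve) (h2 : SPrimes) (h3 : SPick) (h4 : SRes) (hc : SCode) (h5 : STab)
    (h6 : SL1) (h7 : SL2) : SPrep := by
  intro E c hB σ t hP hn hz
  have big := hB.big
  have lRW := hB.lRW
  have hk : 0 < 2 ^ c.k1 := by positivity
  unfold pPrep
  simp only [wp_blk_cons, wp_blk_nil]
  refine (h1 hB hP hz).call [33, 34] [0] false (by decide) ?_
  rintro σ₁ t₁ F₁ ⟨a1, ht₁⟩
  have hP₁ := hP.frame F₁ (by decide)
  refine (h2 hB hP₁ a1).call [35, 33] [1] false (by decide) ?_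
  rintro σ₂ t₂ F₂ ⟨a2, ht₂⟩
  have hP₂ := hP₁.frame F₂ (by decide)
  refine (pWord_spec (k := c.k1) (by decide) (by decide) (by decide) hP₂.RW
    (by omega)).call [19, 30, 31] [] true (by decide) ?_
  rintro σ₃ t₃ F₃ ⟨a3, -, ht₃⟩
  have hP₃ := hP₂.frame F₃ (by decide)
  rw [F₂.pos rfl, F₁.pos rfl] at a3
  have hr : bits E.ω σ.pos c.k1 < 2 ^ c.k1 := bits_lt _ _ _
  have hok := hB.nm.pr_ok hr
  refine (h3 hB hP₃ hr a3 (by rw [F₃.bank 1 (by decide)]; exact a2)).call [80, 81, 82] [] false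
    (by decide) ?_
  rintro σ₄ t₄ F₄ ⟨b1, b2, b3, ht₄⟩
  have hP₄ := hP₃.frame F₄ (by decide)
  refine (h4 hB hP₄ hok b1 b2 b3).call [40, 61, 33, 60, 62, 63] [7] false (by decide) ?_
  rintro σ₉ t₉ F₉ ⟨a5, ht₉⟩
  have hP₉ := hP₄.frame F₉ (by decide)
  refine (hc hB hP₉ hok fun d hd => (a5 d hd).1).call [33, 34, 35, 36] [8] false (by decide) ?_
  rintro σ₅ t₅ F₅ ⟨a8, ht₅⟩
  have hP₅ := hP₉.frame F₅ (by decide)
  refine (h5 hB hP₅).call [33, 34, 35, 36, 37, 38] [15, 2, 3] false (by decide) ?_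
  rintro σ₆ t₆ F₆ ⟨a6, ht₆⟩
  have hP₆ := hP₅.frame F₆ (by decide)
  refine (h6 hB hP₆ (fun p hp => (a6 p hp).1) fun p hp => (a6 p hp).2.1).call [20, 33] [4] false
    (by decide) ?_
  rintro σ₇ t₇ F₇ ⟨d1, d2, ht₇⟩
  have hP₇ := hP₆.frame F₇ (by decide)
  refine (h7 hB hP₇ (by rw [F₇.bank 3 (by decide)]; exact fun p hp => (a6 p hp).2.2)
    (by rw [F₇.bank 2 (by decide)]; exact fun p hp => (a6 p hp).2.1)).call [21, 33] [5] false
    (by decide) ?_
  rintro σ₈ t₈ F₈ ⟨e1, e2, ht₈⟩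
  have fr : ∀ x ∈ [80, 81, 82], σ₈.var x = σ₄.var x := fun x hx => by
    simp only [List.mem_cons, List.not_mem_nil, or_false] at hx
    rcases hx with rfl | rfl | rfl <;>
      rw [F₈.var _ (by decide), F₇.var _ (by decide), F₆.var _ (by decide), F₅.var _ (by decide),
        F₉.var _ (by decide)]
  refine ⟨⟨hP₇.frame F₈ (by decide), hok, hn, (F₈.var 20 (by decide)).trans d1, e1,
    (fr 80 (by decide)).trans b1, (fr 81 (by decide)).trans b2, (fr 82 (by decide)).trans b3,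
    ?_, ?_, e2, ?_, ?_⟩, ?_, ?_⟩
  · rw [F₈.bank 2 (by decide), F₇.bank 2 (by decide)]
    exact fun p hp => (a6 p hp).2.1
  · rw [F₈.bank 4 (by decide)]
    exact d2
  · rw [F₈.bank 7 (by decide), F₇.bank 7 (by decide), F₆.bank 7 (by decide),
      F₅.bank 7 (by decide)]
    exact a5
  · rw [F₈.bank 8 (by decide), F₇.bank 8 (by decide), F₆.bank 8 (by decide)]
    exact a8
  · rw [F₈.var 0 (by decide), F₇.var 0 (by decide), F₆.var 0 (by decide), F₅.var 0 (by decide),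
      F₉.var 0 (by decide), F₄.var 0 (by decide), F₃.var 0 (by decide), F₂.var 0 (by decide),
      F₁.var 0 (by decide)]
  · unfold Cx.tPrep
    omega

theorem sMain (h1 : SSetup) (h2 : SPrep) (h3 : SLoop) : SMain := by
  intro E c hS hB hin
  unfold pMain
  rw [wp_blk_cons]
  refine (wp_seq.1 (h1 hS hB hin (σ := St.zero) (t := 0))).mono fun σ₀ t₀ h => ?_
  rw [wp_blk_cons]
  refine h.mono ?_
  rintro σ₁ t₁ ⟨hP₁, v₁, z₁, p₁, a1⟩
  replace v₁ : σ₁.var 0 = 0 := v₁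
  replace p₁ : σ₁.pos = 0 := p₁
  simp only [wp_blk_cons, wp_blk_nil]
  by_cases hn : c.n = 0
  · refine wp_iteF trivial (hP₁.n.trans hn) (wp_skip.2 ⟨Or.inl v₁, ?_, ?_⟩)
    · rintro ⟨i, hi, -⟩
      omega
    · unfold Cx.tAll
      omega
  · refine wp_iteT trivial (fun h => hn (hP₁.n.symm.trans h)) ?_
    simp only [wp_blk_cons, wp_blk_nil]
    refine (h2 hB hP₁ (by omega) fun a => by rw [z₁]; rfl).mono ?_
    rintro σ₂ t₂ ⟨hPre, v₂, a2⟩
    rw [p₁] at hPre
    refine (h3 hB hPre).mono ?_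
    rintro σ₃ t₃ ⟨b1, b2, a3⟩
    rw [v₂, v₁] at b1
    refine ⟨b1, b2, ?_⟩
    unfold Cx.tAll
    omega

namespace SetupP

omit [Bs]

variable (h1 : ∀ T, (eH T).wf = true) (h2 : ∀ T, (eAcc T).wf = true) (T : List Trm)

include h1 in
theorem pH_wf : (pH T).wf = true := h1 T

include h1 in
theorem pDiv_wf : (pDiv T).wf = true := by
  have a1 := pH_wf h1 T
  have a2 : pMod.wf = true := by decide
  simp only [pDiv, blk, Stmt.wf, a1, a2, Bool.and_self]

include h1 in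
theorem pPre_wf : (pPre T).wf = true := by
  have a1 := pH_wf h1 T
  have a2 : pLoadC.wf = true := by decide
  simp only [pPre, blk, forL, Stmt.wf, a1, a2]
  decide

include h1 in
theorem pRoots_wf : (pRoots T).wf = true := by
  have a1 := pDiv_wf h1 T
  simp only [pRoots, blk, forL, Stmt.wf, a1]
  decide

include h1 in
theorem pLists_wf : (pLists T).wf = true := by
  have a1 := pRoots_wf h1 T
  have a2 : pLoadQ.wf = true := by decide
  simp only [pLists, blk, Stmt.wf, a1, a2]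
  decide

include h1 in
theorem pFillX_wf : (pFillX T).wf = true := by
  have a1 := pDiv_wf h1 T
  have a2 : pPut.wf = true := by decide
  simp only [pFillX, blk, forL, Stmt.wf, a1, a2]
  decide

include h2 in
theorem pOne_wf : (pOne T).wf = true := by
  have a1 := h2 T
  have a2 : pMom.wf = true := by decide
  simp only [pOne, blk, Stmt.wf, a1, a2]
  decide

include h2 in
theorem pPairs_wf : (pPairs T).wf = true := by
  have a1 := pOne_wf h2 T
  simp only [pPairs, blk, forL, Stmt.wf, a1]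
  decide

include h1 h2 in
theorem pQuery_wf : (pQuery T).wf = true := by
  have a1 := pLists_wf h1 T
  have a2 := pPairs_wf h2 T
  have a3 : pLoadC.wf = true := by decide
  simp only [pQuery, pItem, blk, forL, Stmt.wf, a1, a2, a3]
  decide

include h1 h2 in
theorem pInst_wf : (pInst T).wf = true := by
  have a1 := pFillX_wf h1 T
  have a2 := pQuery_wf h1 h2 T
  have a3 : pZero.wf = true := by decide
  have a4 : pFillY.wf = true := by decide
  have a5 : pEnc.wf = true := by decide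
  have a6 : pU.wf = true := by decide
  have a7 : pLoadR.wf = true := by decide
  simp only [pInst, blk, Stmt.wf, a1, a2, a3, a4, a5, a6, a7, Bool.and_self]

include h1 h2 in
theorem pLoop_wf : (pLoop T).wf = true := by
  have a1 := pPre_wf h1 T
  have a3 := pInst_wf h1 h2 T
  simp only [pLoop, blk, forL, Stmt.wf, a1, a3]
  decide

end SetupP

theorem pMain_wf (h1 : ∀ T, (eH T).wf = true) (h2 : ∀ T, (eAcc T).wf = true) (K : Kc) :
    (pMain K).wf = true := by
  have a1 : (pConst K).wf = true := rfl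
  have a2 : pSetup.wf = true := by decide
  have a3 : pPrep.wf = true := by decide
  have a4 := SetupP.pLoop_wf h1 h2 K.T
  simp only [pMain, blk, Stmt.wf, a1, a2, a3, a4]
  decide

end Pool.Agent.P.MP_8f87b2_lc.CV
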