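import Pool.Agent.P.MP_8f87b2_lc.CV.Spec

/-!
# Strings
-/

namespace Pool.Agent.P.MP_8f87b2_lc.CV

open Finset

variable [Bs]

theorem sW : SW := by
  intro E c hB σ t hP
  have hbig := hB.big
  have h1 := hB.lA2
  have hA := c.A_pos
  have hlB := hB.lB
  have hB2 := BB_eq
  have hL := LB_pos
  have hAb := hB.lAb
  have hxl := hB.nm.xl
  have hl : c.l < c.A := by
    rw [Cx.A]; exact Nat.lt_pow_self BB_two
  have hl2 := c.l_two
  unfold pW
  simp only [wp_blk_cons, wp_set, wp_blk_nil, Expr.safe, Expr.eval]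
  refine ⟨by omega, by omega, ?_⟩
  refine wp_for c.l 4 (fun k σ' => σ'.var 73 =
      enc k (cell c.m (σ.var 70) (σ.var 71) (σ.var 72)) ∧ σ'.var 44 = BB ^ k)
    [73, 44] [] false (by decide) (by decide) (by decide) (by decide)
    (by simpa using hP.l) (by omega) (by omega) (by simp [enc]) ?_
    fun σ' t' _ hI ht => ⟨by rw [hI.1, wd, hl2], by rw [Cx.tW]; omega⟩
  intro k σ₁ t₁ hk hF h37 ⟨h73, h44⟩
  have e12 : σ₁.var 12 = c.m := by rw [hF.var 12 (by decide)]; simpa using hP.m
  have e70 : σ₁.var 70 = σ.var 70 := by rw [hF.var 70 (by decide)]; simp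
  have e71 : σ₁.var 71 = σ.var 71 := by rw [hF.var 71 (by decide)]; simp
  have e72 : σ₁.var 72 = σ.var 72 := by rw [hF.var 72 (by decide)]; simp
  have e85 : σ₁.var 85 = BB := by rw [hF.var 85 (by decide)]; simpa using hP.rB
  have e86 : σ₁.var 86 = LB := by rw [hF.var 86 (by decide)]; simpa using hP.rL
  have e87 : σ₁.var 87 = bt := by rw [hF.var 87 (by decide)]; simpa using hP.rt
  have e92 : σ₁.var 92 = LB - 1 := by rw [hF.var 92 (by decide)]; simpa using hP.rLm
  have x1 : bt * k ≤ (bt + 1) * c.l := Nat.mul_le_mul (Nat.le_succ _) hk.le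
  have x2 : bt * (k - c.m) ≤ bt * k := Nat.mul_le_mul_left _ (Nat.sub_le _ _)
  have hp : BB ^ (k + 1) ≤ c.A := Nat.pow_le_pow_right BB_pos hk
  have hen := enc_lt (l := k + 1) (f := cell c.m (σ.var 70) (σ.var 71) (σ.var 72))
    fun _ _ => cell_lt _ _ _ _ _
  rw [enc_succ, pow_succ] at hen
  rw [pow_succ] at hp
  have b1 := ld_lt k (σ.var 70)
  have b2 := ld_lt (k - c.m) (σ.var 71)
  simp only [wp_blk_cons, wp_set, wp_blk_nil, wp_ite, wp_skip, Expr.safe, Expr.eval, BOp.safe,
    BOp.eval, St.setv_var, h37, h73, h44, e12, e70, e71, e72, e85, e86, e87, e92, ld_shift, bit_shift, enc_succ,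
    pow_succ, Nat.reduceEqDiff, if_true, if_false, true_and, and_true]
  generalize enc k (cell c.m (σ.var 70) (σ.var 71) (σ.var 72)) = x at hen ⊢
  unfold cell at hen ⊢
  by_cases hm : k < c.m
  · simp only [hm, if_true, ne_eq, one_ne_zero, not_false_eq_true, forall_const, IsEmpty.forall_iff,
      and_true] at hen ⊢
    refine ⟨by omega, fun h => ?_, fun h => ?_⟩
    · simp only [h, if_false, true_and] at hen ⊢
      omega
    · simp only [h, if_true, true_and] at hen ⊢
      omega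
  · simp only [hm, if_false, ne_eq, not_true_eq_false, forall_const, IsEmpty.forall_iff,
      true_and] at hen ⊢
    refine ⟨by omega, fun h => ?_, fun h => ?_⟩
    · simp only [h, if_false, true_and] at hen ⊢
      omega
    · simp only [h, if_true, true_and] at hen ⊢
      omega

theorem sPut (h : SW) : SPut := by
  intro E c hB σ t hP g u x B h45 hg h46 hu hb
  have hbig := hB.big
  have h1 := hB.lGA
  have hA := c.A_pos
  have h2 : 2 * c.GE ≤ E.Lim := (Nat.le_mul_of_pos_right _ c.A_pos).trans hB.lGA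
  have he := hB.nm.e1
  have huA : u < c.A := by rw [← hu, Cx.A, c.l_two]; exact wd_lt _ _ _ _
  unfold pPut
  simp only [wp_blk_cons]
  refine (h hB hP).call [73, 44, 37] [] false (by decide) fun σ₁ t₁ hF₁ ⟨q1, q2⟩ => ?_
  rw [hu] at q1
  have hP₁ := hP.frame hF₁ (by decide)
  simp only [wp_blk_cons, wp_set, wp_blk_nil, Expr.safe, Expr.eval]
  refine ⟨by omega, ?_⟩
  refine wp_for c.e 3 (fun k σ' => (σ'.var 47 : ZMod E.W) = (x ^ k : ℤ) ∧
      ∀ a < 2 * c.GE * c.A, (σ'.bank 13 a : ZMod E.W) =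
        (B a + ∑ ε ∈ range k, if a = (g + ε) * c.A + u then x ^ ε else 0 : ℤ))
    [49, 47] [13] false (by decide) (by decide) (by decide) (by decide)
    (by simpa using hP₁.e) (by omega) (by omega)
    ⟨by simp, fun a ha => by simpa [hF₁.bank 13 (by decide)] using hb a ha⟩ ?_
    fun σ' t' _ hI ht => ⟨hI.2, by rw [Cx.tPut]; omega⟩
  intro k σ₂ t₂ hk hF h48 ⟨h47, hI⟩
  have e4 : σ₂.var 4 = c.A := by rw [hF.var 4 (by decide)]; simpa using hP₁.A
  have e45 : σ₂.var 45 = g := by
    rw [hF.var 45 (by decide)]; simpa [hF₁.var 45 (by decide)] using h45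
  have e46 : (σ₂.var 46 : ZMod E.W) = x := by
    rw [hF.var 46 (by decide)]; simpa [hF₁.var 46 (by decide)] using h46
  have e73 : σ₂.var 73 = u := by rw [hF.var 73 (by decide)]; simpa using q1
  have had : (g + k) * c.A + u < 2 * c.GE * c.A := mul_add_lt (by omega) huA
  simp only [wp_blk_cons, wp_set, wp_st, wp_blk_nil, Expr.safe, Expr.eval, BOp.safe,
    BOp.eval, St.setv_var, St.setv_bank, St.setm_var, St.setm_bank, h48, e4, e45, e73,
    Nat.reduceEqDiff, if_true, if_false, true_and, and_true]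
  refine ⟨by omega, by omega, by omega, ⟨?_, fun a ha => ?_⟩, by omega⟩
  · rw [cast_rmul, h47, e46]; push_cast; ring
  · rw [sum_range_succ, Function.update_apply]
    split_ifs with hq
    · rw [cast_radd, hI _ had, h47, hq]; push_cast; ring
    · rw [hI a ha, add_zero]

theorem sOut (h : SW) : SOut := by
  intro E c hB σ t hP x y h52 h53
  have hbig := hB.big
  have h1 := hB.lNG
  have h2 := hB.lm
  have h3 := hB.lA2
  have hx := Nat.mod_lt x c.NG_pos
  have hy := Nat.mod_lt y c.NG_pos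
  have kx := c.div_N1_lt hx
  have ky := c.div_N1_lt hy
  have hN : c.N1 ≤ c.NG := by rw [c.NG_mul]; exact Nat.le_mul_of_pos_right _ c.K1_pos
  have hN0 := c.N1_pos
  have lo : ∀ L κ, κ < c.K1 → L % c.N1 + c.N1 * κ < c.NG := fun L κ hκ => by
    have := mul_add_lt hκ (Nat.mod_lt L c.N1_pos)
    rw [c.NG_mul]
    linarith
  have l1 := lo (x % c.NG) _ ky
  have l2 := lo (y % c.NG) _ kx
  have hpat : x % c.NG / c.N1 + c.K1 * (y % c.NG / c.N1) < 2 ^ c.m := by
    simpa [pat, Cx.m, Cx.K1] using pat_lt kx ky c.D_pos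
  have hw : ∀ a b p, wd c.m a b p < c.A := fun a b p => by
    rw [Cx.A, c.l_two]; exact wd_lt _ _ _ _
  unfold pOut
  simp only [wp_blk_cons, wp_set, Expr.safe, Expr.eval, BOp.safe, BOp.eval, St.setv_var, h52, h53,
    hP.NG, hP.N1, hP.sN, hP.K1, c.and_NG, c.and_N1, c.shr_N1, c.N1_succ,
    Nat.reduceEqDiff, if_true, if_false, true_and, and_true]
  have hm0 := Nat.zero_le (x % c.NG / c.N1)
  refine ⟨by omega, ⟨by omega, by omega⟩, ?_⟩
  refine (h hB (hP.frame (vs := [54, 55, 70, 71, 72]) (bs := []) (r := false)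
    ((((((Frame.refl _ _ _ _).of_setv (by simp)).of_setv (by simp)).of_setv (by simp)).of_setv
      (by simp)).of_setv (by simp)) (by decide))).call [73, 44, 37] [] false (by decide)
    fun σ₁ t₁ hF₁ ⟨q1, q2⟩ => ?_
  have v : ∀ k, k ∉ [73, 44, 37] → σ₁.var k = _ := hF₁.var
  simp only [St.setv_var, Nat.reduceEqDiff, if_true, if_false] at q1
  have e16 := v 16 (by decide)
  have e26 := v 26 (by decide)
  have e54 := v 54 (by decide)
  have e55 := v 55 (by decide)
  have e72 := v 72 (by decide)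
  have e76 := v 76 (by decide)
  simp only [St.setv_var, Nat.reduceEqDiff, if_true, if_false, hP.N1, hP.pm, hP.sN] at e16 e26 e54 e55 e72 e76
  have hP₁ : Par c σ₁ := (hP.frame (vs := [54, 55, 70, 71, 72]) (bs := []) (r := false)
    ((((((Frame.refl _ _ _ _).of_setv (by simp)).of_setv (by simp)).of_setv (by simp)).of_setv
      (by simp)).of_setv (by simp)) (by decide)).frame hF₁ (by decide)
  simp only [wp_blk_cons, wp_set, Expr.safe, Expr.eval, BOp.safe, BOp.eval, St.setv_var,
    e16, e26, e54, e55, e72, e76, c.and_N1, c.shr_N1, c.N1_succ,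
    Nat.reduceEqDiff, if_true, if_false, true_and, and_true]
  refine ⟨by omega, by omega, ?_⟩
  refine (h hB (hP₁.frame (vs := [34, 70, 71, 72]) (bs := []) (r := false)
    (((((Frame.refl _ _ _ _).of_setv (by simp)).of_setv (by simp)).of_setv (by simp)).of_setv
      (by simp)) (by decide))).call [73, 44, 37] [] false (by decide)
    fun σ₂ t₂ hF₂ ⟨r1, r2⟩ => ?_
  have e34 := hF₂.var 34 (by decide)
  simp only [St.setv_var, Nat.reduceEqDiff, if_true, if_false] at r1 e34
  simp only [wp_blk_cons, wp_set, wp_blk_nil, Expr.safe, Expr.eval, BOp.safe, BOp.eval,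
    St.setv_var, e34, q1, r1, if_true, true_and]
  refine ⟨?_, ?_, by rw [Cx.tOut]; omega⟩
  · have := hw (x % c.NG) (x % c.NG % c.N1 + c.N1 * (y % c.NG / c.N1))
      (x % c.NG / c.N1 + c.K1 * (y % c.NG / c.N1))
    have := hw (y % c.NG % c.N1 + c.N1 * (x % c.NG / c.N1)) (y % c.NG)
      (2 ^ c.m - 1 - (x % c.NG / c.N1 + c.K1 * (y % c.NG / c.N1)))
    omega
  · simp [eO, uX, vY, pat, Cx.m, Cx.N1, Cx.K1]

end Pool.Agent.P.MP_8f87b2_lc.CV
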