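import Pool.Agent.P.MP_8f87b2_lc.CV.Spec

/-!
# The value at one output string and the table of moments
-/

namespace Pool.Agent.P.MP_8f87b2_lc.CV

open Finset

variable [Bs]

namespace SumP

variable {E : Env} {c : Cx}

theorem cnt_and (l j μ : ℕ) : cnt l μ ≤ cnt l (j &&& μ) := by
  unfold cnt
  refine card_le_card fun t ht => ?_
  simp only [mem_filter] at ht ⊢
  exact ⟨ht.1, by rw [dig_and, ht.2]; simp⟩

theorem inv_and {l j μ : ℕ} (hj : inv l j = 0) (hμ : odd l μ = 0) : inv l (j &&& μ) = 0 := by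
  simp only [inv, odd, card_eq_zero, filter_eq_empty_iff] at hj hμ ⊢
  intro t ht
  rw [dig_and]
  by_cases h0 : dig t μ = 0
  · simp [h0]
  · have h1 : dig t μ = BB - 1 := by
      by_contra h
      exact hμ ht ⟨h0, h⟩
    rw [h1, and_BB, Nat.mod_eq_of_lt (dig_lt _ _)]
    exact hj ht

def trm (P : ℕ → ℤ) (l s j μ : ℕ) : ℤ :=
  (-1) ^ cnt l μ * (if cnt l μ = s then Uv P l (j &&& μ) else P (j &&& μ))

theorem sumIn (hB : Bnd c E) {σ : St} {t : ℕ} {π : Pr} {r g g' j i : ℕ}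
    (hT : Tab c E π r σ) (hg : g < c.GE) (hg' : g' < c.GE) (hj : j < c.A)
    (hv : inv c.l j = 0) (hi : i < c.L2.length) (h34 : σ.var 34 = j) (h48 : σ.var 48 = i)
    (h41 : σ.var 41 = g * c.A) (h42 : σ.var 42 = (c.GE + g') * c.A)
    (h43 : σ.var 43 = (g * c.GE + g') * c.A) {w : ℤ} (h47 : (σ.var 47 : ZMod E.W) = w) :
    WP E pSumIn (fun σ' t' => (σ'.var 47 < E.W ∧ (σ'.var 47 : ZMod E.W) =
      (w + trm (c.Pz π r g g') c.l c.t0 j (c.L2.getD i 0) : ℤ)) ∧ t' ≤ t + 6) σ t := by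
  have hbig := hB.big
  have hlGA := hB.lGA
  have hlGGA := hB.lGGA
  have hlA : c.A ≤ E.Lim := (Nat.le_mul_of_pos_left _ BB_pos).trans hB.lA
  have hp := hT.pre
  have hlen : c.L2.length ≤ c.A := flt_length_le _ _
  have h5 := hp.b5 i hi
  set μ := c.L2.getD i 0 with hμ
  have hmem : μ < c.A ∧ odd c.l μ = 0 ∧ cnt c.l μ ≤ c.t0 :=
    (mem_flt.mp (getD_mem hi)).imp id fun h => of_decide_eq_true h
  have h2 := hp.b2 μ hmem.1
  have ha : j &&& μ < c.A := lt_of_le_of_lt Nat.and_le_left hj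
  have h1 := mul_add_lt (show g < 2 * c.GE by omega) ha
  have h3 := mul_add_lt (show c.GE + g' < 2 * c.GE by omega) ha
  have h4 := mul_add_lt (mul_add_lt hg hg') ha
  have hW : ∀ a : ℕ, a % E.W < E.W := fun a => Nat.mod_lt _ (by omega)
  have sg : ∀ y : ℕ, ∀ y' : ℤ, (y : ZMod E.W) = y' →
      (cnt c.l μ % 2 ≠ 0 → (((σ.var 47 + (E.W - y % E.W)) % E.W : ℕ) : ZMod E.W) =
        (w + (-1) ^ cnt c.l μ * y' : ℤ)) ∧
      (cnt c.l μ % 2 = 0 → (((σ.var 47 + y) % E.W : ℕ) : ZMod E.W) =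
        (w + (-1) ^ cnt c.l μ * y' : ℤ)) := by
    intro y y' hy
    constructor <;> intro h
    · rw [cast_rsub (by omega), h47, hy, (Nat.odd_iff.mpr (by omega)).neg_one_pow]
      push_cast; ring
    · rw [cast_radd, h47, hy, (Nat.even_iff.mpr h).neg_one_pow]
      push_cast; ring
  unfold pSumIn
  simp only [wp_blk_cons, wp_set, wp_ite, wp_blk_nil, Expr.safe, Expr.eval, BOp.safe, BOp.eval,
    St.setv_var, St.setv_bank, h34, h48, h41, h42, h43, h5, h2, hp.par.t0, Nat.reduceEqDiff,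
    if_true, if_false, true_and, and_true, Nat.and_one_is_mod, hW]
  refine ⟨by omega, by omega, fun h => ?_, fun h => ?_⟩
  · have hc : cnt c.l μ ≠ c.t0 := by intro h'; simp [h'] at h
    have := sg (σ.bank 13 (g * c.A + (j &&& μ)) * σ.bank 13 ((c.GE + g') * c.A + (j &&& μ)) % E.W)
      (c.Pz π r g g' (j &&& μ)) (by
      rw [cast_rmul, hT.F g (by omega) _ ha, hT.F (c.GE + g') (by omega) _ ha, Cx.Pz]
      push_cast; rfl)
    rw [trm, if_neg hc]
    exact ⟨by omega, by omega, fun h => ⟨this.1 h, by omega⟩, fun h => ⟨this.2 h, by omega⟩⟩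
  · have hc : cnt c.l μ = c.t0 := by
      by_contra h'
      rw [if_pos (by omega)] at h; omega
    have hm : j &&& μ ∈ c.L1 :=
      mem_flt.mpr ⟨ha, decide_eq_true ⟨inv_and hv hmem.2.1, hc ▸ cnt_and c.l j μ⟩⟩
    have hU := hT.U _ (mul_add_lt hg hg') _ hm
    rw [add_comm (g * c.GE), Nat.add_mul_div_right _ _ (by omega), Nat.div_eq_of_lt hg', zero_add,
      Nat.add_mul_mod_self_right, Nat.mod_eq_of_lt hg', add_comm g'] at hU
    have := sg _ _ hU
    rw [trm, if_pos hc]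
    exact ⟨by omega, by omega, fun h => ⟨this.1 h, by omega⟩, fun h => ⟨this.2 h, by omega⟩⟩

omit [Bs] in
theorem addr_eq {e i j k k' : ℕ} (hj : j < e) (hk : k' < e) (h : i * e + j = k * e + k') :
    i = k ∧ j = k' := by
  have a : (i * e + j) % e = (k * e + k') % e := by rw [h]
  rw [Nat.mul_add_mod_of_lt hj, Nat.mul_add_mod_of_lt hk] at a
  subst a
  exact ⟨Nat.eq_of_mul_eq_mul_right (show 0 < e by omega) (by omega), rfl⟩

/-- the moments with address below `N` are stored -/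
def Sto (c : Cx) (E : Env) (M : ℕ → ℕ → ℤ) (N : ℕ) (σ : St) : Prop :=
  ∀ i, ∀ j < c.e, i * c.e + j < N → σ.bank 9 (i * c.e + j) < E.W ∧
    (σ.bank 9 (i * c.e + j) : ZMod E.W) = (M i j : ℤ)

end SumP

open SumP

theorem sSum : SSum := by
  intro E c hB σ t π r hT g g' j hg hg' hj hv h38 h39 h34
  have hbig := hB.big
  have hlGA := hB.lGA
  have hlGGA := hB.lGGA
  have hlA : c.A ≤ E.Lim := (Nat.le_mul_of_pos_left _ BB_pos).trans hB.lA
  have hA := c.A_pos
  have hP := hT.pre.par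
  have hlen : c.L2.length ≤ c.A := flt_length_le _ _
  have h1 : g * c.A + c.A ≤ 2 * c.GE * c.A := by nlinarith
  have h2 : (c.GE + g') * c.A + c.A ≤ 2 * c.GE * c.A := by nlinarith
  have h3 := mul_add_lt hg hg'
  have h5 : (g * c.GE + g') * c.A + c.A ≤ c.GE * c.GE * c.A := by nlinarith
  have h6 : c.GE * c.GE ≤ c.GE * c.GE * c.A := Nat.le_mul_of_pos_right _ hA
  have h7 : 2 * c.GE ≤ 2 * c.GE * c.A := Nat.le_mul_of_pos_right _ hA
  unfold pSum
  simp only [wp_blk_cons, wp_set, wp_blk_nil, Expr.safe, Expr.eval, BOp.safe, BOp.eval,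
    St.setv_var, h38, h39, hP.A, hP.GE, Nat.reduceEqDiff, if_false, true_and]
  refine ⟨by omega, by omega, by omega, by omega, ?_⟩
  set σ₁ := (((σ.setv 41 (g * c.A)).setv 42 ((c.GE + g') * c.A)).setv 43
    ((g * c.GE + g') * c.A)).setv 47 0 with hσ₁
  have hF₁ : Frame [41, 42, 43, 47] [] false σ σ₁ :=
    ((((Frame.refl _ _ _ σ₁).of_setv (by decide)).of_setv (by decide)).of_setv
      (by decide)).of_setv (by decide)
  have hT₁ := hT.frame hF₁ (by decide) (by decide)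
  refine wp_for c.L2.length 6
    (fun k σ' => σ'.var 47 < E.W ∧ (σ'.var 47 : ZMod E.W) =
      (∑ a ∈ range k, trm (c.Pz π r g g') c.l c.t0 j (c.L2.getD a 0) : ℤ))
    [47, 49, 50, 51] [] false (by decide) (by decide) (by decide) (by decide)
    hT₁.pre.n2 (by omega) (by omega) ⟨by simp [hσ₁]; omega, by simp [hσ₁]⟩ ?_ ?_
  · intro k σ₂ t₂ hk hF₂ h48 hI
    refine (sumIn hB (hT₁.frame hF₂ (by decide) (by decide)) hg hg' hj hv hk
      ((hF₂.var 34 (by decide)).trans (by simp [hσ₁, h34])) h48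
      ((hF₂.var 41 (by decide)).trans (by simp [hσ₁]))
      ((hF₂.var 42 (by decide)).trans (by simp [hσ₁]))
      ((hF₂.var 43 (by decide)).trans (by simp [hσ₁])) hI.2).mono fun σ₃ t₃ h => ⟨?_, h.2⟩
    rw [sum_range_succ]; simpa using h.1
  · intro σ₂ t₂ _ hI ht
    have hz : ∑ a ∈ range c.L2.length, trm (c.Pz π r g g') c.l c.t0 j (c.L2.getD a 0) =
        zval (c.Pz π r g g') c.l c.t0 j := by
      rw [Cx.L2, sum_flt, zval, masks]
      refine sum_congr ?_ fun _ _ => rfl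
      simp [Cx.A]
    refine ⟨hI.1, by rw [hI.2, hz], ?_⟩
    unfold Cx.tSum
    omega

theorem sMom (h1 : SOut) (h2 : SSum) (h3 : SRoot) (h4 : SEmb) : SMom := by
  intro E c hB σ t π r hT x y hx hy h52 h53
  have hbig := hB.big
  have hlGA := hB.lGA
  have hlAb := hB.lAb
  have heA := hB.nm.eA
  have he1 := hB.nm.e1
  have hA := c.A_pos
  have h7 : 2 * c.GE ≤ 2 * c.GE * c.A := Nat.le_mul_of_pos_right _ hA
  obtain ⟨o1, -, o2, -⟩ := (h4 c.μ).2.2 (x % c.NG) (Nat.mod_lt _ c.NG_pos) (y % c.NG)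
    (Nat.mod_lt _ c.NG_pos)
  unfold pMom
  simp only [wp_blk_cons, wp_blk_nil]
  refine (h1 hB hT.pre.par h52 h53).call [54, 55, 70, 71, 72, 73, 44, 37, 34] [] false
    (by decide) ?_
  rintro σ₁ t₁ hF₁ ⟨h34, ht₁⟩
  have hT₁ := hT.frame hF₁ (by decide) (by decide)
  have a52 : σ₁.var 52 = x := (hF₁.var 52 (by decide)).trans h52
  have a53 : σ₁.var 53 = y := (hF₁.var 53 (by decide)).trans h53
  refine wp_for c.e (c.e * (c.tSum + 5) + 2)
    (fun k σ' => Sto c E (c.Mom π r x y) (k * c.e) σ')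
    [57, 38, 39, 41, 42, 43, 47, 48, 49, 50, 51] [9] false (by decide) (by decide) (by decide)
    (by decide) hT₁.pre.par.e (by omega) (by omega)
    (fun i j _ h => absurd h (by omega)) ?_ ?_
  · intro k σ₂ t₂ hk hF₂ h56 hI
    have hT₂ := hT₁.frame hF₂ (by decide) (by decide)
    refine wp_for c.e (c.tSum + 3)
      (fun k' σ' => Sto c E (c.Mom π r x y) (k * c.e + k') σ')
      [38, 39, 41, 42, 43, 47, 48, 49, 50, 51] [9] false (by decide) (by decide) (by decide)
      (by decide) hT₂.pre.par.e (by omega) (by omega) hI ?_ ?_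
    · intro k' σ₃ t₃ hk' hF₃ h57 hI'
      have hT₃ := hT₂.frame hF₃ (by decide) (by decide)
      have hP₃ := hT₃.pre.par
      have b52 : σ₃.var 52 = x := by rw [hF₃.var 52 (by decide), hF₂.var 52 (by decide), a52]
      have b53 : σ₃.var 53 = y := by rw [hF₃.var 53 (by decide), hF₂.var 53 (by decide), a53]
      have b34 : σ₃.var 34 = eO c.μ (x % c.NG) (y % c.NG) := by
        rw [hF₃.var 34 (by decide), hF₂.var 34 (by decide), h34]
      have b56 : σ₃.var 56 = k := by rw [hF₃.var 56 (by decide), h56]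
      have g1 := c.grp_lt hx hk
      have g2 := c.grp_lt hy hk'
      have g3 := mul_add_lt hk hk'
      simp only [wp_blk_cons, wp_set, wp_blk_nil, Expr.safe, Expr.eval, BOp.safe, BOp.eval,
        St.setv_var, b52, b53, b56, h57, hP₃.sG, hP₃.e, c.shr_NG, Nat.reduceEqDiff, if_false,
        true_and]
      refine ⟨by omega, by omega, ?_⟩
      set σ₄ := (σ₃.setv 38 (x / c.NG * c.e + k)).setv 39 (y / c.NG * c.e + k') with hσ₄
      have hF₄ : Frame [38, 39] [] false σ₃ σ₄ :=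
        ((Frame.refl _ _ _ σ₄).of_setv (by decide)).of_setv (by decide)
      refine (h2 hB (hT₃.frame hF₄ (by decide) (by decide)) g1 g2 o1 o2 (by simp [hσ₄])
        (by simp [hσ₄]) (by simp [hσ₄, b34])).call [41, 42, 43, 47, 48, 49, 50, 51] [] false
        (by decide) ?_
      rintro σ₅ t₅ hF₅ ⟨c1, c2, c3⟩
      rw [h3 hT.pre.ok r x hx y hy k hk k' hk'] at c2
      have d56 : σ₅.var 56 = k := by rw [hF₅.var 56 (by decide), hF₄.var 56 (by decide), b56]
      have d57 : σ₅.var 57 = k' := by rw [hF₅.var 57 (by decide), hF₄.var 57 (by decide), h57]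
      have d13 : σ₅.var 13 = c.e := by rw [hF₅.var 13 (by decide), hF₄.var 13 (by decide), hP₃.e]
      have d9 : σ₅.bank 9 = σ₃.bank 9 := by rw [hF₅.bank 9 (by decide), hF₄.bank 9 (by decide)]
      simp only [wp_st, Expr.safe, Expr.eval, BOp.safe, BOp.eval, d56, d57, d13, true_and]
      refine ⟨by omega, by omega, fun i j hj hlt => ?_, by omega⟩
      simp only [St.setv_bank, St.setm_bank, if_true, d9, Function.update_apply]
      split_ifs with h
      · obtain ⟨rfl, rfl⟩ := addr_eq hj hk' h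
        exact ⟨c1, c2⟩
      · exact hI' i j hj (by omega)
    · intro σ₃ t₃ _ hI' ht
      refine ⟨fun i j hj hlt => hI' i j hj (by rw [Nat.add_mul] at hlt; omega), ?_⟩
      rw [show c.tSum + 5 = c.tSum + 3 + 2 by omega]
      omega
  · intro σ₂ t₂ _ hI ht
    refine ⟨fun i hi j hj => hI i j hj (mul_add_lt hi hj), ?_⟩
    unfold Cx.tMom
    rw [show c.e * (c.tSum + 5) + 4 = c.e * (c.tSum + 5) + 2 + 2 by omega]
    omega

end Pool.Agent.P.MP_8f87b2_lc.CV
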