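import Pool.Agent.P.MP_8f87b2_lc.CV.Spec

/-!
# The running time
-/

namespace Pool.Agent.P.MP_8f87b2_lc.CV

open Finset

variable [Bs]

namespace TimeP

/-- the time bound in terms of the size parameters -/
theorem poly {c : Cx} {X b B1 B Λ1 Λ2 : ℕ} (hX : c.Ab = X) (X1 : 1 ≤ X) (e1 : 1 ≤ c.e)
    (hee : c.e * c.e ≤ X) (hl : c.l ≤ X) (hd : Bs.d ≤ X) (hk : c.k1 ≤ X) (hn : c.n ≤ b)
    (b1 : 1 ≤ b) (l1 : c.L1.length ≤ Λ1) (l2 : c.L2.length ≤ Λ2) (m1 : 1 ≤ Λ1) (m2 : 1 ≤ Λ2)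
    (hB : c.DD * B1 = B) (hGA : c.G * c.A ≤ B1) (hGG : c.G * c.G * Λ1 ≤ B1)
    (hDK : b * (c.D * c.K1) ≤ B1) (hPP : b * (c.P * c.P * Λ2) ≤ B) :
    c.tAll ≤ 800 * (X * X * B) := by
  have D1 : 1 ≤ c.D := c.D_pos
  have DD1 : 1 ≤ c.DD := c.DD_pos
  have K1 : 1 ≤ c.K1 := c.K1_pos
  have G1 : 1 ≤ c.G := c.G_pos
  have A1 : 1 ≤ c.A := c.A_pos
  have P1 : 1 ≤ c.P := c.P_pos
  have he : c.e ≤ X := (Nat.le_mul_self _).trans hee
  have hA : c.A ≤ B1 := (Nat.le_mul_of_pos_left _ G1).trans hGA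
  have hb : b ≤ B1 := (Nat.le_mul_of_pos_right _ (Nat.mul_pos D1 K1)).trans hDK
  have B11 : 1 ≤ B1 := A1.trans hA
  have hBB : B1 ≤ B := hB ▸ Nat.le_mul_of_pos_left _ DD1
  have B0 : 1 ≤ B := B11.trans hBB
  have v0 : c.tLoad ≤ 5 * X := by unfold Cx.tLoad; omega
  have v1 : c.tMod ≤ 8 * X := by unfold Cx.tMod; omega
  have v2 : c.tDiv ≤ 9 * X := by unfold Cx.tDiv; omega
  have v3 : c.tW ≤ 10 * X := by unfold Cx.tW; omega
  have v4 : c.tPut + 4 ≤ 22 * X := by unfold Cx.tPut; omega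
  have x1 : X ≤ X * Λ2 := Nat.le_mul_of_pos_right _ m2
  have v5 : c.tOne + 8 ≤ 70 * (X * Λ2) := by
    have h1 : c.e * c.e * (c.tSum + 5) ≤ X * (19 * Λ2) :=
      Nat.mul_le_mul hee (by unfold Cx.tSum; omega)
    unfold Cx.tOne Cx.tMom Cx.tOut
    linarith
  have pp1 : c.P ≤ c.P * c.P := Nat.le_mul_self _
  have pp2 : c.P * c.P ≤ c.P * c.P * Λ2 := Nat.le_mul_of_pos_right _ m2
  have v7 : c.tRoots ≤ 24 * (X * (c.P * c.P)) := by
    have h1 : c.P * c.P * (c.tDiv + 6) ≤ c.P * c.P * (15 * X) := Nat.mul_le_mul_left _ (by omega)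
    have h2 : c.P * c.P ≤ X * (c.P * c.P) := Nat.le_mul_of_pos_left _ X1
    unfold Cx.tRoots
    linarith
  have v6 : c.n * c.tItem ≤ 360 * (X * X * B) := by
    have z1 : 1 ≤ c.Z := Nat.mul_pos (by omega) P1
    have z2 : c.Z ≤ c.Z * c.Z := Nat.le_mul_self _
    have z3 : c.Z * c.Z ≤ 4 * X * (c.P * c.P) :=
      calc c.Z * c.Z = 4 * (c.e * c.e) * (c.P * c.P) := by unfold Cx.Z; ring
        _ ≤ _ := by gcongr
    have z4 : c.Z * c.Z * (c.tOne + 8) ≤ 4 * X * (c.P * c.P) * (70 * (X * Λ2)) :=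
      Nat.mul_le_mul z3 v5
    have z7 : X * (c.P * c.P) ≤ X * X * (c.P * c.P * Λ2) :=
      Nat.mul_le_mul (Nat.le_mul_self X) pp2
    have z8 : X ≤ X * (c.P * c.P) := Nat.le_mul_of_pos_right _ (P1.trans pp1)
    have z6 : c.tItem ≤ 360 * (X * X * (c.P * c.P * Λ2)) := by
      unfold Cx.tItem Cx.tLists Cx.tPairs
      linarith
    calc c.n * c.tItem ≤ b * (360 * (X * X * (c.P * c.P * Λ2))) := Nat.mul_le_mul hn z6
      _ = 360 * (X * X * (b * (c.P * c.P * Λ2))) := by ring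
      _ ≤ _ := by gcongr
  have x2 : B ≤ X * B := Nat.le_mul_of_pos_left _ X1
  have x3 : X ≤ X * B := Nat.le_mul_of_pos_right _ B0
  have x4 : X * B ≤ X * X * B := Nat.mul_le_mul_right _ (Nat.le_mul_self X)
  have p2 : c.P * c.P ≤ B := pp2.trans ((Nat.le_mul_of_pos_left _ b1).trans hPP)
  have p1 : c.P ≤ B := pp1.trans p2
  have y1 : X ≤ X * B1 := Nat.le_mul_of_pos_right _ B11
  have y2 : B1 ≤ X * B1 := Nat.le_mul_of_pos_left _ X1
  have y4 : X * B1 ≤ X * X * B1 := Nat.mul_le_mul_right _ (Nat.le_mul_self X)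
  have k1 : X ≤ X * c.K1 := Nat.le_mul_of_pos_right _ K1
  have k2 : c.K1 * (c.tPut + 4) ≤ c.K1 * (22 * X) := Nat.mul_le_mul_left _ v4
  have k3 : X * c.K1 ≤ c.D * (X * c.K1) := Nat.le_mul_of_pos_left _ D1
  have k4 : X * (b * (c.D * c.K1)) ≤ X * B1 := Nat.mul_le_mul_left _ hDK
  have v8 : c.tFillX ≤ 49 * (X * B1) := by
    have h1 : c.D * (c.tDiv + c.K1 * (c.tPut + 4) + 5) ≤ c.D * (36 * (X * c.K1)) :=
      Nat.mul_le_mul_left _ (by linarith)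
    have h2 : c.n * (c.D * (c.tDiv + c.K1 * (c.tPut + 4) + 5) + 9) ≤
        b * (45 * (c.D * (X * c.K1))) := Nat.mul_le_mul hn (by linarith)
    unfold Cx.tFillX
    linarith
  have v9 : c.tFillY ≤ 33 * (X * B1) := by
    have h2 : c.n * (c.K1 * (c.tPut + 4) + 9) ≤ b * (31 * (c.D * (X * c.K1))) :=
      Nat.mul_le_mul hn (by linarith)
    unfold Cx.tFillY
    linarith
  have g1 : c.GE ≤ c.G * X := Nat.mul_le_mul_left _ he
  have g2 : X * (c.G * c.A) ≤ X * B1 := Nat.mul_le_mul_left _ hGA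
  have g3 : c.GE * c.A ≤ c.G * X * c.A := Nat.mul_le_mul_right _ g1
  have v10 : c.tEnc ≤ 34 * (X * X * B1) := by
    have h0 : X ≤ X * c.A := Nat.le_mul_of_pos_right _ A1
    have h1 : c.l * (c.A * 5 + 5) ≤ X * (10 * c.A) := Nat.mul_le_mul hl (by omega)
    have h2 : c.GE * (c.l * (c.A * 5 + 5) + 6) ≤ c.G * X * (16 * (X * c.A)) :=
      Nat.mul_le_mul g1 (by linarith)
    have h3 := Nat.mul_le_mul_left X g2
    unfold Cx.tEnc
    linarith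
  have v11 : c.tU ≤ 25 * (X * X * B1) := by
    have h0 : X ≤ X * Λ1 := Nat.le_mul_of_pos_right _ m1
    have h1 : c.L1.length * (c.l * 4 + 8) ≤ Λ1 * (12 * X) := Nat.mul_le_mul l1 (by omega)
    have h2 : c.GE * c.GE ≤ X * (c.G * c.G) :=
      calc c.GE * c.GE = c.e * c.e * (c.G * c.G) := by unfold Cx.GE; ring
        _ ≤ _ := Nat.mul_le_mul_right _ hee
    have h3 : c.GE * c.GE * (c.L1.length * (c.l * 4 + 8) + 11) ≤
        X * (c.G * c.G) * (23 * (X * Λ1)) := Nat.mul_le_mul h2 (by linarith)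
    have h4 : c.GE ≤ c.GE * c.GE := Nat.le_mul_self _
    have h5 := Nat.mul_le_mul_left (X * X) hGG
    unfold Cx.tU
    linarith
  have v12 : c.DD * (c.tInst + 2) ≤ 170 * (X * X * B) := by
    have h1 : c.tInst + 2 ≤ 170 * (X * X * B1) := by
      unfold Cx.tInst
      linarith
    calc c.DD * (c.tInst + 2) ≤ c.DD * (170 * (X * X * B1)) := Nat.mul_le_mul_left _ h1
      _ = _ := by rw [← hB]; ring
  have v13 : c.tPre ≤ 14 * (X * B) := by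
    have h1 : c.n * (c.tLoad + 5) ≤ B * (10 * X) := Nat.mul_le_mul (by omega) (by omega)
    unfold Cx.tPre
    linarith
  have v15 : c.tPrep ≤ 200 * (X * X * B) := by
    have h0 : c.nn ≤ 3 * X * B := Nat.mul_le_mul (by omega) (by omega)
    have h1 : c.nn * (c.tMod + 4) ≤ 3 * X * B * (12 * X) := Nat.mul_le_mul h0 (by omega)
    have h2 : c.A * (c.l * 8 + 10) ≤ B * (18 * X) := Nat.mul_le_mul (by omega) (by omega)
    have h3 : c.n * (Bs.d * 4 + 7) ≤ B * (11 * X) := Nat.mul_le_mul (by omega) (by omega)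
    unfold Cx.tPrep Cx.tRes Cx.tTab Cx.tCode
    linarith
  unfold Cx.tAll Cx.tLoop
  rw [hX]
  linarith

omit [Bs] in
theorem p2_le {a b : ℕ} (h : a ≤ b) : 2 ^ a ≤ 2 ^ b := Nat.pow_le_pow_right (by norm_num) h

theorem tAll_le {c : Cx} (hL : SLen) (s1 : 1 ≤ c.s) (e1 : 1 ≤ c.e) (nb : c.n < c.b)
    (sA : 4 * c.lb + 100 * c.s ≤ c.Ab) (eA : c.e * c.e + 4 * c.e ≤ c.Ab) (dA : Bs.d ≤ c.Ab)
    (big : 8820 * c.Ab ^ 5 ≤ 2 ^ c.s) : c.tAll ≤ 2 ^ ((2 * kb - 2) * c.s) := by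
  have hD : c.D = 2 ^ c.μ := rfl
  have hb : c.b = 2 ^ c.lb := rfl
  have hG : c.G = 2 ^ (kG * c.s) := rfl
  have hP : c.P = 2 ^ (kP * c.s) := rfl
  have X1 : 1 ≤ c.Ab := by omega
  have a1 := c.x_A
  have a2 := c.x_G
  have a3 := c.x_l
  have a4 := c.x_k
  have a5 := c.x_sG
  have a6 := c.x_μ
  have a7 := c.x_s
  have a8 : (bt + 1) * c.l = 2 * c.sG + c.l := by rw [Cx.sG, c.l_two]; ring
  have a9 : bt * c.l = 2 * c.sG := by rw [Cx.sG, c.l_two]; ring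
  have a10 : c.lb + 3 * c.s = 2 * (kP * c.s) + 4 * (uu * c.s) := by
    have : (kg + 3) * c.s = 4 * uu * c.s := by rw [kg_eq]
    rw [Cx.lb, kb]
    linarith
  have a11 : 12 * c.s ≤ uu * c.s := Nat.mul_le_mul_right _ uu_ge
  have a12 : 2 * bt * c.s = c.μ * Bs.d + 2 * (uu * c.s) := by rw [Cx.μ, ka, bt]; ring
  have a13 : 3 * uu * c.s = 3 * (uu * c.s) := mul_assoc _ _ _
  have a14 : c.l = 4 * (bt * c.μ) + 2 * c.μ := by rw [Cx.l]; ring
  have a15 : 2 * bt * c.s ≤ bt * c.l := by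
    rw [mul_comm 2, mul_assoc]
    exact Nat.mul_le_mul_left _ (by omega)
  have a16 : (2 * kb - 2) * c.s = 2 * c.lb - 2 * c.s := by
    rw [Nat.sub_mul, Cx.lb, mul_assoc]
  obtain ⟨hL1, hL2⟩ := hL c
  have hL1' : c.L1.length ≤ 2 ^ (bt * c.l + 3 * uu * c.s - 2 * bt * c.s) := by
    refine Nat.le_of_mul_le_mul_right (hL1.trans (le_of_eq ?_)) (Nat.two_pow_pos (2 * bt * c.s))
    rw [← pow_add]
    congr 1
    omega
  have key := poly (c := c) (X := c.Ab) (b := c.b)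
    (B1 := 2 ^ (2 * c.lb - 3 * c.s - c.μ * Bs.d)) (B := 2 ^ (2 * c.lb - 3 * c.s)) rfl X1 e1
    (by omega) (by omega) dA (by omega) nb.le c.b_pos hL1' hL2 Nat.one_le_two_pow
    Nat.one_le_two_pow (by rw [c.DD_eq, ← pow_add]; congr 1; omega)
    (by rw [hG, c.A_eq, ← pow_add]; exact p2_le (by omega))
    (by rw [hG, ← pow_add, ← pow_add]; exact p2_le (by omega))
    (by rw [hb, hD, c.K1_eq, ← pow_add, ← pow_add]; exact p2_le (by omega))
    (by rw [hb, hP, ← pow_add, ← pow_add, ← pow_add]; exact p2_le (by omega))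
  refine key.trans ?_
  have h1 : c.Ab * c.Ab ≤ c.Ab ^ 5 := by
    rw [← pow_two]; exact Nat.pow_le_pow_right X1 (by norm_num)
  have h2 : 800 * (c.Ab * c.Ab) ≤ 2 ^ c.s := by omega
  calc 800 * (c.Ab * c.Ab * 2 ^ (2 * c.lb - 3 * c.s))
      = 800 * (c.Ab * c.Ab) * 2 ^ (2 * c.lb - 3 * c.s) := by rw [mul_assoc 800]
    _ ≤ 2 ^ c.s * 2 ^ (2 * c.lb - 3 * c.s) := Nat.mul_le_mul_right _ h2
    _ = _ := by
      rw [← pow_add]
      congr 1
      omega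

end TimeP

open TimeP in
theorem sTime (h1 : SNm) (h2 : SLen) : STime := by
  intro K cc hK
  have hkb : 1 ≤ kb := by have := bt_le; omega
  obtain ⟨β, hβ⟩ : ∃ β, β = 2 * kb - 2 := ⟨_, rfl⟩
  obtain ⟨Λ, hΛ⟩ : ∃ Λ : ℝ, Λ = 2 ^ β := ⟨_, rfl⟩
  have hΛ1 : 1 ≤ Λ := hΛ ▸ one_le_pow₀ (by norm_num)
  refine ⟨Λ ^ K.s0, ?_⟩
  rintro c rfl hS
  have hN : Nm { c with y := fun _ => 0 } :=
    h1 (c := { c with y := fun _ => 0 }) hK ⟨hS.s1, hS.nN, hS.smin⟩ fun _ => by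
      show |(0 : ℤ)| ≤ _
      rw [abs_zero]; positivity
  have e1 := tAll_le (c := c) h2 hN.s1 hN.e1 hN.nb hN.sA hN.eA hN.dA hN.big
  obtain ⟨γ, hγ⟩ : ∃ γ : ℝ, γ = ((2 - 2 / (kb : ℚ) : ℚ) : ℝ) := ⟨_, rfl⟩
  rw [← hγ]
  have e2 : (c.tAll : ℝ) ≤ Λ ^ c.s := by
    rw [hΛ, ← pow_mul, hβ]; exact_mod_cast e1
  have h0 : (0 : ℝ) ≤ (c.n : ℝ) ^ γ := by positivity
  refine e2.trans ?_
  rcases Nat.lt_or_ge c.s0 c.s with hs | hs
  · obtain ⟨s, hs'⟩ : ∃ s, c.s = s + 1 := ⟨c.s - 1, by omega⟩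
    have e3 : (2 : ℝ) ^ (kb * s) ≤ c.n := by exact_mod_cast hS.smin s (by omega) (by omega)
    have hk : (1 : ℝ) ≤ kb := by exact_mod_cast hkb
    have hγ0 : (β : ℝ) = kb * γ := by
      have e : ((β + 2 : ℕ) : ℝ) = ((2 * kb : ℕ) : ℝ) := congrArg Nat.cast (by omega)
      rw [hγ]
      push_cast at e ⊢
      field_simp
      linarith
    have hγ1 : 0 ≤ γ := by
      have : (0 : ℝ) ≤ β := Nat.cast_nonneg _
      exact nonneg_of_mul_nonneg_right (hγ0 ▸ this) (by linarith)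
    have e4 : Λ ^ s ≤ (c.n : ℝ) ^ γ := by
      refine le_trans ?_ (Real.rpow_le_rpow (by positivity) e3 hγ1)
      rw [hΛ, ← pow_mul, ← Real.rpow_natCast, ← Real.rpow_natCast, ← Real.rpow_mul (by norm_num)]
      refine Real.rpow_le_rpow_of_exponent_le (by norm_num) (le_of_eq ?_)
      push_cast
      rw [hγ0]
      ring
    have e5 := hK.hs0
    rw [hs', pow_succ']
    exact mul_le_mul (le_self_pow₀ hΛ1 (by omega)) (by linarith) (by positivity) (by positivity)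
  · exact (pow_le_pow_right₀ hΛ1 hs).trans (le_mul_of_one_le_right (by positivity) (by linarith))

end Pool.Agent.P.MP_8f87b2_lc.CV
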