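import Pool.Agent.P.MP_8f87b2_lc.CV.Spec

/-!
# One residue vector, and the loop over the residue vectors
-/

namespace Pool.Agent.P.MP_8f87b2_lc.CV

open Finset

variable [Bs]

namespace TupP

/-- the residue vectors split the points -/
theorem sum_ncr {c : Cx} {π : Pr} (h : π.OK c) : ∑ r ∈ range c.DD, c.ncr π r = c.n := by
  have g := card_eq_sum_card_fiberwise (s := range c.n) (t := range c.DD)
    (f := fun i => c.rc π i) fun i _ => by
      simpa using h.rc_lt i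
  rw [card_range] at g
  exact g.symm

end TupP

set_option maxRecDepth 8000 in
theorem sInst (h0 : SLoadR) (h1 : SZero) (h2 : SFillX) (h3 : SFillY) (h4 : SEnc) (h5 : SU)
    (h6 : SQuery) : SInst := by
  intro E c hB σ t π r hP h91 hr
  unfold pInst
  simp only [wp_blk_cons, wp_blk_nil]
  refine (h0 hB hP.par h91).call [36] [6] false (by decide) ?_
  rintro σ₀ t₀ hF₀ ⟨z1, z2⟩
  have hI : Tup c E π (c.wr r) σ₀ :=
    ⟨hP.frame hF₀ (by decide) (by decide), hB.nm.wrV r, z1⟩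
  refine (h1 hB hI.pre.par).call [33] [13] false (by decide) ?_
  rintro σ₁ t₁ hF₁ ⟨a1, a2⟩
  have hI₁ := hI.frame hF₁ (by decide) (by decide)
  refine (h2 hB hI₁ a1).call
    [33, 37, 44, 45, 46, 47, 48, 49, 50, 51, 60, 61, 62, 63, 64, 65, 70, 71, 72, 73] [13]
    false (by decide : (pFillX []).Within
      [33, 37, 44, 45, 46, 47, 48, 49, 50, 51, 60, 61, 62, 63, 64, 65, 70, 71, 72, 73] [13]
      false) ?_
  rintro σ₂ t₂ hF₂ ⟨b1, b2⟩
  have hI₂ := hI₁.pre.frame hF₂ (by decide) (by decide)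
  refine (h3 hB hI₂ (B := fun a => ∑ i ∈ range c.n, c.TX π r i a) b1).call
    [33, 37, 44, 45, 46, 47, 48, 49, 50, 51, 65, 70, 71, 72, 73] [13] false (by decide) ?_
  rintro σ₃ t₃ hF₃ ⟨d1, d2⟩
  have hI₃ := hI₂.frame hF₃ (by decide) (by decide)
  refine (h4 hB hI₃.par (B := c.TT π r) d1).call
    [33, 34, 35, 38, 41, 44] [13] false (by decide) ?_
  rintro σ₄ t₄ hF₄ ⟨e1, e2⟩
  have hI₄ := hI₃.frame hF₄ (by decide) (by decide)
  refine (h5 hB (r := r) hI₄ e1).call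
    [33, 34, 35, 36, 37, 41, 42, 43, 44, 45] [14] false (by decide) ?_
  rintro σ₅ t₅ hF₅ ⟨f1, f2⟩
  have hI₅ := hI₄.frame hF₅ (by decide) (by decide)
  have h91' : σ₅.var 91 = r := by
    rw [hF₅.var 91 (by decide), hF₄.var 91 (by decide), hF₃.var 91 (by decide),
      hF₂.var 91 (by decide), hF₁.var 91 (by decide), hF₀.var 91 (by decide), h91]
  have hT₅ : Tab c E π r σ₅ :=
    ⟨hI₅, h91', hr, by rw [hF₅.bank 13 (by decide)]; exact e1, f1⟩
  refine (h6 hB hT₅).mono ?_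
  rintro σ₆ t₆ ⟨g1, g2, g3⟩
  refine ⟨?_, g2, by unfold Cx.tInst; omega⟩
  rwa [hF₅.var 0 (by decide), hF₄.var 0 (by decide), hF₃.var 0 (by decide),
    hF₂.var 0 (by decide), hF₁.var 0 (by decide), hF₀.var 0 (by decide)] at g1

namespace TupP

variable {E : Env} {c : Cx}

set_option maxRecDepth 8000 in
/-- the loop over the residue vectors -/
theorem pRes_loop (h4 : SInst) (hB : Bnd c E) {σ : St} {t : ℕ} {π : Pr} (hT : Pre c π σ) :
    WP E (forL 91 3 (pInst c.T)) (fun σ' t' => c.Out (σ.var 0) (σ'.var 0) ∧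
      (∀ i < c.n, c.HitI π i → σ'.var 0 = 1) ∧
      t' ≤ t + (c.DD * (c.tInst + 2) + 2 + c.n * c.tItem)) σ t := by
  have hbig := hB.big
  have hD := hB.lDD
  have hD0 := c.DD_pos
  refine wp_forT (body := pInst c.T) c.DD (fun j σ' t' => c.Out (σ.var 0) (σ'.var 0) ∧
      (∀ i < c.n, c.rc π i < j → c.HitI π i → σ'.var 0 = 1) ∧
      t' ≤ t + 1 + j * (c.tInst + 2) + (∑ r ∈ range j, c.ncr π r) * c.tItem)
    [0, 33, 34, 35, 36, 37, 38, 39, 40, 41, 42, 43, 44, 45, 46, 47, 48, 49, 50, 51, 52, 53, 54,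
      55, 56, 57, 58, 60, 61, 62, 63, 64, 65, 67, 68, 69, 70, 71, 72, 73, 74]
    [6, 9, 10, 11, 12, 13, 14] false
    (by decide : (pInst []).Within
      [0, 33, 34, 35, 36, 37, 38, 39, 40, 41, 42, 43, 44, 45, 46, 47, 48, 49, 50, 51, 52, 53, 54,
        55, 56, 57, 58, 60, 61, 62, 63, 64, 65, 67, 68, 69, 70, 71, 72, 73, 74]
      [6, 9, 10, 11, 12, 13, 14] false)
    (by decide) (by decide) (by decide) hT.par.DD (by omega) (by omega)
    ⟨Or.inl (by simp), by simp, by simp⟩ ?_ ?_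
  · rintro j σ₁ t₁ hj hF₁ h91 ⟨a1, a2, a3⟩
    refine (h4 hB (hT.frame hF₁ (by decide) (by decide)) h91 hj).mono ?_
    rintro σ₂ t₂ ⟨b1, b2, b3⟩
    refine ⟨by simpa using a1.trans b1, fun i hi hr hh => ?_, ?_⟩
    · simp only [St.setv_var, Nat.reduceEqDiff, if_false]
      by_cases g : c.rc π i = j
      · exact b2 i hi g hh
      · exact b1.one (a2 i hi (by omega) hh)
    · rw [sum_range_succ, Nat.succ_mul, Nat.add_mul]; omega
  · rintro σ₁ t₁ - - ⟨a1, a2, a3⟩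
    refine ⟨a1, fun i hi hh => a2 i hi (hT.ok.rc_lt i) hh, ?_⟩
    rw [sum_ncr hT.ok] at a3
    omega

end TupP

set_option maxRecDepth 8000 in
theorem sLoop (h1 : SPre) (h2 : SInst) : SLoop := by
  intro E c hB σ t π hP
  unfold pLoop
  rw [wp_blk_cons]
  refine (h1 hB hP).call [0, 33, 36, 60, 64, 65] [6] false
    (by decide : (pPre []).Within [0, 33, 36, 60, 64, 65] [6] false) ?_
  rintro σ₁ t₁ hF₁ ⟨b1, b2, b3⟩
  rw [wp_blk_cons]
  refine (TupP.pRes_loop h2 hB (hP.frame hF₁ (by decide) (by decide))).mono ?_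
  rintro σ₂ t₂ ⟨f1, f2, f3⟩
  rw [wp_blk_nil]
  refine ⟨b1.trans f1, ?_, by unfold Cx.tLoop; omega⟩
  rintro ⟨i, hi, g | g⟩
  · exact f1.one (b2 i hi g)
  · exact f2 i hi g

end Pool.Agent.P.MP_8f87b2_lc.CV
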