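import Pool.Agent.P.MP_8f87b2_lc.CV.Decide
import Pool.Agent.P.MP_8f87b2_lc.CV.Emb
import Pool.Agent.P.MP_8f87b2_lc.CV.SZ
import Pool.Agent.P.MP_8f87b2_lc.CV.Mod
import Pool.Agent.P.MP_8f87b2_lc.CV.Prime
import Pool.Agent.P.MP_8f87b2_lc.CV.Tabs
import Pool.Agent.P.MP_8f87b2_lc.CV.Load
import Pool.Agent.P.MP_8f87b2_lc.CV.Exp
import Pool.Agent.P.MP_8f87b2_lc.CV.Roots
import Pool.Agent.P.MP_8f87b2_lc.CV.Str
import Pool.Agent.P.MP_8f87b2_lc.CV.Fill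
import Pool.Agent.P.MP_8f87b2_lc.CV.Enc
import Pool.Agent.P.MP_8f87b2_lc.CV.Sum
import Pool.Agent.P.MP_8f87b2_lc.CV.Root
import Pool.Agent.P.MP_8f87b2_lc.CV.One
import Pool.Agent.P.MP_8f87b2_lc.CV.Tup
import Pool.Agent.P.MP_8f87b2_lc.CV.Setup
import Pool.Agent.P.MP_8f87b2_lc.CV.Num
import Pool.Agent.P.MP_8f87b2_lc.CV.Len
import Pool.Agent.P.MP_8f87b2_lc.CV.Time
import Pool.Agent.P.MP_8f87b2_lc.CV.Prob

/-!
# Assembly of the algorithm for curves against a grid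
-/

namespace Pool.Agent.P.MP_8f87b2_lc.CV

theorem sMainAll [Bs] : SMain :=
  have hDiv : SDiv := sDiv sMod
  have hPut : SPut := sPut sW
  have hMom : SMom := sMom (sOut sW) sSum (sRoot sEmb) sEmb
  have hItem : SItem := sItem (sLists sLoadQ (sRoots hDiv)) sLoadC (sPairs (sOne hMom sAccE))
  have hInst : SInst :=
    sInst sLoadR sZero (sFillX hDiv hPut) (sFillY hPut) sEnc sU (sQuery hItem)
  sMain sSetup (sPrep sSieve sPrimes sPick (sRes sMod) sCode sTab sL1 sL2)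
    (sLoop (sPre sLoadC) hInst)

theorem DecidesC.mono {d : ℕ} {F : MvPolynomial (Fin (d + 2)) ℤ} {c : ℕ} {γ γ' : ℚ}
    (h0 : 0 < γ) (h : γ ≤ γ') (hD : DecidesC F c γ) : DecidesC F c γ' := by
  obtain ⟨P, K, M, hP⟩ := hD
  refine ⟨P, K, M, fun n A B C hV w hw => ?_⟩
  obtain ⟨t, ht, h2⟩ := hP n A B C hV w hw
  refine ⟨t, ht.trans (mul_le_mul_of_nonneg_left ?_ (Nat.cast_nonneg _)), h2⟩
  have h1 : (n : ℝ) ^ (γ : ℝ) ≤ (n : ℝ) ^ (γ' : ℝ) := by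
    rcases Nat.eq_zero_or_pos n with rfl | hn
    · rw [Nat.cast_zero, Real.zero_rpow (by exact_mod_cast h0.ne')]
      positivity
    · exact Real.rpow_le_rpow_of_exponent_le (by exact_mod_cast hn) (by exact_mod_cast h)
  linarith

theorem kb_le [Bs] : kb ≤ 6400 * (Bs.d + 2) ^ 5 := by
  unfold kb kP kg bt uu
  generalize Bs.d = d
  ring_nf
  omega

theorem decides (d : ℕ) (F : MvPolynomial (Fin (d + 2)) ℤ) (c : ℕ) :
    DecidesC F c (2 - 1 / (3200 * (d + 2) ^ 5)) := by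
  let _ : Bs := ⟨d⟩
  have h1 : 13 ≤ kb := by have := bt_le; have := bt_ge; omega
  have h2 : (13 : ℚ) ≤ kb := by exact_mod_cast h1
  have h3 : (kb : ℚ) ≤ 6400 * (d + 2) ^ 5 := by exact_mod_cast kb_le
  refine DecidesC.mono ?_ ?_ (decides_of sMainAll (pMain_wf eH_wf eAcc_wf) sK sNm sBnd
    (sTime sNm sLen) sGood (sComplete sSZ) F c)
  · have : 2 / (kb : ℚ) ≤ 1 := by rw [div_le_one (by linarith)]; linarith
    linarith
  · have : 1 / (3200 * ((d : ℚ) + 2) ^ 5) ≤ 2 / (kb : ℚ) := by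
      rw [div_le_div_iff₀ (by positivity) (by linarith)]; linarith
    linarith

end Pool.Agent.P.MP_8f87b2_lc.CV
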